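import Pool.Agent.TH229.Kan.Ergo

/-!
# Almost every fibre absorbs a given point
-/

set_option autoImplicit false

namespace Pool.Agent.TH229.Kan

open Complex Filter Topology MeasureTheory

/-- the orbit of `z` over `u` converges to `0`, `1` or `∞` -/
def Absorbed (L : ℕ) (α z : ℂ) (u : ℝ) : Prop :=
  Tendsto (fun n => Phi L α z n u) atTop (𝓝 0) ∨ Tendsto (fun n => Phi L α z n u) atTop (𝓝 1) ∨
    Tendsto (fun n => ‖Phi L α z n u‖) atTop atTop

lemma Phi_add_real (L : ℕ) (α z : ℂ) (n k : ℕ) (u : ℝ) :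
    Phi L α z (n + k) u = Phi L α (Phi L α z n u) k (((L : ℝ) ^ n * u : ℝ) : ℂ) := by
  rw [Phi_add]
  push_cast
  rfl

lemma Absorbed_shift {L : ℕ} {α z : ℂ} {u : ℝ} (n : ℕ)
    (h : Absorbed L α (Phi L α z n u) ((L : ℝ) ^ n * u)) : Absorbed L α z u := by
  have e : ∀ k, Phi L α z (k + n) u = Phi L α (Phi L α z n u) k (((L : ℝ) ^ n * u : ℝ) : ℂ) := by
    intro k
    rw [add_comm, Phi_add_real]
  rcases h with h | h | h
  · left
    rw [← tendsto_add_atTop_iff_nat n]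
    simp_rw [e]
    exact h
  · right; left
    rw [← tendsto_add_atTop_iff_nat n]
    simp_rw [e]
    exact h
  · right; right
    rw [← tendsto_add_atTop_iff_nat n]
    simp_rw [e]
    exact h

lemma absorbed_of_escape {L : ℕ} {α z : ℂ} {M : ℝ} (hα : 0 < ‖α‖) (hM : 0 < M) {v : ℝ}
    (hv : v ∈ GE L M) (hz : RE α M ≤ ‖z‖) : Absorbed L α z v := by
  right; right
  apply tendsto_atTop_mono (fun n => escape hα hM hv hz n)
  have hR := RE_pos hα hM
  exact (tendsto_pow_atTop_atTop_of_one_lt (by norm_num)).atTop_mul_const (by linarith)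

lemma absorbed_of_zero {L : ℕ} {α z : ℂ} (hα : ‖α‖ < 1) {θ C : ℝ} (hθ0 : 0 < θ) (hθ : θ < 1)
    (hC : 0 < C) {v : ℝ} (hv : v ∈ GS L α θ C) (hz : ‖z‖ ≤ rS α θ C) : Absorbed L α z v := by
  left
  rw [tendsto_zero_iff_norm_tendsto_zero]
  have h1 : Tendsto (fun n : ℕ => 2 * C * θ ^ n * ‖z‖) atTop (𝓝 (2 * C * 0 * ‖z‖)) :=
    ((tendsto_pow_atTop_nhds_zero_of_lt_one hθ0.le hθ).const_mul _).mul_const _
  simp only [mul_zero, zero_mul] at h1
  exact squeeze_zero (fun _ => norm_nonneg _) (fun n => attract_zero hα hθ0 hθ hC hv hz n) h1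

lemma absorbed_of_one {L : ℕ} {α z : ℂ} (hα : ‖α‖ < 1) {θ C : ℝ} (hθ0 : 0 < θ) (hθ : θ < 1)
    (hC : 0 < C) {v : ℝ} (hv : v ∈ GS L α θ C) (hz : ‖1 - z‖ ≤ rS α θ C) : Absorbed L α z v := by
  right; left
  rw [tendsto_iff_norm_sub_tendsto_zero]
  have h1 : Tendsto (fun n : ℕ => 2 * C * θ ^ n * ‖1 - z‖) atTop (𝓝 (2 * C * 0 * ‖1 - z‖)) :=
    ((tendsto_pow_atTop_nhds_zero_of_lt_one hθ0.le hθ).const_mul _).mul_const _
  simp only [mul_zero, zero_mul] at h1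
  refine squeeze_zero (fun _ => norm_nonneg _) (fun n => ?_) h1
  rw [norm_sub_rev]
  exact attract_one hα hθ0 hθ hC hv hz n

lemma Phi_joint_cont (L : ℕ) (α : ℂ) (n : ℕ) :
    Continuous fun p : ℂ × ℝ => Phi L α p.1 n (p.2 : ℂ) := by
  induction n with
  | zero => exact continuous_fst
  | succ n ih =>
    simp_rw [Phi_succ]
    have h1 : Continuous fun p : ℂ × ℝ => cc ((L : ℂ) ^ n * (p.2 : ℂ)) :=
      cc_diff.continuous.comp (continuous_const.mul (Complex.continuous_ofReal.comp continuous_snd))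
    exact ih.add (((continuous_const.mul h1).mul ih).mul (continuous_const.sub ih))

lemma Absorbed_measurable (L : ℕ) (α : ℂ) :
    MeasurableSet {p : ℂ × ℝ | Absorbed L α p.1 p.2} := by
  have hm : ∀ n, Measurable fun p : ℂ × ℝ => Phi L α p.1 n (p.2 : ℂ) :=
    fun n => (Phi_joint_cont L α n).measurable
  have h0 := measurableSet_tendsto (l := atTop) (𝓝 (0 : ℂ)) hm
  have h1 := measurableSet_tendsto (l := atTop) (𝓝 (1 : ℂ)) hm
  have h2 := measurableSet_tendsto (l := atTop) (atTop : Filter ℝ) (fun n => (hm n).norm)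
  exact h0.union (h1.union h2)

lemma GS_mono {L : ℕ} {α : ℂ} {θ C C' : ℝ} (hθ0 : 0 < θ) (h : C ≤ C') :
    GS L α θ C ⊆ GS L α θ C' := by
  intro v hv n
  have : C * θ ^ n ≤ C' * θ ^ n := by gcongr
  exact ⟨(hv n).1.trans this, (hv n).2.trans this⟩

lemma GE_mono {L : ℕ} {M M' : ℝ} (hM : 0 < M) (h : M ≤ M') : GE L M ⊆ GE L M' := by
  intro v hv k
  refine le_trans ?_ (hv k)
  gcongr

lemma ae_GS {L : ℕ} (hL : 1 < L) {α : ℂ} (hα : ‖α‖ < 1)
    (h0 : ∫ u in (0 : ℝ)..1, Real.log ‖1 + α * ((Real.cos (2 * Real.pi * u) : ℝ) : ℂ)‖ < 0)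
    (h1 : ∫ u in (0 : ℝ)..1, Real.log ‖1 - α * ((Real.cos (2 * Real.pi * u) : ℝ) : ℂ)‖ < 0) :
    ∃ θ : ℝ, 0 < θ ∧ θ < 1 ∧ ∀ᵐ v : ℝ, ∃ i : ℕ, v ∈ GS L α θ ((i : ℝ) + 1) := by
  set l0 := ∫ u in (0 : ℝ)..1, Real.log ‖1 + α * ((Real.cos (2 * Real.pi * u) : ℝ) : ℂ)‖
  set l1 := ∫ u in (0 : ℝ)..1, Real.log ‖1 - α * ((Real.cos (2 * Real.pi * u) : ℝ) : ℂ)‖ with hl1
  have hm : max l0 l1 < 0 := max_lt h0 h1
  set κ := max l0 l1 / 2 with hκ
  have hκ0 : κ < 0 := by rw [hκ]; linarith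
  have hκ1 : l0 < κ := by
    have := le_max_left l0 l1
    rw [hκ]; linarith
  have hκ2 : l1 < κ := by
    have := le_max_right l0 l1
    rw [hκ]; linarith
  refine ⟨Real.exp κ, Real.exp_pos κ, Real.exp_lt_one_iff.2 hκ0, ?_⟩
  have a1 := ae_prod hL hα hκ1
  have a2 := ae_prod (α := -α) hL (by rwa [norm_neg]) (κ := κ) (by
    simp_rw [neg_mul, ← sub_eq_add_neg]
    exact hκ2)
  filter_upwards [a1, a2] with v ⟨C1, hC1, hv1⟩ ⟨C2, hC2, hv2⟩
  obtain ⟨i, hi⟩ := exists_nat_ge (max C1 C2)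
  refine ⟨i, fun n => ⟨(hv1 n).trans ?_, (hv2 n).trans ?_⟩⟩
  · have : C1 ≤ (i : ℝ) + 1 := (le_max_left _ _).trans (hi.trans (by linarith))
    gcongr
  · have : C2 ≤ (i : ℝ) + 1 := (le_max_right _ _).trans (hi.trans (by linarith))
    gcongr

theorem ae_absorbed {L : ℕ} (hL : 6 ≤ L) {α : ℂ} (hα0 : 0 < ‖α‖) (hα : ‖α‖ < 1)
    (h0 : ∫ u in (0 : ℝ)..1, Real.log ‖1 + α * ((Real.cos (2 * Real.pi * u) : ℝ) : ℂ)‖ < 0)
    (h1 : ∫ u in (0 : ℝ)..1, Real.log ‖1 - α * ((Real.cos (2 * Real.pi * u) : ℝ) : ℂ)‖ < 0)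
    (z : ℂ) : ∀ᵐ u : ℝ, Absorbed L α z u := by
  obtain ⟨θ, hθ0, hθ, hGS⟩ := ae_GS (L := L) (by omega) hα h0 h1
  -- a sink set of positive measure
  obtain ⟨i, hi⟩ : ∃ i : ℕ, volume (GS L α θ ((i : ℝ) + 1) ∩ Set.Ioc 0 1) ≠ 0 := by
    by_contra hcon
    push Not at hcon
    have hU : volume (⋃ i : ℕ, (GS L α θ ((i : ℝ) + 1) ∩ Set.Ioc 0 1)) = 0 :=
      measure_iUnion_null hcon
    have h2 : volume (Set.Ioc (0 : ℝ) 1 \ ⋃ i : ℕ, (GS L α θ ((i : ℝ) + 1) ∩ Set.Ioc 0 1)) = 0 := by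
      refine measure_mono_null ?_ hGS
      rintro v ⟨hv1, hv2⟩ ⟨i, hi⟩
      exact hv2 (Set.mem_iUnion.2 ⟨i, hi, hv1⟩)
    have h3 : volume (Set.Ioc (0 : ℝ) 1) = 0 := by
      refine measure_mono_null ?_ (measure_union_null hU h2)
      intro v hv
      by_cases h : v ∈ ⋃ i : ℕ, (GS L α θ ((i : ℝ) + 1) ∩ Set.Ioc 0 1)
      · exact Or.inl h
      · exact Or.inr ⟨hv, h⟩
    rw [Real.volume_Ioc] at h3
    norm_num at h3
  have hC : (0 : ℝ) < (i : ℝ) + 1 := by positivity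
  have he := eps0_pos
  set M : ℝ := 8 / eps0 with hM
  have hM0 : 0 < M := by positivity
  set Nb : Set ℝ := {u | ¬ Absorbed L α z u} with hNb
  have hNbm : MeasurableSet Nb := by
    have h4 : MeasurableSet {u : ℝ | Absorbed L α z u} := by
      have h5 : Measurable fun u : ℝ => ((z, u) : ℂ × ℝ) := by fun_prop
      exact h5 (Absorbed_measurable L α)
    exact h4.compl
  have hr := rS_pos hα hθ hC
  have hcore := core (L := L) (α := α) (z := z) hL hα.le (norm_pos_iff.1 hα0) hNbm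
    (G := GE L M) (GE_closed L M).measurableSet (GE_periodic L M)
    ((GE_compl (by omega) hM0).trans (by
      apply ENNReal.ofReal_le_ofReal
      rw [hM]
      apply le_of_eq
      field_simp
      norm_num))
    (R := RE α M) (by linarith [RE_pos hα0 hM0])
    (fun n x hx hG => by
      by_contra hcon
      push Not at hcon
      exact hx (Absorbed_shift n (absorbed_of_escape hα0 hM0 hG hcon.le)))
    (S := GS L α θ ((i : ℝ) + 1)) (GS_closed _ _ _ _).measurableSet (GS_periodic _ _ _ _) hi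
    (σ := rS α θ ((i : ℝ) + 1) ^ 2) (by positivity)
    (fun n x hx hS => by
      have h6 : rS α θ ((i : ℝ) + 1) ≤ ‖Phi L α z n (x : ℝ)‖ := by
        by_contra hcon
        push Not at hcon
        exact hx (Absorbed_shift n (absorbed_of_zero hα hθ0 hθ hC hS hcon.le))
      have h7 : rS α θ ((i : ℝ) + 1) ≤ ‖1 - Phi L α z n (x : ℝ)‖ := by
        by_contra hcon
        push Not at hcon
        exact hx (Absorbed_shift n (absorbed_of_one hα hθ0 hθ hC hS hcon.le))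
      rw [norm_mul, sq]
      exact mul_le_mul h6 h7 hr.le (norm_nonneg _))
  exact hcore

/-- infinitely many good times -/
lemma ae_frequently {L : ℕ} (hL : 0 < L) {K : ℕ → Set ℝ} (hKm : ∀ i, MeasurableSet (K i))
    (hKp : ∀ i x, x + 1 ∈ K i ↔ x ∈ K i) (hmono : Monotone K)
    (hK : ∀ᵐ v : ℝ, ∃ i, v ∈ K i) :
    ∀ᵐ u : ℝ, ∃ i, ∃ᶠ n : ℕ in atTop, (L : ℝ) ^ n * u ∈ K i := by
  have hL0 : (0 : ℝ) < L := by exact_mod_cast hL
  -- complements are small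
  have hsmall : Tendsto (fun i => volume ((K i)ᶜ ∩ Set.Ioc 0 1)) atTop (𝓝 0) := by
    have h1 := tendsto_measure_iInter_atTop (μ := (volume : Measure ℝ))
      (s := fun i => (K i)ᶜ ∩ Set.Ioc 0 1)
      (fun i => ((hKm i).compl.inter measurableSet_Ioc).nullMeasurableSet)
      (fun i j hij => Set.inter_subset_inter_left _ (Set.compl_subset_compl.2 (hmono hij)))
      ⟨0, by
        refine ne_top_of_le_ne_top ?_ (measure_mono Set.inter_subset_right)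
        rw [Real.volume_Ioc]; exact ENNReal.ofReal_ne_top⟩
    have h2 : volume (⋂ i, ((K i)ᶜ ∩ Set.Ioc (0 : ℝ) 1)) = 0 := by
      refine measure_mono_null ?_ hK
      rintro v hv ⟨i, hi⟩
      exact (Set.mem_iInter.1 hv i).1 hi
    rw [h2] at h1
    exact h1
  -- on each unit interval
  have hloc : ∀ a : ℤ, volume ({u : ℝ | ¬ ∃ i, ∃ᶠ n : ℕ in atTop, (L : ℝ) ^ n * u ∈ K i}
      ∩ Set.Icc (a : ℝ) (a + 1)) = 0 := by
    intro a
    apply le_antisymm _ bot_le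
    refine ge_of_tendsto' hsmall fun i => ?_
    set B : ℕ → Set ℝ := fun N => {u | ∀ n ≥ N, (L : ℝ) ^ n * u ∉ K i} ∩ Set.Icc (a : ℝ) (a + 1)
      with hB
    have hBmono : Monotone B := by
      intro N N' hNN u hu
      exact ⟨fun n hn => hu.1 n (hNN.trans hn), hu.2⟩
    have hsub : {u : ℝ | ¬ ∃ i, ∃ᶠ n : ℕ in atTop, (L : ℝ) ^ n * u ∈ K i}
        ∩ Set.Icc (a : ℝ) (a + 1) ⊆ ⋃ N, B N := by
      rintro u ⟨hu1, hu2⟩
      have hu1' : ¬ ∃ i, ∃ᶠ n : ℕ in atTop, (L : ℝ) ^ n * u ∈ K i := hu1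
      push Not at hu1'
      have h3 := hu1' i
      rw [eventually_atTop] at h3
      obtain ⟨N, hN⟩ := h3
      exact Set.mem_iUnion.2 ⟨N, hN, hu2⟩
    refine (measure_mono hsub).trans ?_
    rw [hBmono.measure_iUnion]
    apply iSup_le
    intro N
    have h4 : B N ⊆ {x | x ∈ Set.Icc (a : ℝ) (a + ((L ^ N : ℕ) : ℝ) / (L : ℝ) ^ N) ∧
        (L : ℝ) ^ N * x ∈ (K i)ᶜ} := by
      rintro u ⟨hu1, hu2⟩
      have : ((L ^ N : ℕ) : ℝ) / (L : ℝ) ^ N = 1 := by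
        push_cast
        exact div_self (by positivity)
      rw [← this] at hu2
      exact ⟨hu2, hu1 N le_rfl⟩
    refine (measure_mono h4).trans ?_
    rw [volume_periodic_scale (hKm i).compl (fun x => not_congr (hKp i x)) _ _ (by positivity)]
    have : ((L ^ N : ℕ) : ℝ) / (L : ℝ) ^ N = 1 := by
      push_cast
      exact div_self (by positivity)
    rw [this, ENNReal.ofReal_one, one_mul]
  have hall : volume (⋃ a : ℤ, ({u : ℝ | ¬ ∃ i, ∃ᶠ n : ℕ in atTop, (L : ℝ) ^ n * u ∈ K i}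
      ∩ Set.Icc (a : ℝ) (a + 1))) = 0 := measure_iUnion_null hloc
  refine measure_mono_null ?_ hall
  intro u hu
  refine Set.mem_iUnion.2 ⟨⌊u⌋, hu, Int.floor_le u, (Int.lt_floor_add_one u).le⟩

end Pool.Agent.TH229.Kan
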