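import Pool.Agent.TH229.Kan.Energy

/-!
# The core theorem: the exceptional set is null
-/

set_option autoImplicit false

namespace Pool.Agent.TH229.Kan

open Complex Filter Topology MeasureTheory

/-- the weight on the sink set -/
noncomputable def hS (S : Set ℝ) : ℝ → ℝ := S.indicator fun x => Real.cos (2 * Real.pi * x) ^ 2

lemma hS_nonneg (S : Set ℝ) (x : ℝ) : 0 ≤ hS S x :=
  Set.indicator_nonneg (fun _ _ => sq_nonneg _) x

lemma hS_le (S : Set ℝ) (x : ℝ) : hS S x ≤ 1 := by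
  unfold hS
  by_cases hx : x ∈ S
  · rw [Set.indicator_of_mem hx]
    exact Real.cos_sq_le_one _
  · rw [Set.indicator_of_notMem hx]
    exact zero_le_one

lemma hS_meas {S : Set ℝ} (hS' : MeasurableSet S) : Measurable (hS S) := by
  unfold hS
  apply Measurable.indicator _ hS'
  fun_prop

lemma hS_periodic {S : Set ℝ} (hp : ∀ x, x + 1 ∈ S ↔ x ∈ S) : Function.Periodic (hS S) 1 := by
  intro x
  unfold hS
  have h1 : Real.cos (2 * Real.pi * (x + 1)) = Real.cos (2 * Real.pi * x) := by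
    rw [mul_add, mul_one, Real.cos_add_two_pi]
  by_cases hx : x ∈ S
  · rw [Set.indicator_of_mem hx, Set.indicator_of_mem ((hp x).2 hx), h1]
  · rw [Set.indicator_of_notMem hx, Set.indicator_of_notMem (fun h => hx ((hp x).1 h))]

lemma hS_int {S : Set ℝ} (hS' : MeasurableSet S) (a b : ℝ) :
    IntervalIntegrable (hS S) volume a b := by
  refine (intervalIntegrable_const (c := (1 : ℝ))).mono_fun (hS_meas hS').aestronglyMeasurable ?_
  filter_upwards with x
  rw [Real.norm_eq_abs, Real.norm_eq_abs, abs_of_nonneg (hS_nonneg S x), abs_one]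
  exact hS_le S x

lemma hS_pos {S : Set ℝ} (hS' : MeasurableSet S) (hv : volume (S ∩ Set.Ioc 0 1) ≠ 0) :
    0 < ∫ x in (0 : ℝ)..1, hS S x := by
  rw [intervalIntegral.integral_of_le zero_le_one]
  rw [integral_pos_iff_support_of_nonneg (hS_nonneg S)
    ((intervalIntegrable_iff_integrableOn_Ioc_of_le zero_le_one).1 (hS_int hS' 0 1))]
  rw [pos_iff_ne_zero]
  intro h0
  apply hv
  have hZ : volume {x : ℝ | Real.cos (2 * Real.pi * x) = 0} = 0 := by
    apply Set.Countable.measure_zero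
    have : {x : ℝ | Real.cos (2 * Real.pi * x) = 0}
        ⊆ Set.range (fun k : ℤ => (2 * (k : ℝ) + 1) / 4) := by
      intro x hx
      have hx' : Real.cos (2 * Real.pi * x) = 0 := hx
      rw [Real.cos_eq_zero_iff] at hx'
      obtain ⟨k, hk⟩ := hx'
      refine ⟨k, ?_⟩
      have := Real.pi_pos
      have h2 : Real.pi * (2 * x) = Real.pi * ((2 * k + 1) / 2) := by linarith
      have h3 := mul_left_cancel₀ this.ne' h2
      simp only
      linarith
    exact (Set.countable_range _).mono this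
  have hsub : S ∩ Set.Ioc 0 1 ⊆ (Function.support (hS S) ∩ Set.Ioc 0 1)
      ∪ {x : ℝ | Real.cos (2 * Real.pi * x) = 0} := by
    rintro x ⟨hx1, hx2⟩
    by_cases hc : Real.cos (2 * Real.pi * x) = 0
    · exact Or.inr hc
    · left
      refine ⟨?_, hx2⟩
      rw [Function.mem_support, hS, Set.indicator_of_mem hx1]
      positivity
  have hm : MeasurableSet (Function.support (hS S)) := (hS_meas hS') (measurableSet_singleton 0).compl
  rw [Measure.restrict_apply hm] at h0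
  refine le_antisymm ((measure_mono hsub).trans ((measure_union_le _ _).trans ?_)) bot_le
  rw [h0, hZ, add_zero]

lemma energy_lower {L : ℕ} (hL : 0 < L) {α z : ℂ} {Nb S : Set ℝ} (hNb : MeasurableSet Nb)
    (hSm : MeasurableSet S) (hSp : ∀ x, x + 1 ∈ S ↔ x ∈ S) {σ : ℝ} (hσ : 0 < σ)
    (hlow : ∀ n : ℕ, ∀ x ∈ Nb, (L : ℝ) ^ n * x ∈ S →
      σ ≤ ‖Phi L α z n (x : ℝ) * (1 - Phi L α z n (x : ℝ))‖)
    {u ε : ℝ} {m j : ℕ} (hε : 0 ≤ ε)
    (hN : volume (Nbᶜ ∩ Set.Icc (u - 1 / (L : ℝ) ^ m) (u + 1 / (L : ℝ) ^ m))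
      ≤ ENNReal.ofReal (ε * (1 / (L : ℝ) ^ m))) :
    σ ^ 2 * ((1 / (L : ℝ) ^ m) * ((∫ x in (0 : ℝ)..1, hS S x) - ε))
      ≤ ∫ x in (u - 1 / 2 / (L : ℝ) ^ m)..(u + 1 / 2 / (L : ℝ) ^ m),
        cr L (m + j) x ^ 2 * ‖gg L α z (m + j) x‖ ^ 2 := by
  have hL0 : (0 : ℝ) < L := by exact_mod_cast hL
  set a := u - 1 / 2 / (L : ℝ) ^ m with ha
  set b := u + 1 / 2 / (L : ℝ) ^ m with hbb
  have hab : a ≤ b := by
    have : 0 ≤ 1 / 2 / (L : ℝ) ^ m := by positivity
    rw [ha, hbb]; linarith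
  have hbeq : b = a + ((L ^ j : ℕ) : ℝ) / (L : ℝ) ^ (m + j) := by
    rw [ha, hbb, pow_add]
    push_cast
    field_simp
    ring
  -- integral of the weight
  have h1 : ∫ x in a..b, hS S ((L : ℝ) ^ (m + j) * x)
      = (1 / (L : ℝ) ^ m) * ∫ x in (0 : ℝ)..1, hS S x := by
    rw [hbeq, integral_periodic_scale (hS_periodic hSp) (hS_meas hSm) 1
      (fun x => by rw [abs_of_nonneg (hS_nonneg S x)]; exact hS_le S x) a _ (by positivity) (L ^ j)]
    congr 1
    rw [pow_add]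
    push_cast
    field_simp
  -- integral of the indicator of the complement
  have hint2 : IntervalIntegrable (Nbᶜ.indicator fun _ : ℝ => (1 : ℝ)) volume a b := by
    refine (intervalIntegrable_const (c := (1 : ℝ))).mono_fun
      (measurable_const.indicator hNb.compl).aestronglyMeasurable ?_
    filter_upwards with x
    by_cases hx : x ∈ Nbᶜ
    · rw [Set.indicator_of_mem hx]
    · rw [Set.indicator_of_notMem hx]; simp
  have h2 : ∫ x in a..b, (Nbᶜ.indicator fun _ : ℝ => (1 : ℝ)) x ≤ ε * (1 / (L : ℝ) ^ m) := by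
    rw [intervalIntegral.integral_of_le hab, integral_indicator hNb.compl, setIntegral_const,
      smul_eq_mul, mul_one, Measure.real, Measure.restrict_apply hNb.compl]
    apply ENNReal.toReal_le_of_le_ofReal (by positivity)
    refine (measure_mono ?_).trans hN
    apply Set.inter_subset_inter_right
    intro x hx
    have h3 : 1 / (L : ℝ) ^ m = 1 / 2 / (L : ℝ) ^ m + 1 / 2 / (L : ℝ) ^ m := by ring
    have h4 : 0 ≤ 1 / 2 / (L : ℝ) ^ m := by positivity
    rw [ha, hbb] at hx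
    constructor <;> linarith [hx.1, hx.2]
  have hint1 : IntervalIntegrable (fun x => hS S ((L : ℝ) ^ (m + j) * x)) volume a b := by
    refine (intervalIntegrable_const (c := (1 : ℝ))).mono_fun
      ((hS_meas hSm).comp (measurable_const_mul _)).aestronglyMeasurable ?_
    filter_upwards with x
    rw [Real.norm_eq_abs, Real.norm_eq_abs, abs_of_nonneg (hS_nonneg S _), abs_one]
    exact hS_le S _
  have hcont : Continuous fun x => cr L (m + j) x ^ 2 * ‖gg L α z (m + j) x‖ ^ 2 :=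
    ((cr_cont L (m + j)).pow 2).mul ((gg_cont L α z (m + j)).norm.pow 2)
  have h5 : ∫ x in a..b, σ ^ 2 * (hS S ((L : ℝ) ^ (m + j) * x)
      - (Nbᶜ.indicator fun _ : ℝ => (1 : ℝ)) x)
      ≤ ∫ x in a..b, cr L (m + j) x ^ 2 * ‖gg L α z (m + j) x‖ ^ 2 := by
    apply intervalIntegral.integral_mono_on hab ((hint1.sub hint2).const_mul _)
      (hcont.intervalIntegrable _ _)
    intro x _
    by_cases hx : x ∈ Nb
    · rw [Set.indicator_of_notMem (by simpa using hx), sub_zero]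
      by_cases hxS : (L : ℝ) ^ (m + j) * x ∈ S
      · rw [hS, Set.indicator_of_mem hxS]
        have h6 := hlow (m + j) x hx hxS
        have h7 : σ ^ 2 ≤ ‖gg L α z (m + j) x‖ ^ 2 := by
          apply pow_le_pow_left₀ hσ.le
          exact h6
        calc σ ^ 2 * Real.cos (2 * Real.pi * ((L : ℝ) ^ (m + j) * x)) ^ 2
            = cr L (m + j) x ^ 2 * σ ^ 2 := by rw [cr]; ring
          _ ≤ _ := mul_le_mul_of_nonneg_left h7 (sq_nonneg _)
      · rw [hS, Set.indicator_of_notMem hxS, mul_zero]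
        positivity
    · rw [Set.indicator_of_mem (by simpa using hx)]
      have h8 := hS_le S ((L : ℝ) ^ (m + j) * x)
      have h9 : σ ^ 2 * (hS S ((L : ℝ) ^ (m + j) * x) - 1) ≤ 0 :=
        mul_nonpos_of_nonneg_of_nonpos (sq_nonneg _) (by linarith)
      exact h9.trans (by positivity)
  refine le_trans (le_of_eq ?_ |>.trans (mul_le_mul_of_nonneg_left (sub_le_sub_left h2
    (∫ x in a..b, hS S ((L : ℝ) ^ (m + j) * x))) (sq_nonneg σ))) (le_trans (le_of_eq ?_) h5)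
  · rw [h1]; ring
  · rw [intervalIntegral.integral_const_mul, intervalIntegral.integral_sub hint1 hint2]

lemma exists_q {L : ℕ} (hL : 6 ≤ L) (C : ℝ) {δ : ℝ} (hδ : 0 < δ) : ∃ q, D1 L q C ≤ δ := by
  obtain ⟨T, hT⟩ : ∃ T : ℝ, 0 ≤ T ∧ 2 * Real.exp (-T) ≤ δ := by
    refine ⟨|Real.log (δ / 2)|, abs_nonneg _, ?_⟩
    have h1 : Real.exp (-|Real.log (δ / 2)|) ≤ Real.exp (Real.log (δ / 2)) := by
      rw [Real.exp_le_exp]
      exact neg_abs_le _
    rw [Real.exp_log (by positivity)] at h1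
    linarith
  have hlim : Tendsto (fun q : ℕ => Real.pi / 4 * (3 : ℝ) ^ q) atTop atTop :=
    (tendsto_pow_atTop_atTop_of_one_lt (by norm_num)).const_mul_atTop (by positivity)
  obtain ⟨q, hq⟩ := (hlim.eventually_ge_atTop (T + |3 * (C + Real.log 3)|)).exists
  refine ⟨q, le_trans ?_ hT.2⟩
  unfold D1
  apply mul_le_mul_of_nonneg_left _ (by norm_num)
  rw [Real.exp_le_exp]
  have h1 : (2 : ℝ) ^ q * 3 ^ q ≤ (L : ℝ) ^ q := by
    rw [← mul_pow]
    apply pow_le_pow_left₀ (by norm_num)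
    have : (6 : ℝ) ≤ L := by exact_mod_cast hL
    linarith
  have h2 : (1 : ℝ) ≤ 2 ^ q := one_le_pow₀ (by norm_num)
  have h3 := le_abs_self (3 * (C + Real.log 3))
  have hpi := Real.pi_pos
  have h4 : -(Real.pi / 4) * (L : ℝ) ^ q ≤ -(Real.pi / 4) * ((2 : ℝ) ^ q * 3 ^ q) := by
    nlinarith
  have h5 : T ≤ Real.pi / 4 * 3 ^ q - 3 * (C + Real.log 3) := by linarith
  have h6 : T * 1 ≤ (Real.pi / 4 * 3 ^ q - 3 * (C + Real.log 3)) * 2 ^ q :=
    mul_le_mul h5 h2 zero_le_one (by linarith [hT.1])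
  nlinarith

lemma exists_j {L : ℕ} (hL : 6 ≤ L) (q : ℕ) (C : ℝ) {δ : ℝ} (hδ : 0 < δ) :
    ∃ j1, q ≤ j1 ∧ ∀ j ≥ j1, D2 L q C / (L : ℝ) ^ j ≤ δ := by
  have hL1 : (1 : ℝ) < L := by
    have : (6 : ℝ) ≤ L := by exact_mod_cast hL
    linarith
  have hlim : Tendsto (fun j : ℕ => D2 L q C / (L : ℝ) ^ j) atTop (𝓝 0) :=
    tendsto_const_nhds.div_atTop (tendsto_pow_atTop_atTop_of_one_lt hL1)
  obtain ⟨j0, hj0⟩ := (hlim.eventually (ge_mem_nhds hδ)).exists_forall_of_atTop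
  exact ⟨max q j0, le_max_left _ _, fun j hj => hj0 j ((le_max_right _ _).trans hj)⟩

lemma density_point {L : ℕ} (hL : 6 ≤ L) {Nb : Set ℝ} (hNb : MeasurableSet Nb)
    (hv : volume Nb ≠ 0) :
    ∃ u : ℝ, ∀ ε > 0, ∃ n0 : ℕ, ∀ n ≥ n0,
      volume (Nbᶜ ∩ Set.Icc (u - 1 / (L : ℝ) ^ n) (u + 1 / (L : ℝ) ^ n))
        ≤ ENNReal.ofReal (ε * (1 / (L : ℝ) ^ n)) := by
  have hL1 : (1 : ℝ) < L := by
    have : (6 : ℝ) ≤ L := by exact_mod_cast hL
    linarith
  have hd := Besicovitch.ae_tendsto_measure_inter_div_of_measurableSet (volume : Measure ℝ)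
    hNb.compl
  obtain ⟨u, huN, hu⟩ : ∃ u ∈ Nb, Tendsto (fun r : ℝ => volume (Nbᶜ ∩ Metric.closedBall u r) /
      volume (Metric.closedBall u r)) (𝓝[>] 0) (𝓝 (Nbᶜ.indicator 1 u)) := by
    by_contra hcon
    push Not at hcon
    apply hv
    exact measure_mono_null (fun u hu => hcon u hu) hd
  rw [Set.indicator_of_notMem (by simpa using huN)] at hu
  refine ⟨u, fun ε hε => ?_⟩
  have hseq : Tendsto (fun n : ℕ => 1 / (L : ℝ) ^ n) atTop (𝓝[>] 0) := by
    rw [tendsto_nhdsWithin_iff]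
    constructor
    · exact tendsto_const_nhds.div_atTop (tendsto_pow_atTop_atTop_of_one_lt hL1)
    · filter_upwards with n
      have : (0 : ℝ) < 1 / (L : ℝ) ^ n := by positivity
      exact this
  have h1 := (hu.comp hseq).eventually (ge_mem_nhds
    (show (0 : ENNReal) < ENNReal.ofReal (ε / 2) from ENNReal.ofReal_pos.2 (by positivity)))
  obtain ⟨n0, hn0⟩ := h1.exists_forall_of_atTop
  refine ⟨n0, fun n hn => ?_⟩
  have h2 := hn0 n hn
  simp only [Function.comp_apply] at h2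
  have hr : (0 : ℝ) < 1 / (L : ℝ) ^ n := by positivity
  rw [Real.closedBall_eq_Icc, Real.volume_Icc] at h2
  have h3 : u + 1 / (L : ℝ) ^ n - (u - 1 / (L : ℝ) ^ n) = 2 * (1 / (L : ℝ) ^ n) := by ring
  rw [h3] at h2
  rw [ENNReal.div_le_iff (by
    rw [← pos_iff_ne_zero, ENNReal.ofReal_pos]; positivity) ENNReal.ofReal_ne_top] at h2
  refine h2.trans (le_of_eq ?_)
  rw [← ENNReal.ofReal_mul (by positivity)]
  congr 1
  ring

theorem core {L : ℕ} {α z : ℂ} (hL : 6 ≤ L) (hα : ‖α‖ ≤ 1) (hα0 : α ≠ 0) {Nb : Set ℝ}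
    (hNb : MeasurableSet Nb)
    {G : Set ℝ} (hGm : MeasurableSet G) (hGp : ∀ x, x + 1 ∈ G ↔ x ∈ G)
    (hG : volume (Gᶜ ∩ Set.Ioc 0 1) ≤ ENNReal.ofReal (eps0 / 4)) {R : ℝ} (hR : 0 ≤ R)
    (hbd : ∀ n : ℕ, ∀ x ∈ Nb, (L : ℝ) ^ n * x ∈ G → ‖Phi L α z n (x : ℝ)‖ ≤ R)
    {S : Set ℝ} (hSm : MeasurableSet S) (hSp : ∀ x, x + 1 ∈ S ↔ x ∈ S)
    (hSv : volume (S ∩ Set.Ioc 0 1) ≠ 0) {σ : ℝ} (hσ : 0 < σ)
    (hlow : ∀ n : ℕ, ∀ x ∈ Nb, (L : ℝ) ^ n * x ∈ S →
      σ ≤ ‖Phi L α z n (x : ℝ) * (1 - Phi L α z n (x : ℝ))‖) :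
    volume Nb = 0 := by
  by_contra hv
  have hL1 : (1 : ℝ) ≤ L := by
    have : (6 : ℝ) ≤ L := by exact_mod_cast hL
    linarith
  obtain ⟨u, hu⟩ := density_point hL hNb hv
  have he0 := eps0_pos
  obtain ⟨n0, hn0⟩ := hu (eps0 / 4) (by positivity)
  obtain ⟨n1, hn1⟩ := phase1 hL hα hGm hGp hG hR hbd hn0
  set C : ℝ := CM R + 1 with hC
  set P : ℝ := ∫ x in (0 : ℝ)..1, hS S x with hP
  have hP0 : 0 < P := hS_pos hSm hSv
  have hα' : 0 < ‖α‖ := norm_pos_iff.2 hα0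
  set κ : ℝ := ‖α‖ ^ 2 * σ ^ 2 * P / 4 with hκ
  have hκ0 : 0 < κ := by positivity
  obtain ⟨q, hq⟩ := exists_q hL C (δ := ‖α‖ * σ ^ 2 * P / 16) (by positivity)
  obtain ⟨j1, hj1q, hj1⟩ := exists_j hL q C (δ := ‖α‖ * σ ^ 2 * P / 16) (by positivity)
  obtain ⟨N, hN⟩ := exists_nat_gt (Real.exp (2 * C) / κ)
  set k : ℕ := j1 + N with hk
  set ε : ℝ := min (eps0 / 8 * (1 / (L : ℝ) ^ k)) (P / 4) with hε
  have hε0 : 0 < ε := by
    apply lt_min <;> positivity
  obtain ⟨m0, hm0⟩ := hu ε hε0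
  set m : ℕ := max n1 m0 with hm
  have hNm := hm0 m (le_max_right _ _)
  have hb := phase2 (k := k) hL hα hGm hGp hG hR hbd (hn1 m (le_max_left _ _)) (hNm.trans (by
    apply ENNReal.ofReal_le_ofReal
    have h1 : ε ≤ eps0 / 8 * (1 / (L : ℝ) ^ k) := min_le_left _ _
    calc ε * (1 / (L : ℝ) ^ m) ≤ eps0 / 8 * (1 / (L : ℝ) ^ k) * (1 / (L : ℝ) ^ m) := by gcongr
      _ = eps0 / 8 * (1 / (L : ℝ) ^ (m + k)) := by
          rw [show (L : ℝ) ^ (m + k) = (L : ℝ) ^ m * (L : ℝ) ^ k from pow_add _ _ _]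
          generalize (L : ℝ) ^ k = y
          field_simp))
  set w : ℝ := 1 / (L : ℝ) ^ m with hw
  have hw0 : 0 < w := by positivity
  set a := u - 1 / 2 / (L : ℝ) ^ m with ha
  set b := u + 1 / 2 / (L : ℝ) ^ m with hbb
  have hba : b - a = w := by rw [ha, hbb, hw]; ring
  set J : ℕ → ℝ := fun i => ∫ x in a..b, ‖Phi L α z (m + i) (x : ℝ)‖ ^ 2 with hJ
  have hstep : ∀ i, j1 ≤ i → i < k → J i + w * κ ≤ J (i + 1) := by
    intro i hi1 hi2
    have h1 := energy_step L α z (m + i) a b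
    have h2 := cross_total (q := q) (j := i) hL hα (hj1q.trans hi1) (u := u) (C := C) (m := m)
      (fun x0 hx0 x hx => hb (i - q) (by omega) x0 hx0 x hx)
    have h3 := energy_lower (by omega) hNb hSm hSp hσ hlow (u := u) (ε := ε) (m := m) (j := i)
      hε0.le hNm
    rw [← ha, ← hbb] at h2 h3
    rw [← hw] at h2 h3
    rw [← hP] at h3
    set X := ∫ x in a..b, (cr L (m + i) x : ℂ) * gg L α z (m + i) x *
      starRingEnd ℂ (Phi L α z (m + i) x) with hX
    have h4 : -(‖α‖ * ‖X‖) ≤ (α * X).re := by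
      have := Complex.abs_re_le_norm (α * X)
      rw [norm_mul] at this
      exact (abs_le.1 this).1
    have h5 : D1 L q C + D2 L q C / (L : ℝ) ^ i ≤ ‖α‖ * σ ^ 2 * P / 8 := by
      have := hj1 i hi1
      linarith
    have h6 : ‖X‖ ≤ w * (‖α‖ * σ ^ 2 * P / 8) := h2.trans (by gcongr)
    have h7 : ‖α‖ * ‖X‖ ≤ ‖α‖ * (w * (‖α‖ * σ ^ 2 * P / 8)) := by gcongr
    have h8 : ε ≤ P / 4 := min_le_right _ _
    have h9 : σ ^ 2 * (w * (P - P / 4)) ≤ σ ^ 2 * (w * (P - ε)) := by gcongr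
    have h10 : ‖α‖ ^ 2 * (σ ^ 2 * (w * (P - P / 4))) ≤
        ‖α‖ ^ 2 * ∫ x in a..b, cr L (m + i) x ^ 2 * ‖gg L α z (m + i) x‖ ^ 2 := by
      gcongr
      exact h9.trans h3
    have h11 : J (i + 1) = ∫ x in a..b, ‖Phi L α z (m + i + 1) (x : ℝ)‖ ^ 2 := by
      simp only [hJ, add_assoc]
    rw [h11, h1]
    have h12 : J i = ∫ x in a..b, ‖Phi L α z (m + i) (x : ℝ)‖ ^ 2 := rfl
    rw [← h12]
    have hpos : 0 ≤ ‖α‖ ^ 2 * σ ^ 2 * P * w := by positivity
    rw [hκ]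
    nlinarith
  have hJ0 : ∀ i, 0 ≤ J i := by
    intro i
    apply intervalIntegral.integral_nonneg
    · linarith
    · intro x _
      positivity
  have hsum : ∀ i, i ≤ N → (i : ℝ) * (w * κ) ≤ J (j1 + i) := by
    intro i
    induction i with
    | zero => intro _; simpa using hJ0 j1
    | succ i ih =>
      intro hi
      have h1 := ih (by omega)
      have h2 := hstep (j1 + i) (by omega) (by omega)
      push_cast
      rw [← add_assoc]
      linarith
  have hup : J k ≤ w * Real.exp (2 * C) := by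
    have h1 : ∀ x ∈ Set.Icc a b, ‖Phi L α z (m + k) (x : ℝ)‖ ^ 2 ≤ Real.exp (2 * C) := by
      intro x hx
      have h2 := hb k le_rfl x (by
        rw [abs_le]
        rw [ha, hbb] at hx
        constructor <;> linarith [hx.1, hx.2]) (x : ℂ) (by
        rw [sub_self, norm_zero]; positivity)
      have h3 : ‖Phi L α z (m + k) (x : ℝ)‖ ≤ Real.exp C := (norm_le_NN _).trans h2
      calc ‖Phi L α z (m + k) (x : ℝ)‖ ^ 2 ≤ Real.exp C ^ 2 :=
            pow_le_pow_left₀ (norm_nonneg _) h3 2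
        _ = Real.exp (2 * C) := by rw [← Real.exp_nat_mul]; norm_num
    have h4 : J k ≤ ∫ _ in a..b, Real.exp (2 * C) := by
      apply intervalIntegral.integral_mono_on (by linarith)
      · exact (((Phi_real_cont L α z (m + k)).norm).pow 2).intervalIntegrable _ _
      · exact intervalIntegrable_const
      · exact h1
    rw [intervalIntegral.integral_const, hba, smul_eq_mul] at h4
    exact h4
  have hfin := hsum N le_rfl
  rw [div_lt_iff₀ hκ0] at hN
  have : (N : ℝ) * (w * κ) ≤ w * Real.exp (2 * C) := hfin.trans hup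
  have h20 : w * Real.exp (2 * C) < w * (N * κ) := mul_lt_mul_of_pos_left hN hw0
  linarith

end Pool.Agent.TH229.Kan
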