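import Pool.Agent.TH229.Kan.Phase

/-!
# Decorrelation by contour shift
-/

set_option autoImplicit false

namespace Pool.Agent.TH229.Kan

open Complex Filter Topology MeasureTheory

lemma cross_abstract {A : ℂ → ℂ} (hA : Differentiable ℂ A) {a b h ω T S : ℝ} (hab : a ≤ b)
    (hh : 0 ≤ h) (hω : 0 ≤ ω)
    (hT : ∀ x ∈ Set.Icc a b, ‖A ((x : ℂ) + h * I)‖ ≤ T)
    (hS : ∀ y ∈ Set.Icc 0 h, ‖A ((a : ℂ) + y * I)‖ ≤ S ∧ ‖A ((b : ℂ) + y * I)‖ ≤ S) :
    ‖∫ x in a..b, Complex.exp (I * ω * x) * A x‖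
      ≤ (b - a) * (Real.exp (-(ω * h)) * T) + 2 * h * S := by
  set f : ℂ → ℂ := fun s => Complex.exp (I * ω * s) * A s with hf
  have hfd : Differentiable ℂ f := by
    apply Differentiable.mul _ hA
    fun_prop
  have hrect := Complex.integral_boundary_rect_eq_zero_of_differentiableOn f (a : ℂ)
    ((b : ℂ) + h * I) hfd.differentiableOn
  simp only [Complex.ofReal_re, Complex.ofReal_im, Complex.add_re, Complex.mul_re, Complex.I_re,
    Complex.I_im, Complex.add_im, Complex.mul_im, mul_zero, mul_one, zero_add, add_zero,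
    sub_self, Complex.ofReal_zero, zero_mul, smul_eq_mul] at hrect
  have hnf : ∀ s : ℂ, ‖f s‖ = Real.exp (-(ω * s.im)) * ‖A s‖ := by
    intro s
    simp only [hf, norm_mul, Complex.norm_exp]
    congr 2
    simp
  have h1 : ‖∫ x in a..b, f ((x : ℂ) + h * I)‖ ≤ (Real.exp (-(ω * h)) * T) * |b - a| := by
    apply intervalIntegral.norm_integral_le_of_norm_le_const
    intro x hx
    rw [Set.uIoc_of_le hab] at hx
    rw [hnf]
    have : ((x : ℂ) + h * I).im = h := by simp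
    rw [this]
    exact mul_le_mul_of_nonneg_left (hT x ⟨hx.1.le, hx.2⟩) (Real.exp_pos _).le
  have hside : ∀ c : ℝ, (∀ y ∈ Set.Icc 0 h, ‖A ((c : ℂ) + y * I)‖ ≤ S) →
      ‖∫ y in (0 : ℝ)..h, f ((c : ℂ) + y * I)‖ ≤ S * |h - 0| := by
    intro c hc
    apply intervalIntegral.norm_integral_le_of_norm_le_const
    intro y hy
    rw [Set.uIoc_of_le hh] at hy
    rw [hnf]
    have h2 : ((c : ℂ) + y * I).im = y := by simp
    rw [h2]
    have h3 := hc y ⟨hy.1.le, hy.2⟩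
    have h4 : Real.exp (-(ω * y)) ≤ 1 := by
      rw [Real.exp_le_one_iff]
      have := mul_nonneg hω hy.1.le
      linarith
    calc Real.exp (-(ω * y)) * ‖A ((c : ℂ) + y * I)‖ ≤ 1 * ‖A ((c : ℂ) + y * I)‖ :=
          mul_le_mul_of_nonneg_right h4 (norm_nonneg _)
      _ ≤ S := by rw [one_mul]; exact h3
  have ha := hside a fun y hy => (hS y hy).1
  have hb := hside b fun y hy => (hS y hy).2
  have heq : ∫ x in a..b, f x = (∫ x in a..b, f ((x : ℂ) + h * I))
      - I * (∫ y in (0 : ℝ)..h, f ((b : ℂ) + y * I)) + I * (∫ y in (0 : ℝ)..h, f ((a : ℂ) + y * I)) := by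
    linear_combination hrect
  change ‖∫ x in a..b, f x‖ ≤ _
  rw [heq]
  rw [sub_zero, abs_of_nonneg hh] at ha hb
  rw [abs_of_nonneg (sub_nonneg.2 hab)] at h1
  calc ‖(∫ x in a..b, f ((x : ℂ) + h * I))
      - I * (∫ y in (0 : ℝ)..h, f ((b : ℂ) + y * I)) + I * (∫ y in (0 : ℝ)..h, f ((a : ℂ) + y * I))‖
      ≤ ‖∫ x in a..b, f ((x : ℂ) + h * I)‖ + ‖I * (∫ y in (0 : ℝ)..h, f ((b : ℂ) + y * I))‖
        + ‖I * (∫ y in (0 : ℝ)..h, f ((a : ℂ) + y * I))‖ :=
        (norm_add_le _ _).trans (add_le_add_left (norm_sub_le _ _) _)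
    _ ≤ Real.exp (-(ω * h)) * T * (b - a) + S * h + S * h := by
        rw [norm_mul, norm_mul, Complex.norm_I, one_mul, one_mul]
        exact add_le_add (add_le_add h1 hb) ha
    _ = _ := by ring

/-- the orbit with conjugate parameters -/
noncomputable def PhiS (L : ℕ) (α z : ℂ) (n : ℕ) (x : ℂ) : ℂ :=
  Phi L (starRingEnd ℂ α) (starRingEnd ℂ z) n x

lemma PhiS_eq (L : ℕ) (α z : ℂ) (n : ℕ) (x : ℂ) :
    PhiS L α z n x = starRingEnd ℂ (Phi L α z n (starRingEnd ℂ x)) := by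
  rw [← Phi_conj, Complex.conj_conj]
  rfl

/-- the cross term integrand -/
noncomputable def AA (L : ℕ) (α z : ℂ) (n : ℕ) (x : ℂ) : ℂ :=
  Phi L α z n x * (1 - Phi L α z n x) * PhiS L α z n x

lemma AA_diff (L : ℕ) (α z : ℂ) (n : ℕ) : Differentiable ℂ (AA L α z n) := by
  have h1 := Phi_diff L α z n
  have h2 := Phi_diff L (starRingEnd ℂ α) (starRingEnd ℂ z) n
  exact (h1.mul ((differentiable_const 1).sub h1)).mul h2

lemma AA_bound (L : ℕ) (α z : ℂ) (n : ℕ) (x : ℂ) {E : ℝ}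
    (h1 : NN (Phi L α z n x) ≤ Real.exp E)
    (h2 : NN (Phi L α z n (starRingEnd ℂ x)) ≤ Real.exp E) :
    ‖AA L α z n x‖ ≤ 2 * Real.exp (3 * E) := by
  unfold AA
  have h3 := one_le_NN (Phi L α z n x)
  have h4 := norm_le_NN (Phi L α z n x)
  have h5 : ‖PhiS L α z n x‖ ≤ Real.exp E := by
    rw [PhiS_eq, RCLike.norm_conj]
    exact (norm_le_NN _).trans h2
  have h6 : ‖1 - Phi L α z n x‖ ≤ 2 * NN (Phi L α z n x) := by
    calc ‖1 - Phi L α z n x‖ ≤ ‖(1 : ℂ)‖ + ‖Phi L α z n x‖ := norm_sub_le _ _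
      _ ≤ 2 * NN (Phi L α z n x) := by rw [norm_one]; linarith
  rw [norm_mul, norm_mul]
  have h7 : Real.exp (3 * E) = Real.exp E * Real.exp E * Real.exp E := by
    rw [← Real.exp_add, ← Real.exp_add]; ring_nf
  rw [h7]
  calc ‖Phi L α z n x‖ * ‖1 - Phi L α z n x‖ * ‖PhiS L α z n x‖
      ≤ Real.exp E * (2 * Real.exp E) * Real.exp E := by
        gcongr
        · exact h4.trans h1
        · exact h6.trans (by linarith)
    _ = _ := by ring

/-- first error constant -/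
noncomputable def D1 (L q : ℕ) (C : ℝ) : ℝ :=
  2 * Real.exp (-(Real.pi / 4) * (L : ℝ) ^ q + 3 * 2 ^ q * (C + Real.log 3))

/-- second error constant -/
noncomputable def D2 (L q : ℕ) (C : ℝ) : ℝ :=
  2 * (L : ℝ) ^ q * Real.exp (3 * Real.pi / 4 * (L : ℝ) ^ q + 3 * 2 ^ q * (C + Real.log 3))

lemma strip_bound {L : ℕ} {α z : ℂ} (hL : 6 ≤ L) (hα : ‖α‖ ≤ 1) {u C : ℝ} {m j q : ℕ}
    (hq : q ≤ j)
    (hb : ∀ x0 : ℝ, |x0 - u| ≤ (1 / 2) / (L : ℝ) ^ m →
      ∀ x : ℂ, ‖x - x0‖ ≤ (1 / 2) / (L : ℝ) ^ (m + (j - q)) →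
      NN (Phi L α z (m + (j - q)) x) ≤ Real.exp C)
    {x : ℂ} (hx1 : |x.re - u| ≤ (1 / 2) / (L : ℝ) ^ m)
    (hx2 : |x.im| ≤ (1 / 2) * (L : ℝ) ^ q / (L : ℝ) ^ (m + j)) :
    NN (Phi L α z (m + j) x) ≤
      Real.exp (2 ^ q * (C + Real.log 3) + 2 * Real.pi / ((L : ℝ) - 2) * (L : ℝ) ^ (m + j) * |x.im|) := by
  have hL0 : (0 : ℝ) < L := by
    have : (6 : ℝ) ≤ L := by exact_mod_cast hL
    linarith
  have h1 : NN (Phi L α z (m + (j - q)) x) ≤ Real.exp C := by
    apply hb x.re hx1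
    have h2 : x - (x.re : ℂ) = (x.im : ℂ) * I := by apply Complex.ext <;> simp
    rw [h2, norm_mul, Complex.norm_I, mul_one, Complex.norm_real]
    refine hx2.trans (le_of_eq ?_)
    have h3 : (L : ℝ) ^ (m + j) = (L : ℝ) ^ (m + (j - q)) * (L : ℝ) ^ q := by
      rw [← pow_add]; congr 1; omega
    rw [h3]
    field_simp
  have h4 := growth (by omega) hα h1 q
  have h5 : m + (j - q) + q = m + j := by omega
  rw [h5] at h4
  exact h4

lemma cross_one {L : ℕ} {α z : ℂ} (hL : 6 ≤ L) (hα : ‖α‖ ≤ 1) {u C : ℝ} {m j q : ℕ}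
    (hq : q ≤ j)
    (hb : ∀ x0 : ℝ, |x0 - u| ≤ (1 / 2) / (L : ℝ) ^ m →
      ∀ x : ℂ, ‖x - x0‖ ≤ (1 / 2) / (L : ℝ) ^ (m + (j - q)) →
      NN (Phi L α z (m + (j - q)) x) ≤ Real.exp C) :
    ‖∫ x in (u - 1 / 2 / (L : ℝ) ^ m)..(u + 1 / 2 / (L : ℝ) ^ m),
        Complex.exp (I * ((2 * Real.pi * (L : ℝ) ^ (m + j) : ℝ) : ℂ) * x) * AA L α z (m + j) x‖
      ≤ (1 / (L : ℝ) ^ m) * (D1 L q C + D2 L q C / (L : ℝ) ^ j) := by
  have hL6 : (6 : ℝ) ≤ L := by exact_mod_cast hL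
  have hL0 : (0 : ℝ) < L := by linarith
  have hL2 : (0 : ℝ) < (L : ℝ) - 2 := by linarith
  have hpi := Real.pi_pos
  set h : ℝ := (1 / 2) * (L : ℝ) ^ q / (L : ℝ) ^ (m + j) with hh
  have hh0 : 0 ≤ h := by positivity
  have hτ : 2 * Real.pi / ((L : ℝ) - 2) ≤ Real.pi / 2 := by
    rw [div_le_div_iff₀ hL2 (by norm_num)]
    nlinarith
  have hab : (u - 1 / 2 / (L : ℝ) ^ m) ≤ (u + 1 / 2 / (L : ℝ) ^ m) := by
    have : 0 ≤ 1 / 2 / (L : ℝ) ^ m := by positivity
    linarith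
  have hAb : ∀ x : ℂ, |x.re - u| ≤ (1 / 2) / (L : ℝ) ^ m → |x.im| ≤ h →
      ‖AA L α z (m + j) x‖ ≤
        2 * Real.exp (3 * (2 ^ q * (C + Real.log 3) + Real.pi / 4 * (L : ℝ) ^ q)) := by
    intro x hx1 hx2
    have h1 := strip_bound hL hα hq hb hx1 hx2
    have h2 := strip_bound (x := starRingEnd ℂ x) hL hα hq hb (by simpa using hx1)
      (by rw [Complex.conj_im, abs_neg]; exact hx2)
    have h3 : 2 * Real.pi / ((L : ℝ) - 2) * (L : ℝ) ^ (m + j) * |x.im|
        ≤ Real.pi / 4 * (L : ℝ) ^ q := by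
      calc 2 * Real.pi / ((L : ℝ) - 2) * (L : ℝ) ^ (m + j) * |x.im|
          ≤ Real.pi / 2 * (L : ℝ) ^ (m + j) * h := by gcongr
        _ = Real.pi / 4 * (L : ℝ) ^ q := by rw [hh]; field_simp; ring
    apply AA_bound
    · refine h1.trans ?_
      rw [Real.exp_le_exp]
      linarith
    · refine h2.trans ?_
      rw [Real.exp_le_exp]
      have : |(starRingEnd ℂ x).im| = |x.im| := by simp
      rw [this]
      linarith
  have hmain := cross_abstract (AA_diff L α z (m + j)) hab hh0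
    (ω := 2 * Real.pi * (L : ℝ) ^ (m + j)) (by positivity)
    (T := 2 * Real.exp (3 * (2 ^ q * (C + Real.log 3) + Real.pi / 4 * (L : ℝ) ^ q)))
    (S := 2 * Real.exp (3 * (2 ^ q * (C + Real.log 3) + Real.pi / 4 * (L : ℝ) ^ q)))
    (by
      intro x hx
      apply hAb
      · simp only [Complex.add_re, Complex.ofReal_re, Complex.mul_re, Complex.I_re, mul_zero,
          Complex.ofReal_im, Complex.I_im, mul_one, sub_self, add_zero]
        rw [abs_le]
        constructor <;> linarith [hx.1, hx.2]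
      · simp [abs_of_nonneg hh0])
    (by
      intro y hy
      have hw : 0 ≤ 1 / 2 / (L : ℝ) ^ m := by positivity
      constructor
      · apply hAb
        · simp only [Complex.add_re, Complex.ofReal_re, Complex.mul_re, Complex.I_re, mul_zero,
            Complex.ofReal_im, Complex.I_im, mul_one, sub_self, add_zero]
          rw [abs_le]
          constructor <;> linarith
        · simp only [Complex.add_im, Complex.ofReal_im, Complex.mul_im, Complex.ofReal_re,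
            Complex.I_im, mul_one, Complex.I_re, mul_zero, add_zero, zero_add]
          rw [abs_of_nonneg hy.1]
          exact hy.2
      · apply hAb
        · simp only [Complex.add_re, Complex.ofReal_re, Complex.mul_re, Complex.I_re, mul_zero,
            Complex.ofReal_im, Complex.I_im, mul_one, sub_self, add_zero]
          rw [abs_le]
          constructor <;> linarith
        · simp only [Complex.add_im, Complex.ofReal_im, Complex.mul_im, Complex.ofReal_re,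
            Complex.I_im, mul_one, Complex.I_re, mul_zero, add_zero, zero_add]
          rw [abs_of_nonneg hy.1]
          exact hy.2)
  refine hmain.trans (le_of_eq ?_)
  have e1 : Real.exp (-(2 * Real.pi * (L : ℝ) ^ (m + j) * h)) *
      (2 * Real.exp (3 * (2 ^ q * (C + Real.log 3) + Real.pi / 4 * (L : ℝ) ^ q))) = D1 L q C := by
    unfold D1
    rw [mul_left_comm, ← Real.exp_add]
    congr 2
    have : (L : ℝ) ^ (m + j) * h = (L : ℝ) ^ q / 2 := by rw [hh]; field_simp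
    have h2 : 2 * Real.pi * (L : ℝ) ^ (m + j) * h = 2 * Real.pi * ((L : ℝ) ^ q / 2) := by
      rw [← this]; ring
    rw [h2]
    ring
  rw [e1]
  have e2 : 2 * h * (2 * Real.exp (3 * (2 ^ q * (C + Real.log 3) + Real.pi / 4 * (L : ℝ) ^ q)))
      = (1 / (L : ℝ) ^ m) * (D2 L q C / (L : ℝ) ^ j) := by
    unfold D2
    have : 3 * (2 ^ q * (C + Real.log 3) + Real.pi / 4 * (L : ℝ) ^ q)
        = 3 * Real.pi / 4 * (L : ℝ) ^ q + 3 * 2 ^ q * (C + Real.log 3) := by ring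
    rw [this, hh, pow_add]
    field_simp
  rw [e2]
  ring

end Pool.Agent.TH229.Kan
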