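import Mathlib

/-!
# The complex Kan skew product: fibre orbits at complex times, growth
-/

set_option autoImplicit false

namespace Pool.Agent.TH229.Kan

open Complex Filter Topology MeasureTheory

/-- `cos (2 π x)` -/
noncomputable def cc (x : ℂ) : ℂ := Complex.cos (2 * Real.pi * x)

/-- the fibre orbit of `z` over the (complex) base point `x` -/
noncomputable def Phi (L : ℕ) (α z : ℂ) : ℕ → ℂ → ℂ
  | 0, _ => z
  | n + 1, x => Phi L α z n x +
      α * cc ((L : ℂ) ^ n * x) * Phi L α z n x * (1 - Phi L α z n x)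

variable (L : ℕ) (α z : ℂ)

lemma Phi_zero (x : ℂ) : Phi L α z 0 x = z := rfl

lemma Phi_succ (n : ℕ) (x : ℂ) : Phi L α z (n + 1) x = Phi L α z n x +
      α * cc ((L : ℂ) ^ n * x) * Phi L α z n x * (1 - Phi L α z n x) := rfl

lemma cc_diff : Differentiable ℂ cc := by
  unfold cc
  fun_prop

lemma Phi_diff (n : ℕ) : Differentiable ℂ (Phi L α z n) := by
  induction n with
  | zero => exact differentiable_const z
  | succ n ih =>
    have h1 : Differentiable ℂ fun x : ℂ => cc ((L : ℂ) ^ n * x) :=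
      cc_diff.comp (differentiable_id.const_mul _)
    have : Phi L α z (n + 1) = fun x => Phi L α z n x +
      α * cc ((L : ℂ) ^ n * x) * Phi L α z n x * (1 - Phi L α z n x) := rfl
    rw [this]
    exact ih.add (((h1.const_mul α).mul ih).mul ((differentiable_const 1).sub ih))

lemma Phi_add (n k : ℕ) (x : ℂ) :
    Phi L α z (n + k) x = Phi L α (Phi L α z n x) k ((L : ℂ) ^ n * x) := by
  induction k with
  | zero => rfl
  | succ k ih =>
    rw [← add_assoc, Phi_succ, Phi_succ, ih, ← mul_assoc, ← pow_add, add_comm k n]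

lemma cc_conj (x : ℂ) : cc (starRingEnd ℂ x) = starRingEnd ℂ (cc x) := by
  unfold cc
  rw [← Complex.cos_conj]
  simp only [map_mul, Complex.conj_ofReal, map_ofNat]

lemma Phi_conj (n : ℕ) (x : ℂ) :
    Phi L (starRingEnd ℂ α) (starRingEnd ℂ z) n (starRingEnd ℂ x)
      = starRingEnd ℂ (Phi L α z n x) := by
  induction n with
  | zero => rfl
  | succ n ih =>
    rw [Phi_succ, Phi_succ, ih]
    have h1 : (L : ℂ) ^ n * starRingEnd ℂ x = starRingEnd ℂ ((L : ℂ) ^ n * x) := by simp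
    rw [h1, cc_conj]
    simp

lemma cc_add_int (x : ℂ) (k : ℤ) : cc (x + k) = cc x := by
  unfold cc
  rw [mul_add]
  have := Complex.cos_add_int_mul_two_pi (2 * Real.pi * x) k
  rw [← this]
  congr 1
  ring

lemma Phi_add_int (n : ℕ) (x : ℂ) (k : ℤ) : Phi L α z n (x + k) = Phi L α z n x := by
  induction n with
  | zero => rfl
  | succ n ih =>
    rw [Phi_succ, Phi_succ, ih]
    have : (L : ℂ) ^ n * (x + k) = (L : ℂ) ^ n * x + ((L ^ n * k : ℤ) : ℂ) := by
      push_cast; ring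
    rw [this, cc_add_int]

lemma cc_norm_le (x : ℂ) : ‖cc x‖ ≤ Real.exp (2 * Real.pi * |x.im|) := by
  unfold cc
  rw [Complex.cos]
  have h1 : ‖Complex.exp (2 * Real.pi * x * I)‖ ≤ Real.exp (2 * Real.pi * |x.im|) := by
    rw [Complex.norm_exp, Real.exp_le_exp]
    have : (2 * Real.pi * x * I : ℂ).re = -(2 * Real.pi * x.im) := by simp
    rw [this]
    nlinarith [neg_abs_le x.im, Real.pi_pos]
  have h2 : ‖Complex.exp (-(2 * Real.pi * x) * I)‖ ≤ Real.exp (2 * Real.pi * |x.im|) := by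
    rw [Complex.norm_exp, Real.exp_le_exp]
    have : (-(2 * Real.pi * x) * I : ℂ).re = (2 * Real.pi * x.im) := by simp
    rw [this]
    nlinarith [le_abs_self x.im, Real.pi_pos]
  calc ‖(Complex.exp (2 * Real.pi * x * I) + Complex.exp (-(2 * Real.pi * x) * I)) / 2‖
      = ‖Complex.exp (2 * Real.pi * x * I) + Complex.exp (-(2 * Real.pi * x) * I)‖ / 2 := by
        rw [norm_div]; norm_num
    _ ≤ (Real.exp (2 * Real.pi * |x.im|) + Real.exp (2 * Real.pi * |x.im|)) / 2 := by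
        gcongr
        exact (norm_add_le _ _).trans (add_le_add h1 h2)
    _ = _ := by ring

lemma cc_real (x : ℝ) : cc x = ((Real.cos (2 * Real.pi * x) : ℝ) : ℂ) := by
  unfold cc
  push_cast
  rfl

/-- `max 1 ‖w‖` -/
noncomputable def NN (w : ℂ) : ℝ := max 1 ‖w‖

lemma one_le_NN (w : ℂ) : 1 ≤ NN w := le_max_left _ _

lemma norm_le_NN (w : ℂ) : ‖w‖ ≤ NN w := le_max_right _ _

lemma NN_le {w : ℂ} {C : ℝ} (h1 : 1 ≤ C) (h2 : ‖w‖ ≤ C) : NN w ≤ C := max_le h1 h2

lemma NN_conj (w : ℂ) : NN (starRingEnd ℂ w) = NN w := by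
  unfold NN
  rw [RCLike.norm_conj]

variable {L α z}

lemma growth_one (hα : ‖α‖ ≤ 1) {w c : ℂ} {C : ℝ} (hC : 1 ≤ C) (hc : ‖c‖ ≤ C) :
    NN (w + α * c * w * (1 - w)) ≤ 3 * C * NN w ^ 2 := by
  have h1 := one_le_NN w
  have h2 := norm_le_NN w
  apply NN_le
  · nlinarith [mul_le_mul hC h1 zero_le_one (by linarith), sq_nonneg (NN w - 1)]
  · have h3 : ‖1 - w‖ ≤ 2 * NN w := by
      calc ‖1 - w‖ ≤ ‖(1 : ℂ)‖ + ‖w‖ := norm_sub_le _ _
        _ ≤ 2 * NN w := by rw [norm_one]; linarith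
    calc ‖w + α * c * w * (1 - w)‖ ≤ ‖w‖ + ‖α * c * w * (1 - w)‖ := norm_add_le _ _
      _ = ‖w‖ + ‖α‖ * ‖c‖ * ‖w‖ * ‖1 - w‖ := by simp only [norm_mul]
      _ ≤ NN w + 1 * C * NN w * (2 * NN w) := by gcongr
      _ ≤ 3 * C * NN w ^ 2 := by nlinarith [mul_le_mul hC h1 zero_le_one (by linarith)]

lemma growth_step (hα : ‖α‖ ≤ 1) {n : ℕ} {x : ℂ} {M : ℝ}
    (h : NN (Phi L α z n x) ≤ Real.exp M) :
    NN (Phi L α z (n + 1) x) ≤
      Real.exp (2 * M + Real.log 3 + 2 * Real.pi * (L : ℝ) ^ n * |x.im|) := by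
  rw [Phi_succ]
  have hc : ‖cc ((L : ℂ) ^ n * x)‖ ≤ Real.exp (2 * Real.pi * (L : ℝ) ^ n * |x.im|) := by
    refine (cc_norm_le _).trans (le_of_eq ?_)
    have : ((L : ℂ) ^ n * x).im = (L : ℝ) ^ n * x.im := by
      rw [show ((L : ℂ) ^ n) = (((L : ℝ) ^ n : ℝ) : ℂ) by push_cast; rfl, Complex.im_ofReal_mul]
    rw [this, abs_mul, abs_of_nonneg (by positivity : (0 : ℝ) ≤ (L : ℝ) ^ n)]
    ring_nf
  refine (growth_one hα (Real.one_le_exp (by positivity)) hc).trans ?_
  have h0 := one_le_NN (Phi L α z n x)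
  calc 3 * Real.exp (2 * Real.pi * (L : ℝ) ^ n * |x.im|) * NN (Phi L α z n x) ^ 2
      ≤ 3 * Real.exp (2 * Real.pi * (L : ℝ) ^ n * |x.im|) * Real.exp M ^ 2 := by gcongr
    _ = Real.exp (2 * M + Real.log 3 + 2 * Real.pi * (L : ℝ) ^ n * |x.im|) := by
        rw [Real.exp_add, Real.exp_add, Real.exp_log (by norm_num)]
        have : Real.exp (2 * M) = Real.exp M ^ 2 := by
          rw [← Real.exp_nat_mul]; norm_num
        rw [this]
        ring

lemma growth (hL : 2 < L) (hα : ‖α‖ ≤ 1) {n : ℕ} {x : ℂ} {M : ℝ}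
    (h : NN (Phi L α z n x) ≤ Real.exp M) (q : ℕ) :
    NN (Phi L α z (n + q) x) ≤
      Real.exp (2 ^ q * (M + Real.log 3) +
        2 * Real.pi / ((L : ℝ) - 2) * (L : ℝ) ^ (n + q) * |x.im|) := by
  have hL' : (0 : ℝ) < (L : ℝ) - 2 := by
    have : (2 : ℝ) < L := by exact_mod_cast hL
    linarith
  have key : NN (Phi L α z (n + q) x) ≤
      Real.exp (2 ^ q * (M + Real.log 3) - Real.log 3 +
        2 * Real.pi / ((L : ℝ) - 2) * ((L : ℝ) ^ (n + q) - (L : ℝ) ^ n * 2 ^ q) * |x.im|) := by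
    induction q with
    | zero =>
      simp only [add_zero, pow_zero, mul_one, sub_self, mul_zero, zero_mul, one_mul,
        add_sub_cancel_right]
      exact h
    | succ q ih =>
      rw [← add_assoc]
      refine (growth_step hα ih).trans (le_of_eq ?_)
      congr 1
      have h3 : 2 * Real.pi = 2 * Real.pi / ((L : ℝ) - 2) * ((L : ℝ) - 2) := by
        field_simp
      generalize 2 * Real.pi / ((L : ℝ) - 2) = τ at *
      rw [h3]
      ring
  refine key.trans ?_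
  rw [Real.exp_le_exp]
  have h1 : 0 ≤ Real.log 3 := Real.log_nonneg (by norm_num)
  have h2 : 0 ≤ 2 * Real.pi / ((L : ℝ) - 2) * ((L : ℝ) ^ n * 2 ^ q) * |x.im| := by positivity
  nlinarith

end Pool.Agent.TH229.Kan
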