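import Pool.Agent.TH229.Kan.Cross

/-!
# The energy identity
-/

set_option autoImplicit false

namespace Pool.Agent.TH229.Kan

open Complex Filter Topology MeasureTheory

/-- real cosine at time `n` -/
noncomputable def cr (L n : ℕ) (x : ℝ) : ℝ := Real.cos (2 * Real.pi * ((L : ℝ) ^ n * x))

lemma cr_cont (L n : ℕ) : Continuous (cr L n) := by
  unfold cr
  fun_prop

lemma cc_cr (L n : ℕ) (x : ℝ) : cc ((L : ℂ) ^ n * x) = (cr L n x : ℂ) := by
  have : (L : ℂ) ^ n * x = (((L : ℝ) ^ n * x : ℝ) : ℂ) := by push_cast; rfl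
  rw [this, cc_real, cr]

/-- `g = p (1 - p)` -/
noncomputable def gg (L : ℕ) (α z : ℂ) (n : ℕ) (x : ℝ) : ℂ :=
  Phi L α z n x * (1 - Phi L α z n x)

lemma Phi_real_cont (L : ℕ) (α z : ℂ) (n : ℕ) : Continuous fun x : ℝ => Phi L α z n x :=
  (Phi_diff L α z n).continuous.comp Complex.continuous_ofReal

lemma gg_cont (L : ℕ) (α z : ℂ) (n : ℕ) : Continuous (gg L α z n) := by
  have := Phi_real_cont L α z n
  unfold gg
  fun_prop

lemma Phi_succ_real (L : ℕ) (α z : ℂ) (n : ℕ) (x : ℝ) :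
    Phi L α z (n + 1) x = Phi L α z n x + α * cr L n x * gg L α z n x := by
  rw [Phi_succ, cc_cr, gg]
  ring

lemma normsq_step (p g α : ℂ) (c : ℝ) :
    ‖p + α * c * g‖ ^ 2 = ‖p‖ ^ 2 + 2 * (α * ((c : ℂ) * g * starRingEnd ℂ p)).re
      + ‖α‖ ^ 2 * (c ^ 2 * ‖g‖ ^ 2) := by
  rw [Complex.sq_norm, Complex.sq_norm, Complex.sq_norm, Complex.sq_norm]
  rw [Complex.normSq_add]
  have h1 : normSq (α * c * g) = normSq α * (c ^ 2 * normSq g) := by
    rw [Complex.normSq_mul, Complex.normSq_mul, Complex.normSq_ofReal]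
    ring
  rw [h1]
  have h2 : (p * starRingEnd ℂ (α * c * g)).re = (α * ((c : ℂ) * g * starRingEnd ℂ p)).re := by
    have : starRingEnd ℂ (p * starRingEnd ℂ (α * c * g)) = α * ((c : ℂ) * g * starRingEnd ℂ p) := by
      simp only [map_mul, Complex.conj_conj]
      ring
    rw [← this, Complex.conj_re]
  rw [h2]
  ring

lemma energy_step (L : ℕ) (α z : ℂ) (n : ℕ) (a b : ℝ) :
    ∫ x in a..b, ‖Phi L α z (n + 1) (x : ℝ)‖ ^ 2 =
      (∫ x in a..b, ‖Phi L α z n (x : ℝ)‖ ^ 2)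
      + 2 * (α * ∫ x in a..b, (cr L n x : ℂ) * gg L α z n x * starRingEnd ℂ (Phi L α z n x)).re
      + ‖α‖ ^ 2 * ∫ x in a..b, cr L n x ^ 2 * ‖gg L α z n x‖ ^ 2 := by
  have hc := cr_cont L n
  have hg := gg_cont L α z n
  have hp := Phi_real_cont L α z n
  have hci : Continuous fun x : ℝ => (cr L n x : ℂ) := Complex.continuous_ofReal.comp hc
  have hpc : Continuous fun x : ℝ => starRingEnd ℂ (Phi L α z n x) :=
    Complex.continuous_conj.comp hp
  have hF : Continuous fun x : ℝ => (cr L n x : ℂ) * gg L α z n x * starRingEnd ℂ (Phi L α z n x) :=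
    (hci.mul hg).mul hpc
  have hαF : Continuous fun x : ℝ =>
      α * ((cr L n x : ℂ) * gg L α z n x * starRingEnd ℂ (Phi L α z n x)) :=
    continuous_const.mul hF
  have h1 : ∀ x : ℝ, ‖Phi L α z (n + 1) (x : ℝ)‖ ^ 2 = ‖Phi L α z n (x : ℝ)‖ ^ 2
      + 2 * (α * ((cr L n x : ℂ) * gg L α z n x * starRingEnd ℂ (Phi L α z n x))).re
      + ‖α‖ ^ 2 * (cr L n x ^ 2 * ‖gg L α z n x‖ ^ 2) := by
    intro x
    rw [Phi_succ_real, normsq_step]
  simp_rw [h1]
  have i1 : IntervalIntegrable (fun x : ℝ => ‖Phi L α z n (x : ℝ)‖ ^ 2) volume a b :=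
    ((hp.norm).pow 2).intervalIntegrable _ _
  have i2 : IntervalIntegrable (fun x : ℝ =>
      2 * (α * ((cr L n x : ℂ) * gg L α z n x * starRingEnd ℂ (Phi L α z n x))).re) volume a b :=
    (continuous_const.mul (Complex.continuous_re.comp hαF)).intervalIntegrable _ _
  have i3 : IntervalIntegrable (fun x : ℝ => ‖α‖ ^ 2 * (cr L n x ^ 2 * ‖gg L α z n x‖ ^ 2))
      volume a b :=
    (continuous_const.mul ((hc.pow 2).mul (hg.norm.pow 2))).intervalIntegrable _ _
  rw [intervalIntegral.integral_add (i1.add i2) i3, intervalIntegral.integral_add i1 i2,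
    intervalIntegral.integral_const_mul, intervalIntegral.integral_const_mul]
  congr 3
  have h2 := Complex.reCLM.intervalIntegral_comp_comm (hαF.intervalIntegrable (μ := volume) a b)
  simp only [Complex.reCLM_apply] at h2
  rw [h2, intervalIntegral.integral_const_mul]

lemma exp_split (L n : ℕ) (x : ℝ) :
    (cr L n x : ℂ) = (Complex.exp (I * ((2 * Real.pi * (L : ℝ) ^ n : ℝ) : ℂ) * x)
      + starRingEnd ℂ (Complex.exp (I * ((2 * Real.pi * (L : ℝ) ^ n : ℝ) : ℂ) * x))) / 2 := by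
  rw [← Complex.exp_conj]
  unfold cr
  rw [Complex.ofReal_cos, Complex.cos]
  have h1 : ((2 * Real.pi * ((L : ℝ) ^ n * x) : ℝ) : ℂ) * I
      = I * ((2 * Real.pi * (L : ℝ) ^ n : ℝ) : ℂ) * x := by
    push_cast
    ring
  have h2 : -((2 * Real.pi * ((L : ℝ) ^ n * x) : ℝ) : ℂ) * I
      = starRingEnd ℂ (I * ((2 * Real.pi * (L : ℝ) ^ n : ℝ) : ℂ) * x) := by
    simp only [map_mul, Complex.conj_I, Complex.conj_ofReal]
    push_cast
    ring
  rw [h1, h2]

lemma cross_total {L : ℕ} {α z : ℂ} (hL : 6 ≤ L) (hα : ‖α‖ ≤ 1) {u C : ℝ} {m j q : ℕ}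
    (hq : q ≤ j)
    (hb : ∀ x0 : ℝ, |x0 - u| ≤ (1 / 2) / (L : ℝ) ^ m →
      ∀ x : ℂ, ‖x - x0‖ ≤ (1 / 2) / (L : ℝ) ^ (m + (j - q)) →
      NN (Phi L α z (m + (j - q)) x) ≤ Real.exp C) :
    ‖∫ x in (u - 1 / 2 / (L : ℝ) ^ m)..(u + 1 / 2 / (L : ℝ) ^ m),
        (cr L (m + j) x : ℂ) * gg L α z (m + j) x * starRingEnd ℂ (Phi L α z (m + j) x)‖
      ≤ (1 / (L : ℝ) ^ m) * (D1 L q C + D2 L q C / (L : ℝ) ^ j) := by
  set n := m + j with hn
  set a := u - 1 / 2 / (L : ℝ) ^ m with ha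
  set b := u + 1 / 2 / (L : ℝ) ^ m with hbb
  have h1 := cross_one hL hα hq hb
  have h2 := cross_one (α := starRingEnd ℂ α) (z := starRingEnd ℂ z) hL
    (by rwa [RCLike.norm_conj]) hq (u := u) (C := C) (m := m) (by
      intro x0 hx0 x hx
      have h3 := hb x0 hx0 (starRingEnd ℂ x) (by
        have : starRingEnd ℂ x - x0 = starRingEnd ℂ (x - x0) := by simp
        rw [this, RCLike.norm_conj]
        exact hx)
      have h4 := Phi_conj L α z (m + (j - q)) (starRingEnd ℂ x)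
      rw [Complex.conj_conj] at h4
      rw [h4, NN_conj]
      exact h3)
  rw [← hn] at h1 h2
  rw [← ha, ← hbb] at h1 h2
  set e : ℝ → ℂ := fun x => Complex.exp (I * ((2 * Real.pi * (L : ℝ) ^ n : ℝ) : ℂ) * x) with he
  have hec : Continuous e := by
    simp only [he]
    fun_prop
  have hA1c : Continuous fun x : ℝ => AA L α z n x :=
    (AA_diff L α z n).continuous.comp Complex.continuous_ofReal
  have hA2c : Continuous fun x : ℝ => AA L (starRingEnd ℂ α) (starRingEnd ℂ z) n x :=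
    (AA_diff L _ _ n).continuous.comp Complex.continuous_ofReal
  have hA1 : ∀ x : ℝ, AA L α z n x = gg L α z n x * starRingEnd ℂ (Phi L α z n x) := by
    intro x
    rw [AA, PhiS_eq, Complex.conj_ofReal, gg]
  have hA2 : ∀ x : ℝ, AA L (starRingEnd ℂ α) (starRingEnd ℂ z) n x
      = starRingEnd ℂ (gg L α z n x * starRingEnd ℂ (Phi L α z n x)) := by
    intro x
    have h3 : Phi L (starRingEnd ℂ α) (starRingEnd ℂ z) n (x : ℂ)
        = starRingEnd ℂ (Phi L α z n (x : ℂ)) := by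
      have := Phi_conj L α z n (x : ℂ)
      rwa [Complex.conj_ofReal] at this
    rw [AA, PhiS, h3]
    simp only [Complex.conj_conj, map_mul, gg, map_sub, map_one]
  have heq : ∀ x : ℝ, (cr L n x : ℂ) * gg L α z n x * starRingEnd ℂ (Phi L α z n x)
      = (1 / 2 : ℂ) * (e x * AA L α z n x)
        + (1 / 2 : ℂ) * starRingEnd ℂ (e x * AA L (starRingEnd ℂ α) (starRingEnd ℂ z) n x) := by
    intro x
    rw [exp_split, hA1, hA2]
    simp only [map_mul, Complex.conj_conj, he]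
    ring
  simp_rw [heq]
  have i1 : IntervalIntegrable (fun x : ℝ => (1 / 2 : ℂ) * (e x * AA L α z n x)) volume a b :=
    (continuous_const.mul (hec.mul hA1c)).intervalIntegrable _ _
  have i2 : IntervalIntegrable (fun x : ℝ => (1 / 2 : ℂ) *
      starRingEnd ℂ (e x * AA L (starRingEnd ℂ α) (starRingEnd ℂ z) n x)) volume a b :=
    (continuous_const.mul (Complex.continuous_conj.comp (hec.mul hA2c))).intervalIntegrable _ _
  rw [intervalIntegral.integral_add i1 i2, intervalIntegral.integral_const_mul,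
    intervalIntegral.integral_const_mul]
  have h5 : ∫ x in a..b, starRingEnd ℂ (e x * AA L (starRingEnd ℂ α) (starRingEnd ℂ z) n x)
      = starRingEnd ℂ (∫ x in a..b, e x * AA L (starRingEnd ℂ α) (starRingEnd ℂ z) n x) := by
    rw [intervalIntegral.intervalIntegral_eq_integral_uIoc,
      intervalIntegral.intervalIntegral_eq_integral_uIoc, integral_conj]
    split_ifs <;> simp
  rw [h5]
  calc ‖(1 / 2 : ℂ) * (∫ x in a..b, e x * AA L α z n x) + (1 / 2 : ℂ) *
        starRingEnd ℂ (∫ x in a..b, e x * AA L (starRingEnd ℂ α) (starRingEnd ℂ z) n x)‖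
      ≤ ‖(1 / 2 : ℂ) * (∫ x in a..b, e x * AA L α z n x)‖ + ‖(1 / 2 : ℂ) *
        starRingEnd ℂ (∫ x in a..b, e x * AA L (starRingEnd ℂ α) (starRingEnd ℂ z) n x)‖ :=
        norm_add_le _ _
    _ = (1 / 2) * ‖∫ x in a..b, e x * AA L α z n x‖ + (1 / 2) *
        ‖∫ x in a..b, e x * AA L (starRingEnd ℂ α) (starRingEnd ℂ z) n x‖ := by
        rw [norm_mul, norm_mul, RCLike.norm_conj]
        norm_num
    _ ≤ (1 / 2) * ((1 / (L : ℝ) ^ m) * (D1 L q C + D2 L q C / (L : ℝ) ^ j)) +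
        (1 / 2) * ((1 / (L : ℝ) ^ m) * (D1 L q C + D2 L q C / (L : ℝ) ^ j)) := by
        gcongr
    _ = _ := by ring

end Pool.Agent.TH229.Kan
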