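import Pool.Agent.TH229.Kan.Traps
import Pool.Agent.H165R3.BPE

/-!
# Full measure of the good sets
-/

set_option autoImplicit false

namespace Pool.Agent.TH229.Kan

open Complex Filter Topology MeasureTheory

lemma GE_closed (L : ℕ) (M : ℝ) : IsClosed (GE L M) := by
  have : GE L M = ⋂ k : ℕ, {v | 1 / (M * 2 ^ k) ≤ |cr L k v|} := by
    ext v; simp [GE]
  rw [this]
  exact isClosed_iInter fun k => isClosed_le continuous_const (cr_cont L k).abs

lemma GE_periodic (L : ℕ) (M : ℝ) (x : ℝ) : x + 1 ∈ GE L M ↔ x ∈ GE L M := by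
  unfold GE
  constructor
  · intro h k
    have := h k
    rwa [cr_periodic] at this
  · intro h k
    have := h k
    rwa [← cr_periodic] at this

lemma cos_meas {t : ℝ} (ht : 0 < t) :
    volume ({x : ℝ | |Real.cos (2 * Real.pi * x)| < t} ∩ Set.Ioc 0 1) ≤ ENNReal.ofReal t := by
  have hpi := Real.pi_pos
  have key : ∀ d : ℝ, |d| ≤ 1 / 4 → 4 * |d| ≤ |Real.sin (2 * Real.pi * d)| := by
    intro d hd
    have h1 : Real.sin (2 * Real.pi * |d|) ≤ |Real.sin (2 * Real.pi * d)| := by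
      rcases abs_cases d with ⟨h, _⟩ | ⟨h, _⟩
      · rw [h]; exact le_abs_self _
      · rw [h, mul_neg, Real.sin_neg]; exact neg_le_abs _
    have h2 := Real.mul_le_sin (x := 2 * Real.pi * |d|) (by positivity) (by nlinarith)
    have h3 : 2 / Real.pi * (2 * Real.pi * |d|) = 4 * |d| := by field_simp; ring
    linarith
  have hsub : ({x : ℝ | |Real.cos (2 * Real.pi * x)| < t} ∩ Set.Ioc 0 1)
      ⊆ Metric.ball (1 / 4 : ℝ) (t / 4) ∪ Metric.ball (3 / 4 : ℝ) (t / 4) := by
    rintro x ⟨hx1, hx2, hx3⟩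
    have hx1' : |Real.cos (2 * Real.pi * x)| < t := hx1
    rcases le_or_gt x (1 / 2) with h | h
    · left
      rw [Metric.mem_ball, Real.dist_eq]
      have h1 : Real.cos (2 * Real.pi * x) = -Real.sin (2 * Real.pi * (x - 1 / 4)) := by
        rw [← Real.cos_add_pi_div_two]; congr 1; ring
      rw [h1, abs_neg] at hx1'
      have := key (x - 1 / 4) (by rw [abs_le]; constructor <;> linarith)
      linarith
    · right
      rw [Metric.mem_ball, Real.dist_eq]
      have h1 : Real.cos (2 * Real.pi * x) = Real.sin (2 * Real.pi * (x - 3 / 4)) := by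
        rw [← Real.cos_sub_pi_div_two]
        rw [← Real.cos_sub_two_pi (2 * Real.pi * x)]
        rw [← Real.cos_neg]
        have : -(2 * Real.pi * x - 2 * Real.pi) = 2 * Real.pi - 2 * Real.pi * x := by ring
        rw [← Real.cos_neg (2 * Real.pi * (x - 3 / 4) - Real.pi / 2)]
        congr 1
        ring
      rw [h1] at hx1'
      have := key (x - 3 / 4) (by rw [abs_le]; constructor <;> linarith)
      linarith
  refine (measure_mono hsub).trans ((measure_union_le _ _).trans ?_)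
  rw [Real.volume_ball, Real.volume_ball, ← ENNReal.ofReal_add (by positivity) (by positivity)]
  apply ENNReal.ofReal_le_ofReal
  linarith

lemma GE_compl {L : ℕ} (hL : 0 < L) {M : ℝ} (hM : 0 < M) :
    volume ((GE L M)ᶜ ∩ Set.Ioc 0 1) ≤ ENNReal.ofReal (2 / M) := by
  have hL0 : (0 : ℝ) < L := by exact_mod_cast hL
  have hsub : (GE L M)ᶜ ∩ Set.Ioc 0 1 ⊆ ⋃ k : ℕ, {x | x ∈ Set.Icc (0 : ℝ) (0 + ((L ^ k : ℕ) : ℝ) /
      (L : ℝ) ^ k) ∧ (L : ℝ) ^ k * x ∈ {y : ℝ | |Real.cos (2 * Real.pi * y)| < 1 / (M * 2 ^ k)}} := by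
    rintro x ⟨hx1, hx2⟩
    have : ∃ k : ℕ, |cr L k x| < 1 / (M * 2 ^ k) := by
      by_contra hcon
      push Not at hcon
      exact hx1 hcon
    obtain ⟨k, hk⟩ := this
    rw [Set.mem_iUnion]
    refine ⟨k, ⟨hx2.1.le, ?_⟩, hk⟩
    have : ((L ^ k : ℕ) : ℝ) / (L : ℝ) ^ k = 1 := by
      push_cast
      exact div_self (by positivity)
    rw [this, zero_add]
    exact hx2.2
  refine (measure_mono hsub).trans ((measure_iUnion_le _).trans ?_)
  have hk : ∀ k : ℕ, volume {x | x ∈ Set.Icc (0 : ℝ) (0 + ((L ^ k : ℕ) : ℝ) /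
      (L : ℝ) ^ k) ∧ (L : ℝ) ^ k * x ∈ {y : ℝ | |Real.cos (2 * Real.pi * y)| < 1 / (M * 2 ^ k)}}
      ≤ ENNReal.ofReal (1 / M * (1 / 2) ^ k) := by
    intro k
    have hm : MeasurableSet {y : ℝ | |Real.cos (2 * Real.pi * y)| < 1 / (M * 2 ^ k)} := by
      apply IsOpen.measurableSet
      apply isOpen_lt _ continuous_const
      fun_prop
    rw [volume_periodic_scale hm (fun y => by
      change |Real.cos (2 * Real.pi * (y + 1))| < _ ↔ |Real.cos (2 * Real.pi * y)| < _
      rw [mul_add, mul_one, Real.cos_add_two_pi]) 0 _ (by positivity) (L ^ k)]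
    have : ((L ^ k : ℕ) : ℝ) / (L : ℝ) ^ k = 1 := by
      push_cast
      exact div_self (by positivity)
    rw [this, ENNReal.ofReal_one, one_mul]
    refine (cos_meas (by positivity)).trans (le_of_eq ?_)
    congr 1
    rw [one_div_pow]
    field_simp
  refine (ENNReal.tsum_le_tsum hk).trans ?_
  rw [← ENNReal.ofReal_tsum_of_nonneg (fun k => by positivity)
    ((summable_geometric_of_lt_one (by norm_num) (by norm_num)).mul_left _)]
  apply ENNReal.ofReal_le_ofReal
  rw [tsum_mul_left, tsum_geometric_of_lt_one (by norm_num) (by norm_num)]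
  apply le_of_eq
  field_simp
  norm_num

lemma GS_closed (L : ℕ) (α : ℂ) (θ C : ℝ) : IsClosed (GS L α θ C) := by
  have hc : ∀ (β : ℂ) (n : ℕ), Continuous (Pr L β n) := by
    intro β n
    unfold Pr
    refine continuous_finsetProd _ fun k _ => ?_
    exact (continuous_const.add (continuous_const.mul
      (Complex.continuous_ofReal.comp (cr_cont L k)))).norm
  have : GS L α θ C = ⋂ n : ℕ, ({v | Pr L α n v ≤ C * θ ^ n} ∩ {v | Pr L (-α) n v ≤ C * θ ^ n}) := by
    ext v; simp [GS]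
  rw [this]
  exact isClosed_iInter fun n => (isClosed_le (hc α n) continuous_const).inter
    (isClosed_le (hc (-α) n) continuous_const)

lemma GS_periodic (L : ℕ) (α : ℂ) (θ C : ℝ) (x : ℝ) : x + 1 ∈ GS L α θ C ↔ x ∈ GS L α θ C := by
  have h : ∀ (β : ℂ) (n : ℕ), Pr L β n (x + 1) = Pr L β n x := by
    intro β n
    unfold Pr
    simp_rw [cr_periodic]
  unfold GS
  change (∀ n : ℕ, Pr L α n (x + 1) ≤ C * θ ^ n ∧ Pr L (-α) n (x + 1) ≤ C * θ ^ n) ↔
    (∀ n : ℕ, Pr L α n x ≤ C * θ ^ n ∧ Pr L (-α) n x ≤ C * θ ^ n)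
  simp_rw [h]

lemma ae_real_of_circle {P : UnitAddCircle → Prop} (h : ∀ᵐ y, P y) :
    ∀ᵐ x : ℝ, P (x : UnitAddCircle) := by
  have h1 : ∀ n : ℤ, ∀ᵐ x : ℝ ∂(volume.restrict (Set.Ioc (n : ℝ) (n + 1))), P (x : UnitAddCircle) :=
    fun n => (UnitAddCircle.measurePreserving_mk (n : ℝ)).quasiMeasurePreserving.ae h
  have h2 := (ae_restrict_iUnion_iff (μ := (volume : Measure ℝ))
    (fun n : ℤ => Set.Ioc (n : ℝ) (n + 1)) (fun x : ℝ => P (x : UnitAddCircle))).2 h1
  rw [iUnion_Ioc_intCast, Measure.restrict_univ] at h2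
  exact h2

/-- the log multiplier on the circle -/
noncomputable def lf (α : ℂ) (y : UnitAddCircle) : ℝ :=
  Real.log ‖1 + α * (((fourier 1 y : ℂ).re : ℝ) : ℂ)‖

lemma lf_coe (α : ℂ) (x : ℝ) :
    lf α (x : UnitAddCircle) = Real.log ‖1 + α * ((Real.cos (2 * Real.pi * x) : ℝ) : ℂ)‖ := by
  unfold lf
  rw [fourier_coe_apply]
  congr 4
  have : (2 * Real.pi * Complex.I * (1 : ℤ) * x / (1 : ℝ) : ℂ)
      = ((2 * Real.pi * x : ℝ) : ℂ) * Complex.I := by
    push_cast; ring
  rw [this, Complex.exp_ofReal_mul_I_re]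

lemma mult_lower {α : ℂ} (c : ℝ) (hc : |c| ≤ 1) : 1 - ‖α‖ ≤ ‖1 + α * (c : ℂ)‖ := by
  have h1 : ‖α * (c : ℂ)‖ ≤ ‖α‖ := by
    rw [norm_mul, Complex.norm_real, Real.norm_eq_abs]
    nlinarith [norm_nonneg α, abs_nonneg c]
  have := norm_sub_norm_le (1 : ℂ) (-(α * (c : ℂ)))
  rw [norm_neg, norm_one, sub_neg_eq_add] at this
  linarith

lemma mult_upper {α : ℂ} (hα : ‖α‖ ≤ 1) (c : ℝ) (hc : |c| ≤ 1) : ‖1 + α * (c : ℂ)‖ ≤ 2 := by
  have h1 : ‖α * (c : ℂ)‖ ≤ ‖α‖ := by
    rw [norm_mul, Complex.norm_real, Real.norm_eq_abs]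
    nlinarith [norm_nonneg α, abs_nonneg c]
  have := norm_add_le (1 : ℂ) (α * (c : ℂ))
  rw [norm_one] at this
  linarith

lemma fre_le (y : UnitAddCircle) : |((fourier 1 y : ℂ).re : ℝ)| ≤ 1 := by
  refine (Complex.abs_re_le_norm _).trans ?_
  rw [fourier_apply, Circle.norm_coe]

lemma lf_meas {α : ℂ} : Measurable (lf α) := by
  unfold lf
  apply Real.measurable_log.comp
  apply Measurable.norm
  apply Measurable.add measurable_const
  apply Measurable.const_mul
  apply Complex.measurable_ofReal.comp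
  apply Complex.measurable_re.comp
  exact (ContinuousMap.continuous (fourier 1)).measurable

lemma lf_bound {α : ℂ} (hα : ‖α‖ < 1) : ∃ C : ℝ, ∀ y, |lf α y| ≤ C := by
  refine ⟨max (Real.log 2) (-Real.log (1 - ‖α‖)), fun y => ?_⟩
  have h1 := mult_lower (α := α) _ (fre_le y)
  have h2 := mult_upper hα.le _ (fre_le y)
  have h3 : 0 < 1 - ‖α‖ := by linarith
  unfold lf
  rw [abs_le]
  constructor
  · have := Real.log_le_log h3 h1
    have h4 := le_max_right (Real.log 2) (-Real.log (1 - ‖α‖))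
    linarith
  · exact (Real.log_le_log (h3.trans_le h1) h2).trans (le_max_left _ _)

lemma iter_coe {L : ℕ} (k : ℕ) (x : ℝ) :
    (fun y : UnitAddCircle => L • y)^[k] (x : UnitAddCircle) = (((L : ℝ) ^ k * x : ℝ) : UnitAddCircle) := by
  induction k with
  | zero => simp
  | succ k ih =>
    rw [Function.iterate_succ_apply', ih]
    rw [← AddCircle.coe_nsmul, nsmul_eq_mul]
    congr 1
    ring

/-- Almost every product of multipliers decays. -/
lemma ae_prod {L : ℕ} (hL : 1 < L) {α : ℂ} (hα : ‖α‖ < 1) {κ : ℝ}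
    (hκ : ∫ u in (0 : ℝ)..1, Real.log ‖1 + α * ((Real.cos (2 * Real.pi * u) : ℝ) : ℂ)‖ < κ) :
    ∀ᵐ v : ℝ, ∃ C : ℝ, 0 < C ∧ ∀ n : ℕ, Pr L α n v ≤ C * Real.exp κ ^ n := by
  obtain ⟨B, hB⟩ := lf_bound hα
  have : IsProbabilityMeasure (volume : Measure UnitAddCircle) := ⟨UnitAddCircle.measure_univ⟩
  have hT := AddCircle.ergodic_nsmul (T := 1) hL
  set lam := ∫ u in (0 : ℝ)..1, Real.log ‖1 + α * ((Real.cos (2 * Real.pi * u) : ℝ) : ℂ)‖ with hlam
  have hint : ∫ y : UnitAddCircle, lf α y = lam := by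
    rw [← UnitAddCircle.intervalIntegral_preimage 0, zero_add, hlam]
    simp_rw [lf_coe]
  have hif : Integrable (lf α) (volume : Measure UnitAddCircle) := by
    refine Integrable.mono' (integrable_const B) lf_meas.aestronglyMeasurable ?_
    filter_upwards with y
    exact hB y
  have hlamB : |lam| ≤ B := by
    rw [← hint]
    have := norm_integral_le_of_norm_le_const (μ := (volume : Measure UnitAddCircle)) (f := lf α)
      (C := B) (Filter.Eventually.of_forall hB)
    simpa using this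
  have hup := H165R3.BPE.upper hT.toMeasurePreserving (lf α) lf_meas B hB (fun _ => lam)
    measurable_const (fun _ => rfl) (fun _ => hlamB) (by
      intro A hA hAT
      have h0 := hT.toPreErgodic.aeconst_set hA hAT
      rw [eventuallyConst_set'] at h0
      rcases h0 with h | h
      · rw [setIntegral_congr_set h, setIntegral_congr_set h]
        simp
      · rw [setIntegral_congr_set h, setIntegral_congr_set h]
        simp [hint]) (κ - lam) (by linarith)
  have h1 := ae_real_of_circle hup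
  filter_upwards [h1] with v hv
  obtain ⟨n0, hn0⟩ := eventually_atTop.1 hv
  have hpos : 0 < Real.exp κ := Real.exp_pos κ
  have hPr : ∀ n : ℕ, Pr L α n v = Real.exp (∑ k ∈ Finset.range n,
      lf α ((fun y : UnitAddCircle => L • y)^[k] (v : UnitAddCircle))) := by
    intro n
    rw [Real.exp_sum]
    unfold Pr
    apply Finset.prod_congr rfl
    intro k _
    rw [iter_coe, lf_coe, Real.exp_log]
    · rfl
    · have := mult_lower (α := α) (Real.cos (2 * Real.pi * ((L : ℝ) ^ k * v))) (Real.abs_cos_le_one _)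
      linarith
  set C0 : ℝ := ∑ n ∈ Finset.range (n0 + 1), Pr L α n v / Real.exp κ ^ n with hC0
  have hC0n : 0 ≤ C0 := Finset.sum_nonneg fun n _ => div_nonneg (Pr_nonneg _ _ _ _) (by positivity)
  refine ⟨C0 + 1, by linarith, fun n => ?_⟩
  by_cases hn : n ≤ n0
  · have h3 : Pr L α n v / Real.exp κ ^ n ≤ C0 :=
      Finset.single_le_sum (f := fun n => Pr L α n v / Real.exp κ ^ n)
        (fun i _ => div_nonneg (Pr_nonneg _ _ _ _) (by positivity)) (Finset.mem_range.2 (by omega))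
    rw [div_le_iff₀ (by positivity)] at h3
    refine h3.trans ?_
    have : (0 : ℝ) < Real.exp κ ^ n := by positivity
    nlinarith
  · push Not at hn
    have h3 := hn0 n hn.le
    have hn' : (0 : ℝ) < n := by
      have : 0 < n := by omega
      exact_mod_cast this
    rw [inv_mul_le_iff₀ hn'] at h3
    rw [hPr n]
    have h4 : Real.exp (∑ k ∈ Finset.range n,
      lf α ((fun y : UnitAddCircle => L • y)^[k] (v : UnitAddCircle))) ≤ Real.exp κ ^ n := by
      rw [← Real.exp_nat_mul, Real.exp_le_exp]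
      refine h3.trans (le_of_eq ?_)
      ring
    refine h4.trans ?_
    have : (0 : ℝ) < Real.exp κ ^ n := by positivity
    nlinarith

end Pool.Agent.TH229.Kan
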