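import Pool.Agent.TH229.Kan.Absorb

/-!
# Local uniform convergence at absorbed points
-/

set_option autoImplicit false

namespace Pool.Agent.TH229.Kan

open Complex Filter Topology MeasureTheory

/-- good base points -/
def KK (L : ℕ) (α : ℂ) (θ : ℝ) (i : ℕ) : Set ℝ := GE L ((i : ℝ) + 1) ∩ GS L α θ ((i : ℝ) + 1)

lemma ae_GE {L : ℕ} (hL : 0 < L) : ∀ᵐ v : ℝ, ∃ i : ℕ, v ∈ GE L ((i : ℝ) + 1) := by
  set B : Set ℝ := {v | ∀ i : ℕ, v ∉ GE L ((i : ℝ) + 1)} with hB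
  have hBm : MeasurableSet B := by
    have : B = ⋂ i : ℕ, (GE L ((i : ℝ) + 1))ᶜ := by ext v; simp [hB]
    rw [this]
    exact MeasurableSet.iInter fun i => (GE_closed _ _).measurableSet.compl
  have hBp : ∀ x, x + 1 ∈ B ↔ x ∈ B := fun x => forall_congr' fun i => not_congr (GE_periodic _ _ x)
  have h0 : volume (B ∩ Set.Ioc 0 1) = 0 := by
    apply le_antisymm _ bot_le
    have hlim : Tendsto (fun i : ℕ => ENNReal.ofReal (2 / ((i : ℝ) + 1))) atTop (𝓝 0) := by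
      rw [← ENNReal.ofReal_zero]
      apply ENNReal.tendsto_ofReal
      exact tendsto_const_nhds.div_atTop
        (tendsto_atTop_add_const_right _ _ tendsto_natCast_atTop_atTop)
    refine ge_of_tendsto' hlim fun i => ?_
    refine (measure_mono ?_).trans (GE_compl (L := L) hL (M := (i : ℝ) + 1) (by positivity))
    exact Set.inter_subset_inter_left _ fun v hv => hv i
  have hloc : ∀ a : ℤ, volume (B ∩ Set.Icc (a : ℝ) (a + 1)) = 0 := by
    intro a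
    have h1 := volume_periodic_scale hBm hBp (a : ℝ) 1 one_pos 1
    rw [h0, mul_zero] at h1
    refine measure_mono_null ?_ h1
    rintro x ⟨hx1, hx2⟩
    refine ⟨by simpa using hx2, by simpa using hx1⟩
  refine measure_mono_null ?_ (measure_iUnion_null hloc)
  intro u hu
  have hu' : ¬ ∃ i : ℕ, u ∈ GE L ((i : ℝ) + 1) := hu
  push Not at hu'
  refine Set.mem_iUnion.2 ⟨⌊u⌋, hu', Int.floor_le u, (Int.lt_floor_add_one u).le⟩

lemma ae_KK {L : ℕ} (hL : 0 < L) {α : ℂ} {θ : ℝ} (hθ0 : 0 < θ)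
    (h : ∀ᵐ v : ℝ, ∃ i : ℕ, v ∈ GS L α θ ((i : ℝ) + 1)) :
    ∀ᵐ u : ℝ, ∃ i, ∃ᶠ n : ℕ in atTop, (L : ℝ) ^ n * u ∈ KK L α θ i := by
  apply ae_frequently hL
  · intro i
    exact (GE_closed _ _).measurableSet.inter (GS_closed _ _ _ _).measurableSet
  · intro i x
    exact and_congr (GE_periodic _ _ x) (GS_periodic _ _ _ _ x)
  · intro i j hij
    have : (i : ℝ) + 1 ≤ (j : ℝ) + 1 := by
      have : (i : ℝ) ≤ j := by exact_mod_cast hij
      linarith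
    exact Set.inter_subset_inter (GE_mono (by positivity) this) (GS_mono hθ0 this)
  · filter_upwards [h, ae_GE hL] with v ⟨i, hi⟩ ⟨j, hj⟩
    refine ⟨max i j, GE_mono (by positivity) ?_ hj, GS_mono hθ0 ?_ hi⟩
    · push_cast
      have : (j : ℝ) ≤ max (i : ℝ) j := le_max_right _ _
      linarith
    · push_cast
      have : (i : ℝ) ≤ max (i : ℝ) j := le_max_left _ _
      linarith

/-- trapped points at a good time -/
def Trapped (L : ℕ) (α : ℂ) (θ : ℝ) (i n : ℕ) (u : ℝ) (z : ℂ) : Prop :=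
  ‖Phi L α z n u‖ < rS α θ ((i : ℝ) + 1) ∨ ‖1 - Phi L α z n u‖ < rS α θ ((i : ℝ) + 1) ∨
    RE α ((i : ℝ) + 1) < ‖Phi L α z n u‖

lemma trapped_of_absorbed {L : ℕ} {α z : ℂ} (hα : ‖α‖ < 1) {θ : ℝ} (hθ : θ < 1) {i : ℕ}
    {u : ℝ} (h : Absorbed L α z u) : ∀ᶠ n in atTop, Trapped L α θ i n u z := by
  have hr : 0 < rS α θ ((i : ℝ) + 1) := rS_pos hα hθ (by positivity)
  rcases h with h | h | h
  · have h1 := (tendsto_zero_iff_norm_tendsto_zero.1 h).eventually (gt_mem_nhds hr)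
    filter_upwards [h1] with n hn
    exact Or.inl hn
  · have h1 := (tendsto_iff_norm_sub_tendsto_zero.1 h).eventually (gt_mem_nhds hr)
    filter_upwards [h1] with n hn
    right; left
    rwa [norm_sub_rev]
  · filter_upwards [h.eventually_gt_atTop (RE α ((i : ℝ) + 1))] with n hn
    exact Or.inr (Or.inr hn)

lemma absorbed_of_trapped {L : ℕ} {α z : ℂ} (hα0 : 0 < ‖α‖) (hα : ‖α‖ < 1) {θ : ℝ} (hθ0 : 0 < θ)
    (hθ : θ < 1) {i n : ℕ} {u : ℝ} (hu : (L : ℝ) ^ n * u ∈ KK L α θ i)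
    (h : Trapped L α θ i n u z) : Absorbed L α z u := by
  apply Absorbed_shift n
  have hC : (0 : ℝ) < (i : ℝ) + 1 := by positivity
  rcases h with h | h | h
  · exact absorbed_of_zero hα hθ0 hθ hC hu.2 h.le
  · exact absorbed_of_one hα hθ0 hθ hC hu.2 h.le
  · exact absorbed_of_escape hα0 hC hu.1 h.le

/-- chordal distance on the plane -/
noncomputable def dd (a b : ℂ) : ℝ :=
  2 * ‖a - b‖ / (Real.sqrt (1 + ‖a‖ ^ 2) * Real.sqrt (1 + ‖b‖ ^ 2))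

lemma one_le_sq (a : ℂ) : 1 ≤ Real.sqrt (1 + ‖a‖ ^ 2) := by
  rw [Real.one_le_sqrt]
  nlinarith [sq_nonneg ‖a‖]

lemma norm_le_sq (a : ℂ) : ‖a‖ ≤ Real.sqrt (1 + ‖a‖ ^ 2) := by
  apply Real.le_sqrt_of_sq_le
  linarith

lemma dd_le (a b : ℂ) : dd a b ≤ 2 * ‖a - b‖ := by
  unfold dd
  have h1 := one_le_sq a
  have h2 := one_le_sq b
  rw [div_le_iff₀ (by positivity)]
  have h3 : 1 ≤ Real.sqrt (1 + ‖a‖ ^ 2) * Real.sqrt (1 + ‖b‖ ^ 2) := by nlinarith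
  nlinarith [norm_nonneg (a - b)]

lemma dd_le_inv {a b : ℂ} {R : ℝ} (hR : 0 < R) (ha : R ≤ ‖a‖) (hb : R ≤ ‖b‖) :
    dd a b ≤ 4 / R := by
  unfold dd
  have h1 := one_le_sq a
  have h2 := one_le_sq b
  have h3 := norm_le_sq a
  have h4 := norm_le_sq b
  rw [div_le_div_iff₀ (by positivity) hR]
  set A := Real.sqrt (1 + ‖a‖ ^ 2)
  set B := Real.sqrt (1 + ‖b‖ ^ 2)
  have h5 : ‖a - b‖ ≤ ‖a‖ + ‖b‖ := norm_sub_le a b
  have h6 : ‖a‖ * R ≤ A * B := mul_le_mul h3 (hb.trans h4) hR.le (by linarith)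
  have h7 : ‖b‖ * R ≤ A * B := by
    rw [mul_comm A B]
    exact mul_le_mul h4 (ha.trans h3) hR.le (by linarith)
  nlinarith

lemma Phi_cont_z (L : ℕ) (α : ℂ) (n : ℕ) (u : ℝ) : Continuous fun w : ℂ => Phi L α w n u :=
  (Phi_joint_cont L α n).comp (by fun_prop : Continuous fun w : ℂ => ((w, u) : ℂ × ℝ))

/-- uniform Cauchy property near an absorbed point -/
lemma local_cauchy {L : ℕ} {α z : ℂ} (hα0 : 0 < ‖α‖) (hα : ‖α‖ < 1) {θ : ℝ} (hθ0 : 0 < θ)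
    (hθ : θ < 1) {i : ℕ} {u : ℝ} (hu : ∃ᶠ n : ℕ in atTop, (L : ℝ) ^ n * u ∈ KK L α θ i)
    (h : Absorbed L α z u) :
    ∃ U : Set ℂ, IsOpen U ∧ z ∈ U ∧ ∀ ε : ℝ, 0 < ε → ∃ N, ∀ m ≥ N, ∀ n ≥ N, ∀ w ∈ U,
      dd (Phi L α w m u) (Phi L α w n u) < ε := by
  have hC : (0 : ℝ) < (i : ℝ) + 1 := by positivity
  obtain ⟨n, hn1, hn2⟩ := (hu.and_eventually (trapped_of_absorbed (i := i) hα hθ h)).exists
  have hgeo : ∀ D : ℝ, Tendsto (fun k : ℕ => D * θ ^ k) atTop (𝓝 0) := by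
    intro D
    have := (tendsto_pow_atTop_nhds_zero_of_lt_one hθ0.le hθ).const_mul D
    rwa [mul_zero] at this
  rcases hn2 with h1 | h1 | h1
  · refine ⟨{w | ‖Phi L α w n u‖ < rS α θ ((i : ℝ) + 1)},
      isOpen_lt (Phi_cont_z L α n u).norm continuous_const, h1, fun ε hε => ?_⟩
    have hr := rS_pos hα hθ hC
    set D := 2 * ((i : ℝ) + 1) * rS α θ ((i : ℝ) + 1) with hD
    obtain ⟨k0, hk0⟩ := ((hgeo (4 * D)).eventually (gt_mem_nhds hε)).exists_forall_of_atTop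
    have hb : ∀ m ≥ n + k0, ∀ w, ‖Phi L α w n u‖ < rS α θ ((i : ℝ) + 1) →
        ‖Phi L α w m u‖ < ε / 4 := by
      intro m hm w hw
      obtain ⟨k, rfl⟩ := Nat.exists_eq_add_of_le (show n ≤ m by omega)
      rw [Phi_add_real]
      have h2 := attract_zero hα hθ0 hθ hC hn1.2 hw.le k
      have h3 := hk0 k (by omega)
      calc _ ≤ 2 * ((i : ℝ) + 1) * θ ^ k * ‖Phi L α w n u‖ := h2
        _ ≤ 2 * ((i : ℝ) + 1) * θ ^ k * rS α θ ((i : ℝ) + 1) := by gcongr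
        _ = D * θ ^ k := by rw [hD]; ring
        _ < ε / 4 := by linarith
    refine ⟨n + k0, fun m hm m' hm' w hw => ?_⟩
    have h4 := hb m hm w hw
    have h5 := hb m' hm' w hw
    have h6 := norm_sub_le (Phi L α w m u) (Phi L α w m' u)
    linarith [dd_le (Phi L α w m u) (Phi L α w m' u)]
  · refine ⟨{w | ‖1 - Phi L α w n u‖ < rS α θ ((i : ℝ) + 1)},
      isOpen_lt (continuous_const.sub (Phi_cont_z L α n u)).norm continuous_const, h1,
      fun ε hε => ?_⟩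
    have hr := rS_pos hα hθ hC
    set D := 2 * ((i : ℝ) + 1) * rS α θ ((i : ℝ) + 1) with hD
    obtain ⟨k0, hk0⟩ := ((hgeo (4 * D)).eventually (gt_mem_nhds hε)).exists_forall_of_atTop
    have hb : ∀ m ≥ n + k0, ∀ w, ‖1 - Phi L α w n u‖ < rS α θ ((i : ℝ) + 1) →
        ‖1 - Phi L α w m u‖ < ε / 4 := by
      intro m hm w hw
      obtain ⟨k, rfl⟩ := Nat.exists_eq_add_of_le (show n ≤ m by omega)
      rw [Phi_add_real]
      have h2 := attract_one hα hθ0 hθ hC hn1.2 hw.le k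
      have h3 := hk0 k (by omega)
      calc _ ≤ 2 * ((i : ℝ) + 1) * θ ^ k * ‖1 - Phi L α w n u‖ := h2
        _ ≤ 2 * ((i : ℝ) + 1) * θ ^ k * rS α θ ((i : ℝ) + 1) := by gcongr
        _ = D * θ ^ k := by rw [hD]; ring
        _ < ε / 4 := by linarith
    refine ⟨n + k0, fun m hm m' hm' w hw => ?_⟩
    have h4 := hb m hm w hw
    have h5 := hb m' hm' w hw
    have h6 := norm_sub_le (1 - Phi L α w m' u) (1 - Phi L α w m u)
    have h7 : (1 - Phi L α w m' u) - (1 - Phi L α w m u) = Phi L α w m u - Phi L α w m' u := by ring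
    rw [h7] at h6
    linarith [dd_le (Phi L α w m u) (Phi L α w m' u)]
  · refine ⟨{w | RE α ((i : ℝ) + 1) < ‖Phi L α w n u‖},
      isOpen_lt continuous_const (Phi_cont_z L α n u).norm, h1, fun ε hε => ?_⟩
    have hR := RE_pos hα0 hC
    have hlim : Tendsto (fun k : ℕ => (2 : ℝ) ^ k) atTop atTop :=
      tendsto_pow_atTop_atTop_of_one_lt (by norm_num)
    obtain ⟨k0, hk0⟩ := (hlim.eventually_gt_atTop (4 / ε)).exists_forall_of_atTop
    have hb : ∀ m ≥ n + k0, ∀ w, RE α ((i : ℝ) + 1) < ‖Phi L α w n u‖ →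
        2 ^ k0 ≤ ‖Phi L α w m u‖ := by
      intro m hm w hw
      obtain ⟨k, rfl⟩ := Nat.exists_eq_add_of_le (show n ≤ m by omega)
      rw [Phi_add_real]
      have h2 := escape hα0 hC hn1.1 hw.le k
      have h3 : (2 : ℝ) ^ k0 ≤ 2 ^ k := pow_le_pow_right₀ (by norm_num) (by omega)
      have h4 : (0 : ℝ) < 2 ^ k := by positivity
      nlinarith
    refine ⟨n + k0, fun m hm m' hm' w hw => ?_⟩
    have h4 := dd_le_inv (by positivity : (0 : ℝ) < 2 ^ k0) (hb m hm w hw) (hb m' hm' w hw)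
    refine h4.trans_lt ?_
    have h5 := hk0 k0 le_rfl
    rw [div_lt_iff₀ hε] at h5
    rw [div_lt_iff₀ (by positivity)]
    linarith

lemma foldl_eq (L : ℕ) (α w : ℂ) (n : ℕ) (u : ℝ) :
    (List.range n).foldl (fun x j => x + α *
      ((Real.cos (2 * Real.pi * (L : ℝ) ^ j * u) : ℝ) : ℂ) * x * (1 - x)) w = Phi L α w n u := by
  induction n with
  | zero => rfl
  | succ n ih =>
    rw [List.range_succ, List.foldl_append, ih]
    simp only [List.foldl_cons, List.foldl_nil]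
    rw [Phi_succ, cc_cr, cr]
    ring_nf

/-- The random Julia sets have zero area. -/
theorem julia_null {L : ℕ} (hL : 6 ≤ L) {α : ℂ} (hα0 : 0 < ‖α‖) (hα : ‖α‖ < 1)
    (h0 : ∫ u in (0 : ℝ)..1, Real.log ‖1 + α * ((Real.cos (2 * Real.pi * u) : ℝ) : ℂ)‖ < 0)
    (h1 : ∫ u in (0 : ℝ)..1, Real.log ‖1 - α * ((Real.cos (2 * Real.pi * u) : ℝ) : ℂ)‖ < 0) :
    ∀ᵐ u : ℝ ∂(MeasureTheory.volume : MeasureTheory.Measure ℝ),
      ∀ f : ℕ → ℂ → ℂ,
        (∀ n : ℕ, ∀ w : ℂ, f n w = (List.range n).foldl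
            (fun x j => x + α * ((Real.cos (2 * Real.pi * (L : ℝ) ^ j * u) : ℝ) : ℂ) * x * (1 - x)) w) →
      ∀ d : ℂ → ℂ → ℝ,
        (∀ a b : ℂ, d a b = 2 * ‖a - b‖ / (Real.sqrt (1 + ‖a‖ ^ 2) * Real.sqrt (1 + ‖b‖ ^ 2))) →
        MeasureTheory.volume {z : ℂ | ¬ ∃ U : Set ℂ, IsOpen U ∧ z ∈ U ∧
          ∀ φ : ℕ → ℕ, StrictMono φ → ∃ ψ : ℕ → ℕ, StrictMono ψ ∧
            ∀ K : Set ℂ, K ⊆ U → IsCompact K → ∀ ε : ℝ, 0 < ε →
              ∃ N : ℕ, ∀ m ≥ N, ∀ n ≥ N, ∀ w ∈ K,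
                d (f (φ (ψ m)) w) (f (φ (ψ n)) w) < ε} = 0 := by
  obtain ⟨θ, hθ0, hθ, hGS⟩ := ae_GS (L := L) (by omega) hα h0 h1
  have hio := ae_KK (L := L) (by omega) hθ0 hGS
  have hfub : ∀ᵐ u : ℝ, volume {z : ℂ | ¬ Absorbed L α z u} = 0 := by
    have hm : MeasurableSet {p : ℂ × ℝ | ¬ Absorbed L α p.1 p.2} := (Absorbed_measurable L α).compl
    have h2 : (volume.prod volume : Measure (ℂ × ℝ)) {p : ℂ × ℝ | ¬ Absorbed L α p.1 p.2} = 0 := by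
      rw [Measure.measure_prod_null hm]
      filter_upwards with z
      exact ae_absorbed hL hα0 hα h0 h1 z
    rw [Measure.prod_apply_symm hm, lintegral_eq_zero_iff (measurable_measure_prodMk_right hm)] at h2
    exact h2
  filter_upwards [hio, hfub] with u ⟨i, hi⟩ hu2
  intro f hf d hd
  refine measure_mono_null ?_ hu2
  intro z hz habs
  apply hz
  obtain ⟨U, hU1, hU2, hU3⟩ := local_cauchy hα0 hα hθ0 hθ hi habs
  refine ⟨U, hU1, hU2, fun φ hφ => ⟨id, strictMono_id, fun K hK _ ε hε => ?_⟩⟩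
  obtain ⟨N, hN⟩ := hU3 ε hε
  refine ⟨N, fun m hm n hn w hw => ?_⟩
  have h3 := hN (φ m) (hm.trans (hφ.id_le m)) (φ n) (hn.trans (hφ.id_le n)) w (hK hw)
  rw [hf, hf, foldl_eq, foldl_eq, hd]
  exact h3

end Pool.Agent.TH229.Kan
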