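import Pool.Agent.TH229.Kan.Step

/-!
# Uniform complex bounds
-/

set_option autoImplicit false

namespace Pool.Agent.TH229.Kan

open Complex Filter Topology MeasureTheory

/-- limit constant -/
noncomputable def CM (R : ℝ) : ℝ := bb R / 0.08

lemma CM_pos {R : ℝ} (hR : 0 ≤ R) : 0 < CM R := div_pos (bb_pos hR) (by norm_num)

lemma phase1 {L : ℕ} {α z : ℂ} (hL : 6 ≤ L) (hα : ‖α‖ ≤ 1) {Nb G : Set ℝ}
    (hGm : MeasurableSet G) (hGp : ∀ x, x + 1 ∈ G ↔ x ∈ G)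
    (hG : volume (Gᶜ ∩ Set.Ioc 0 1) ≤ ENNReal.ofReal (eps0 / 4)) {R : ℝ} (hR : 0 ≤ R)
    (hbd : ∀ n : ℕ, ∀ x ∈ Nb, (L : ℝ) ^ n * x ∈ G → ‖Phi L α z n (x : ℝ)‖ ≤ R)
    {x0 : ℝ} {n0 : ℕ}
    (hN : ∀ n ≥ n0, volume (Nbᶜ ∩ Set.Icc (x0 - 1 / (L : ℝ) ^ n) (x0 + 1 / (L : ℝ) ^ n))
      ≤ ENNReal.ofReal (eps0 / 4 * (1 / (L : ℝ) ^ n))) :
    ∃ n1, ∀ n ≥ n1, ∀ x : ℂ, ‖x - x0‖ ≤ 1 / (L : ℝ) ^ n →
      NN (Phi L α z n x) ≤ Real.exp (CM R + 1) := by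
  have hCM := CM_pos hR
  -- initial bound
  obtain ⟨M0, hM0, hinit⟩ : ∃ M0 : ℝ, 0 ≤ M0 ∧ ∀ x : ℂ, ‖x - x0‖ ≤ 1 / (L : ℝ) ^ n0 →
      NN (Phi L α z n0 x) ≤ Real.exp (CM R + M0) := by
    set M1 := 2 ^ n0 * (Real.log (NN z) + Real.log 3) +
        2 * Real.pi / ((L : ℝ) - 2) * (L : ℝ) ^ (0 + n0) * (1 / (L : ℝ) ^ n0) with hM1
    refine ⟨|M1|, abs_nonneg _, fun x hx => ?_⟩
    have h0 : NN (Phi L α z 0 x) ≤ Real.exp (Real.log (NN z)) := by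
      rw [Real.exp_log (by linarith [one_le_NN z]), Phi_zero]
    have h1 := growth (by omega) hα h0 n0
    rw [zero_add] at h1
    refine h1.trans ?_
    rw [Real.exp_le_exp]
    have h2 : |x.im| ≤ 1 / (L : ℝ) ^ n0 := by
      have : x.im = (x - x0).im := by simp
      rw [this]
      exact (Complex.abs_im_le_norm _).trans hx
    have h3 : (0 : ℝ) < (L : ℝ) - 2 := by
      have : (6 : ℝ) ≤ L := by exact_mod_cast hL
      linarith
    have h4 : 2 * Real.pi / ((L : ℝ) - 2) * (L : ℝ) ^ (n0) * |x.im|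
        ≤ 2 * Real.pi / ((L : ℝ) - 2) * (L : ℝ) ^ (n0) * (1 / (L : ℝ) ^ n0) := by
      gcongr
    have h5 : 2 ^ n0 * (Real.log (NN z) + Real.log 3) +
        2 * Real.pi / ((L : ℝ) - 2) * (L : ℝ) ^ (n0) * (1 / (L : ℝ) ^ n0) = M1 := by
      rw [hM1, zero_add]
    linarith [le_abs_self M1]
  have key : ∀ i : ℕ, ∀ x : ℂ, ‖x - x0‖ ≤ 1 / (L : ℝ) ^ (n0 + i) →
      NN (Phi L α z (n0 + i) x) ≤ Real.exp (CM R + 0.92 ^ i * M0) := by
    intro i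
    induction i with
    | zero => simpa using hinit
    | succ i ih =>
      intro x hx
      have h1 := step (L := L) (α := α) (z := z) hL hα hGm hGp hG hR hbd (p := 2) (by norm_num)
        (by norm_num) (x0 := x0) (n := n0 + i) (M := CM R + 0.92 ^ i * M0) (by positivity)
        (by simpa using ih) (by simpa using hN (n0 + i) (by omega)) (x := x) (by
          rw [add_assoc]
          simpa using hx)
      rw [← add_assoc]
      refine h1.trans (le_of_eq ?_)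
      congr 1
      have : bb R = 0.08 * CM R := by rw [CM]; ring
      rw [this, pow_succ]
      ring
  have hlim : Tendsto (fun i : ℕ => (0.92 : ℝ) ^ i * M0) atTop (𝓝 (0 * M0)) :=
    (tendsto_pow_atTop_nhds_zero_of_lt_one (by norm_num) (by norm_num)).mul_const M0
  rw [zero_mul] at hlim
  obtain ⟨i0, hi0⟩ := (hlim.eventually (gt_mem_nhds zero_lt_one)).exists_forall_of_atTop
  refine ⟨n0 + i0, fun n hn x hx => ?_⟩
  obtain ⟨i, rfl⟩ := Nat.exists_eq_add_of_le (show n0 ≤ n by omega)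
  refine (key i x hx).trans ?_
  rw [Real.exp_le_exp]
  linarith [hi0 i (by omega)]

lemma phase2 {L : ℕ} {α z : ℂ} (hL : 6 ≤ L) (hα : ‖α‖ ≤ 1) {Nb G : Set ℝ}
    (hGm : MeasurableSet G) (hGp : ∀ x, x + 1 ∈ G ↔ x ∈ G)
    (hG : volume (Gᶜ ∩ Set.Ioc 0 1) ≤ ENNReal.ofReal (eps0 / 4)) {R : ℝ} (hR : 0 ≤ R)
    (hbd : ∀ n : ℕ, ∀ x ∈ Nb, (L : ℝ) ^ n * x ∈ G → ‖Phi L α z n (x : ℝ)‖ ≤ R)
    {u : ℝ} {m k : ℕ}
    (hm : ∀ x : ℂ, ‖x - u‖ ≤ 1 / (L : ℝ) ^ m → NN (Phi L α z m x) ≤ Real.exp (CM R + 1))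
    (hN : volume (Nbᶜ ∩ Set.Icc (u - 1 / (L : ℝ) ^ m) (u + 1 / (L : ℝ) ^ m))
      ≤ ENNReal.ofReal (eps0 / 8 * (1 / (L : ℝ) ^ (m + k)))) :
    ∀ j ≤ k, ∀ x0 : ℝ, |x0 - u| ≤ (1 / 2) / (L : ℝ) ^ m →
      ∀ x : ℂ, ‖x - x0‖ ≤ (1 / 2) / (L : ℝ) ^ (m + j) →
      NN (Phi L α z (m + j) x) ≤ Real.exp (CM R + 1) := by
  have hCM := CM_pos hR
  have hL1 : (1 : ℝ) ≤ L := by
    have : (6 : ℝ) ≤ L := by exact_mod_cast hL
    linarith
  intro j
  induction j with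
  | zero =>
    intro _ x0 hx0 x hx
    apply hm
    rw [add_zero] at hx
    have h1 : ‖((x0 - u : ℝ) : ℂ)‖ ≤ (1 / 2) / (L : ℝ) ^ m := by
      rw [Complex.norm_real]; exact hx0
    calc ‖x - u‖ = ‖(x - x0) + ((x0 - u : ℝ) : ℂ)‖ := by congr 1; push_cast; ring
      _ ≤ ‖x - x0‖ + ‖((x0 - u : ℝ) : ℂ)‖ := norm_add_le _ _
      _ ≤ (1 / 2) / (L : ℝ) ^ m + (1 / 2) / (L : ℝ) ^ m := add_le_add hx h1
      _ = 1 / (L : ℝ) ^ m := by ring
  | succ j ih =>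
    intro hj x0 hx0 x hx
    have hpow : (L : ℝ) ^ m ≤ (L : ℝ) ^ (m + j) := pow_le_pow_right₀ hL1 (by omega)
    have hpow2 : (L : ℝ) ^ (m + j) ≤ (L : ℝ) ^ (m + k) := pow_le_pow_right₀ hL1 (by omega)
    have hposm : (0 : ℝ) < (L : ℝ) ^ m := by positivity
    have h1 := step (L := L) (α := α) (z := z) hL hα hGm hGp hG hR hbd (p := 1) (by norm_num)
        (by norm_num) (x0 := x0) (n := m + j) (M := CM R + 1) (by positivity)
        (by
          simp only [Nat.cast_one]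
          exact ih (by omega) x0 hx0) (by
          simp only [Nat.cast_one]
          have h2 : Set.Icc (x0 - 1 / 2 / (L : ℝ) ^ (m + j)) (x0 + 1 / 2 / (L : ℝ) ^ (m + j))
              ⊆ Set.Icc (u - 1 / (L : ℝ) ^ m) (u + 1 / (L : ℝ) ^ m) := by
            rw [abs_le] at hx0
            have h3 : 1 / 2 / (L : ℝ) ^ (m + j) ≤ 1 / 2 / (L : ℝ) ^ m := by gcongr
            have h4 : 1 / (L : ℝ) ^ m = 1 / 2 / (L : ℝ) ^ m + 1 / 2 / (L : ℝ) ^ m := by ring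
            apply Set.Icc_subset_Icc <;> linarith
          refine (measure_mono (Set.inter_subset_inter_right _ h2)).trans (hN.trans ?_)
          apply ENNReal.ofReal_le_ofReal
          have h5 : 1 / (L : ℝ) ^ (m + k) ≤ 1 / (L : ℝ) ^ (m + j) := by gcongr
          have := eps0_pos
          calc eps0 / 8 * (1 / (L : ℝ) ^ (m + k)) ≤ eps0 / 8 * (1 / (L : ℝ) ^ (m + j)) := by
                gcongr
            _ = eps0 / 4 * (1 / 2 / (L : ℝ) ^ (m + j)) := by ring) (x := x) (by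
          rw [add_assoc]
          simpa using hx)
    rw [← add_assoc]
    refine h1.trans ?_
    rw [Real.exp_le_exp]
    have : bb R = 0.08 * CM R := by rw [CM]; ring
    rw [this]
    linarith

end Pool.Agent.TH229.Kan
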