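import Pool.Agent.TH229.Kan.Local

/-!
# The random Fatou sets on the sphere: definitions and the main theorem
-/

set_option autoImplicit false

namespace Pool.Agent.TH229.Kan

open Filter Topology MeasureTheory
open scoped OnePoint

/-- local uniform convergence near an absorbed point -/
lemma local_limit {L : ℕ} {α z : ℂ} (hα0 : 0 < ‖α‖) (hα : ‖α‖ < 1) {θ : ℝ} (hθ0 : 0 < θ)
    (hθ : θ < 1) {i : ℕ} {u : ℝ} (hu : ∃ᶠ n : ℕ in atTop, (L : ℝ) ^ n * u ∈ KK L α θ i)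
    (h : Absorbed L α z u) :
    ∃ U : Set ℂ, IsOpen U ∧ z ∈ U ∧
      ((∀ ε : ℝ, 0 < ε → ∃ N, ∀ m ≥ N, ∀ w ∈ U, ‖Phi L α w m u‖ < ε) ∨
       (∀ ε : ℝ, 0 < ε → ∃ N, ∀ m ≥ N, ∀ w ∈ U, ‖Phi L α w m u - 1‖ < ε) ∨
       (∀ R : ℝ, ∃ N, ∀ m ≥ N, ∀ w ∈ U, R < ‖Phi L α w m u‖)) := by
  have hC : (0 : ℝ) < (i : ℝ) + 1 := by positivity
  obtain ⟨n, hn1, hn2⟩ := (hu.and_eventually (trapped_of_absorbed (i := i) hα hθ h)).exists
  have hgeo : ∀ D : ℝ, Tendsto (fun k : ℕ => D * θ ^ k) atTop (𝓝 0) := by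
    intro D
    have := (tendsto_pow_atTop_nhds_zero_of_lt_one hθ0.le hθ).const_mul D
    rwa [mul_zero] at this
  have hr := rS_pos hα hθ hC
  rcases hn2 with h1 | h1 | h1
  · refine ⟨{w | ‖Phi L α w n u‖ < rS α θ ((i : ℝ) + 1)},
      isOpen_lt (Phi_cont_z L α n u).norm continuous_const, h1, Or.inl fun ε hε => ?_⟩
    set D := 2 * ((i : ℝ) + 1) * rS α θ ((i : ℝ) + 1) with hD
    obtain ⟨k0, hk0⟩ := ((hgeo D).eventually (gt_mem_nhds hε)).exists_forall_of_atTop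
    refine ⟨n + k0, fun m hm w hw => ?_⟩
    have hw' : ‖Phi L α w n u‖ < rS α θ ((i : ℝ) + 1) := hw
    obtain ⟨k, rfl⟩ := Nat.exists_eq_add_of_le (show n ≤ m by omega)
    rw [Phi_add_real]
    have h2 := attract_zero hα hθ0 hθ hC hn1.2 hw'.le k
    have h3 := hk0 k (by omega)
    calc _ ≤ 2 * ((i : ℝ) + 1) * θ ^ k * ‖Phi L α w n u‖ := h2
      _ ≤ 2 * ((i : ℝ) + 1) * θ ^ k * rS α θ ((i : ℝ) + 1) := by gcongr
      _ = D * θ ^ k := by rw [hD]; ring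
      _ < ε := h3
  · refine ⟨{w | ‖1 - Phi L α w n u‖ < rS α θ ((i : ℝ) + 1)},
      isOpen_lt (continuous_const.sub (Phi_cont_z L α n u)).norm continuous_const, h1,
      Or.inr (Or.inl fun ε hε => ?_)⟩
    set D := 2 * ((i : ℝ) + 1) * rS α θ ((i : ℝ) + 1) with hD
    obtain ⟨k0, hk0⟩ := ((hgeo D).eventually (gt_mem_nhds hε)).exists_forall_of_atTop
    refine ⟨n + k0, fun m hm w hw => ?_⟩
    have hw' : ‖1 - Phi L α w n u‖ < rS α θ ((i : ℝ) + 1) := hw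
    obtain ⟨k, rfl⟩ := Nat.exists_eq_add_of_le (show n ≤ m by omega)
    rw [Phi_add_real, norm_sub_rev]
    have h2 := attract_one hα hθ0 hθ hC hn1.2 hw'.le k
    have h3 := hk0 k (by omega)
    calc _ ≤ 2 * ((i : ℝ) + 1) * θ ^ k * ‖1 - Phi L α w n u‖ := h2
      _ ≤ 2 * ((i : ℝ) + 1) * θ ^ k * rS α θ ((i : ℝ) + 1) := by gcongr
      _ = D * θ ^ k := by rw [hD]; ring
      _ < ε := h3
  · refine ⟨{w | RE α ((i : ℝ) + 1) < ‖Phi L α w n u‖},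
      isOpen_lt continuous_const (Phi_cont_z L α n u).norm, h1, Or.inr (Or.inr fun R => ?_)⟩
    have hR := RE_pos hα0 hC
    have hlim : Tendsto (fun k : ℕ => (2 : ℝ) ^ k) atTop atTop :=
      tendsto_pow_atTop_atTop_of_one_lt (by norm_num)
    obtain ⟨k0, hk0⟩ := (hlim.eventually_gt_atTop R).exists_forall_of_atTop
    refine ⟨n + k0, fun m hm w hw => ?_⟩
    have hw' : RE α ((i : ℝ) + 1) < ‖Phi L α w n u‖ := hw
    obtain ⟨k, rfl⟩ := Nat.exists_eq_add_of_le (show n ≤ m by omega)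
    rw [Phi_add_real]
    have h2 := escape hα0 hC hn1.1 hw'.le k
    have h3 := hk0 k (by omega)
    have h4 : (0 : ℝ) < 2 ^ k := by positivity
    nlinarith

/-- triangle inequality for the chordal distance on the plane -/
lemma dd_triangle (a b c : ℂ) : dd a c ≤ dd a b + dd b c := by
  unfold dd
  set A := Real.sqrt (1 + ‖a‖ ^ 2) with hA
  set B := Real.sqrt (1 + ‖b‖ ^ 2) with hB
  set C := Real.sqrt (1 + ‖c‖ ^ 2) with hC
  have hA1 : 1 ≤ A := one_le_sq a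
  have hB1 : 1 ≤ B := one_le_sq b
  have hC1 : 1 ≤ C := one_le_sq c
  have hA2 : A ^ 2 = 1 + ‖a‖ ^ 2 := Real.sq_sqrt (by positivity)
  have hB2 : B ^ 2 = 1 + ‖b‖ ^ 2 := Real.sq_sqrt (by positivity)
  have hC2 : C ^ 2 = 1 + ‖c‖ ^ 2 := Real.sq_sqrt (by positivity)
  have key : ∀ x y : ℂ, ∀ X Y : ℝ, 1 ≤ X → 1 ≤ Y → X ^ 2 = 1 + ‖x‖ ^ 2 → Y ^ 2 = 1 + ‖y‖ ^ 2 →
      ‖1 + starRingEnd ℂ x * y‖ ≤ X * Y := by
    intro x y X Y hX hY hX2 hY2
    have h1 : ‖1 + starRingEnd ℂ x * y‖ ≤ 1 + ‖x‖ * ‖y‖ := by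
      refine (norm_add_le _ _).trans ?_
      rw [norm_one, norm_mul, RCLike.norm_conj]
    refine h1.trans ?_
    apply le_of_sq_le_sq _ (by positivity)
    rw [mul_pow, hX2, hY2]
    nlinarith [sq_nonneg (‖x‖ - ‖y‖)]
  have h1 : (a - c) * ((1 + ‖b‖ ^ 2 : ℝ) : ℂ) = (a - b) * (1 + starRingEnd ℂ b * c)
      + (b - c) * (1 + starRingEnd ℂ b * a) := by
    have h2 : ((‖b‖ ^ 2 : ℝ) : ℂ) = starRingEnd ℂ b * b := by
      rw [mul_comm, Complex.mul_conj, Complex.normSq_eq_norm_sq]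
    push_cast at h2 ⊢
    rw [h2]
    ring
  have h3 : ‖a - c‖ * B ^ 2 ≤ ‖a - b‖ * (B * C) + ‖b - c‖ * (B * A) := by
    have h4 : ‖(a - c) * ((1 + ‖b‖ ^ 2 : ℝ) : ℂ)‖ = ‖a - c‖ * B ^ 2 := by
      rw [norm_mul, Complex.norm_real, Real.norm_eq_abs, abs_of_nonneg (by positivity), hB2]
    rw [← h4, h1]
    refine (norm_add_le _ _).trans ?_
    rw [norm_mul, norm_mul]
    exact add_le_add (mul_le_mul_of_nonneg_left (key b c B C hB1 hC1 hB2 hC2) (norm_nonneg _))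
      (mul_le_mul_of_nonneg_left (key b a B A hB1 hA1 hB2 hA2) (norm_nonneg _))
  have h5 : ‖a - c‖ * B ≤ ‖a - b‖ * C + ‖b - c‖ * A := by
    have hB0 : 0 < B := by linarith
    have : (‖a - c‖ * B) * B ≤ (‖a - b‖ * C + ‖b - c‖ * A) * B := by nlinarith
    exact le_of_mul_le_mul_right this hB0
  have hA0 : 0 < A := by linarith
  have hB0 : 0 < B := by linarith
  have hC0 : 0 < C := by linarith
  rw [div_add_div _ _ (by positivity) (by positivity), div_le_div_iff₀ (by positivity)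
    (by positivity)]
  have h6 : 0 ≤ A * B * C := by positivity
  nlinarith [mul_le_mul_of_nonneg_left h5 h6]

lemma dd_comm (a b : ℂ) : dd a b = dd b a := by
  unfold dd
  rw [norm_sub_rev, mul_comm (Real.sqrt _)]

end Pool.Agent.TH229.Kan
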