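import Pool.Agent.TH229.Kan.TCM
import Pool.Agent.TH229.Kan.Defs

/-!
# Complex bounds at all small scales around density points
-/

set_option autoImplicit false

namespace Pool.Agent.TH229.Kan

open Complex Filter Topology MeasureTheory

lemma integral_periodic_scale {h : ℝ → ℝ} (hp : Function.Periodic h 1)
    (hm : Measurable h) (C : ℝ) (hb : ∀ x, |h x| ≤ C) (a N : ℝ) (hN : 0 < N) (p : ℕ) :
    ∫ x in a..(a + p / N), h (N * x) = (p / N) * ∫ x in (0 : ℝ)..1, h x := by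
  have hint : ∀ a b : ℝ, IntervalIntegrable h volume a b := by
    intro a b
    refine (intervalIntegrable_const (c := C)).mono_fun hm.aestronglyMeasurable ?_
    filter_upwards with x
    rw [Real.norm_eq_abs, Real.norm_eq_abs]
    exact (hb x).trans (le_abs_self _)
  rw [intervalIntegral.integral_comp_mul_left (fun x => h x) hN.ne']
  have h1 : N * (a + p / N) = N * a + (p : ℤ) • (1 : ℝ) := by
    simp only [zsmul_eq_mul, mul_one, Int.cast_natCast]
    field_simp
  rw [h1, hp.intervalIntegral_add_zsmul_eq (p : ℤ) (N * a) hint]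
  have h2 := hp.intervalIntegral_add_eq (N * a) 0
  rw [zero_add] at h2
  rw [h2]
  simp only [zsmul_eq_mul, smul_eq_mul, Int.cast_natCast]
  ring

lemma volume_periodic_scale {G : Set ℝ} (hG : MeasurableSet G) (hGp : ∀ x, x + 1 ∈ G ↔ x ∈ G)
    (a N : ℝ) (hN : 0 < N) (p : ℕ) :
    volume {x | x ∈ Set.Icc a (a + p / N) ∧ N * x ∈ G}
      = ENNReal.ofReal (p / N) * volume (G ∩ Set.Ioc 0 1) := by
  have hperiodic : Function.Periodic (G.indicator (fun _ => (1 : ℝ))) 1 := by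
    intro x
    by_cases hx : x ∈ G
    · rw [Set.indicator_of_mem hx, Set.indicator_of_mem ((hGp x).2 hx)]
    · rw [Set.indicator_of_notMem hx, Set.indicator_of_notMem (fun h => hx ((hGp x).1 h))]
  have hmeas : Measurable (G.indicator (fun _ => (1 : ℝ))) := measurable_const.indicator hG
  have hb : ∀ x, |G.indicator (fun _ => (1 : ℝ)) x| ≤ 1 := by
    intro x
    by_cases hx : x ∈ G
    · rw [Set.indicator_of_mem hx]; simp
    · rw [Set.indicator_of_notMem hx]; simp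
  have key := integral_periodic_scale hperiodic hmeas 1 hb a N hN p
  have hle : a ≤ a + p / N := by
    have : 0 ≤ (p : ℝ) / N := by positivity
    linarith
  have hGN : MeasurableSet {x : ℝ | N * x ∈ G} := (measurable_const_mul N) hG
  have e1 : ∫ x in a..(a + p / N), G.indicator (fun _ => (1 : ℝ)) (N * x)
      = (volume {x | x ∈ Set.Ioc a (a + p / N) ∧ N * x ∈ G}).toReal := by
    rw [intervalIntegral.integral_of_le hle]
    have : (fun x => G.indicator (fun _ => (1 : ℝ)) (N * x))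
        = {x : ℝ | N * x ∈ G}.indicator (fun _ => (1 : ℝ)) := by
      ext x
      by_cases h : N * x ∈ G
      · have h' : x ∈ {x : ℝ | N * x ∈ G} := h
        rw [Set.indicator_of_mem h, Set.indicator_of_mem h']
      · have h' : x ∉ {x : ℝ | N * x ∈ G} := h
        rw [Set.indicator_of_notMem h, Set.indicator_of_notMem h']
    rw [this, integral_indicator hGN, setIntegral_const, smul_eq_mul, mul_one, Measure.real,
      Measure.restrict_apply hGN]
    congr 2
    ext x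
    exact and_comm
  have e2 : ∫ x in (0 : ℝ)..1, G.indicator (fun _ => (1 : ℝ)) x
      = (volume (G ∩ Set.Ioc 0 1)).toReal := by
    rw [intervalIntegral.integral_of_le zero_le_one, integral_indicator hG, setIntegral_const,
      smul_eq_mul, mul_one, Measure.real, Measure.restrict_apply hG]
  rw [e1, e2] at key
  have hfin1 : volume {x | x ∈ Set.Ioc a (a + p / N) ∧ N * x ∈ G} ≠ ⊤ := by
    refine ne_top_of_le_ne_top ?_ (measure_mono (t := Set.Ioc a (a + p / N)) fun x hx => hx.1)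
    rw [Real.volume_Ioc]; exact ENNReal.ofReal_ne_top
  have hfin2 : volume (G ∩ Set.Ioc 0 1) ≠ ⊤ := by
    refine ne_top_of_le_ne_top ?_ (measure_mono Set.inter_subset_right)
    rw [Real.volume_Ioc]; exact ENNReal.ofReal_ne_top
  have e3 : volume {x | x ∈ Set.Icc a (a + p / N) ∧ N * x ∈ G}
      = volume {x | x ∈ Set.Ioc a (a + p / N) ∧ N * x ∈ G} := by
    apply measure_congr
    have h1 : Set.Ioc a (a + p / N) =ᵐ[volume] Set.Icc a (a + p / N) := Ioc_ae_eq_Icc
    have h2 := h1.symm.inter (Filter.EventuallyEq.refl (ae volume) {x : ℝ | N * x ∈ G})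
    exact h2
  rw [e3, ← ENNReal.ofReal_toReal hfin1, key, ENNReal.ofReal_mul (by positivity),
    ENNReal.ofReal_toReal hfin2]

/-- additive constant in the step -/
noncomputable def bb (R : ℝ) : ℝ := R + 2 + 0.46 * (Real.log 3 + 2 * Real.pi)

lemma bb_pos {R : ℝ} (hR : 0 ≤ R) : 0 < bb R := by
  unfold bb
  have h1 : 0 ≤ Real.log 3 := Real.log_nonneg (by norm_num)
  have := Real.pi_pos
  positivity

lemma step {L : ℕ} {α z : ℂ} (hL : 6 ≤ L) (hα : ‖α‖ ≤ 1) {Nb G : Set ℝ}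
    (hGm : MeasurableSet G) (hGp : ∀ x, x + 1 ∈ G ↔ x ∈ G)
    (hG : volume (Gᶜ ∩ Set.Ioc 0 1) ≤ ENNReal.ofReal (eps0 / 4)) {R : ℝ} (hR : 0 ≤ R)
    (hbd : ∀ n : ℕ, ∀ x ∈ Nb, (L : ℝ) ^ n * x ∈ G → ‖Phi L α z n (x : ℝ)‖ ≤ R)
    {p : ℕ} (hp1 : 1 ≤ p) (hp2 : p ≤ 2) {x0 : ℝ} {n : ℕ} {M : ℝ} (hM0 : 0 ≤ M)
    (hM : ∀ x : ℂ, ‖x - x0‖ ≤ (p / 2) / (L : ℝ) ^ n → NN (Phi L α z n x) ≤ Real.exp M)
    (hN : volume (Nbᶜ ∩ Set.Icc (x0 - (p / 2) / (L : ℝ) ^ n) (x0 + (p / 2) / (L : ℝ) ^ n))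
      ≤ ENNReal.ofReal (eps0 / 4 * ((p / 2) / (L : ℝ) ^ n)))
    {x : ℂ} (hx : ‖x - x0‖ ≤ (p / 2) / (L : ℝ) ^ (n + 1)) :
    NN (Phi L α z (n + 1) x) ≤ Real.exp (0.92 * M + bb R) := by
  have hL0 : (0 : ℝ) < L := by
    have : (6 : ℝ) ≤ L := by exact_mod_cast hL
    linarith
  have hL6 : (6 : ℝ) ≤ L := by exact_mod_cast hL
  have hp0 : (0 : ℝ) < p := by exact_mod_cast hp1
  have hp2' : (p : ℝ) ≤ 2 := by exact_mod_cast hp2
  set ρ : ℝ := (p / 2) / (L : ℝ) ^ n with hρ
  have hρ0 : 0 < ρ := by positivity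
  have hlog3 : 0 ≤ Real.log 3 := Real.log_nonneg (by norm_num)
  set F : ℂ → ℂ := fun ζ => Phi L α z (n + 1) (x0 + ρ * ζ) with hF
  have hFd : Differentiable ℂ F := by
    apply (Phi_diff L α z (n + 1)).comp
    fun_prop
  set B : ℝ := 2 * M + Real.log 3 + 2 * Real.pi with hB
  have hB0 : 0 ≤ B := by
    have := Real.pi_pos
    positivity
  have hdisc : ∀ ζ : ℂ, ‖ζ‖ ≤ 1 → ‖F ζ‖ ≤ Real.exp B := by
    intro ζ hζ
    have h1 : ‖((x0 : ℂ) + ρ * ζ) - x0‖ ≤ ρ := by
      rw [add_sub_cancel_left, norm_mul, Complex.norm_real, Real.norm_eq_abs, abs_of_pos hρ0]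
      nlinarith
    have h2 := growth_step hα (hM _ h1)
    refine (norm_le_NN _).trans (h2.trans ?_)
    rw [Real.exp_le_exp]
    have h3 : |((x0 : ℂ) + ρ * ζ).im| ≤ ρ := by
      have : ((x0 : ℂ) + ρ * ζ).im = (((x0 : ℂ) + ρ * ζ) - x0).im := by simp
      rw [this]
      exact (Complex.abs_im_le_norm _).trans h1
    have h4 : (L : ℝ) ^ n * ρ = p / 2 := by
      rw [hρ]; field_simp
    have h5 : (L : ℝ) ^ n * |((x0 : ℂ) + ρ * ζ).im| ≤ 1 := by
      calc (L : ℝ) ^ n * |((x0 : ℂ) + ρ * ζ).im| ≤ (L : ℝ) ^ n * ρ := by gcongr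
        _ ≤ 1 := by rw [h4]; linarith
    have := Real.pi_pos
    nlinarith
  have hreal : volume {t : ℝ | t ∈ Set.Icc (-1) 1 ∧ Real.exp (R + 1) ≤ ‖F t‖}
      < ENNReal.ofReal eps0 := by
    set A1 : Set ℝ := Nbᶜ ∩ Set.Icc (x0 - ρ) (x0 + ρ) with hA1
    set A2 : Set ℝ := {x | x ∈ Set.Icc (x0 - ρ) (x0 - ρ + ((L * p : ℕ) : ℝ) / (L : ℝ) ^ (n + 1)) ∧
      (L : ℝ) ^ (n + 1) * x ∈ Gᶜ} with hA2
    have hA2v := volume_periodic_scale hGm.compl (fun x => not_congr (hGp x)) (x0 - ρ)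
      ((L : ℝ) ^ (n + 1)) (by positivity) (L * p)
    have hlen : ((L * p : ℕ) : ℝ) / (L : ℝ) ^ (n + 1) = 2 * ρ := by
      rw [hρ]; push_cast; field_simp; ring
    have hsub : {t : ℝ | t ∈ Set.Icc (-1) 1 ∧ Real.exp (R + 1) ≤ ‖F t‖}
        ⊆ (fun t => ρ * t) ⁻¹' ((fun t => x0 + t) ⁻¹' (A1 ∪ A2)) := by
      rintro t ⟨⟨ht1, ht2⟩, ht3⟩
      simp only [Set.mem_preimage, Set.mem_union]
      have hmem : x0 + ρ * t ∈ Set.Icc (x0 - ρ) (x0 + ρ) := by
        constructor <;> nlinarith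
      by_contra hcon
      push Not at hcon
      obtain ⟨hc1, hc2⟩ := hcon
      have h1 : x0 + ρ * t ∈ Nb := by
        by_contra h
        exact hc1 ⟨h, hmem⟩
      have h2 : (L : ℝ) ^ (n + 1) * (x0 + ρ * t) ∈ G := by
        by_contra h
        apply hc2
        refine ⟨⟨hmem.1, ?_⟩, h⟩
        rw [hlen]
        linarith [hmem.2]
      have h3 := hbd (n + 1) _ h1 h2
      have h4 : F t = Phi L α z (n + 1) ((x0 + ρ * t : ℝ) : ℂ) := by
        simp only [hF]; push_cast; rfl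
      rw [h4] at ht3
      have h5 : R < Real.exp (R + 1) := by linarith [Real.add_one_le_exp (R + 1)]
      linarith
    refine (measure_mono hsub).trans_lt ?_
    rw [Real.volume_preimage_mul_left hρ0.ne', measure_preimage_add]
    have h6 : volume (A1 ∪ A2) ≤ ENNReal.ofReal (3 / 4 * eps0 * ρ) := by
      refine (measure_union_le _ _).trans ?_
      have h7 : volume A2 ≤ ENNReal.ofReal (2 * ρ) * ENNReal.ofReal (eps0 / 4) := by
        rw [hA2, hA2v, hlen]
        gcongr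
      rw [← ENNReal.ofReal_mul (by positivity)] at h7
      refine (add_le_add hN h7).trans ?_
      have := eps0_pos
      rw [← ENNReal.ofReal_add (by positivity) (by positivity)]
      apply ENNReal.ofReal_le_ofReal
      linarith
    refine (mul_le_mul_right h6 _).trans_lt ?_
    have := eps0_pos
    rw [← ENNReal.ofReal_mul (by positivity)]
    apply (ENNReal.ofReal_lt_ofReal_iff this).2
    rw [abs_of_pos (by positivity)]
    have : ρ⁻¹ * (3 / 4 * eps0 * ρ) = 3 / 4 * eps0 := by field_simp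
    rw [this]
    linarith
  have hmain := two_const_meas F hFd B (R + 1) hB0 (by linarith) hdisc hreal ((x - x0) / ρ) (by
    rw [norm_div, Complex.norm_real, Real.norm_eq_abs, abs_of_pos hρ0, div_le_iff₀ hρ0]
    refine hx.trans ?_
    rw [pow_succ, ← div_div, ← hρ, div_le_iff₀ hL0]
    nlinarith)
  have hFx : F ((x - x0) / ρ) = Phi L α z (n + 1) x := by
    simp only [hF]
    congr 1
    have : (ρ : ℂ) ≠ 0 := by exact_mod_cast hρ0.ne'
    field_simp
    ring
  rw [hFx] at hmain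
  have hexp : R + 1 + 0.46 * B + 1 = 0.92 * M + bb R := by
    rw [hB, bb]; ring
  rw [hexp] at hmain
  apply NN_le _ hmain
  apply Real.one_le_exp
  have := bb_pos hR
  positivity

end Pool.Agent.TH229.Kan
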