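import Mathlib

/-!
# A two-constants lemma with a small exceptional set on the real line
-/

set_option autoImplicit false

namespace Pool.Agent.TH229.Kan

open Complex Filter Topology MeasureTheory

/-- real part of the elementary kernel -/
lemma re_kernel (m l : ℝ) (ζ : ℂ) :
    (I * l / (ζ - m + I * l)).re
      = l * (ζ.im + l) / ((ζ.re - m) ^ 2 + (ζ.im + l) ^ 2) := by
  rw [Complex.div_re, Complex.normSq_apply]
  simp
  ring

lemma kernel_nonneg {m l : ℝ} (hl : 0 < l) {ζ : ℂ} (hζ : 0 ≤ ζ.im) :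
    0 ≤ (I * l / (ζ - m + I * l)).re := by
  rw [re_kernel]
  positivity

lemma kernel_le {m l : ℝ} (hl : 0 < l) {ζ : ℂ} (hζ : 0 < ζ.im) :
    (I * l / (ζ - m + I * l)).re ≤ l / ζ.im := by
  rw [re_kernel]
  rw [div_le_div_iff₀ (by positivity) hζ]
  nlinarith [sq_nonneg (ζ.re - m), mul_pos hl hζ, mul_pos hl hl,
    mul_nonneg hl.le (sq_nonneg (ζ.re - m))]

lemma kernel_ge {m l : ℝ} (hl : 0 < l) {t : ℝ} (ht : |t - m| ≤ l / 2) :
    4 / 5 ≤ (I * l / ((t : ℂ) - m + I * l)).re := by
  rw [re_kernel]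
  simp only [ofReal_re, ofReal_im, zero_add]
  have h2 : (t - m) ^ 2 ≤ (l / 2) ^ 2 := sq_le_sq' (by linarith [neg_abs_le (t - m)])
    ((le_abs_self _).trans ht)
  rw [div_le_div_iff₀ (by norm_num) (by positivity)]
  nlinarith

/-- the multiplier -/
noncomputable def mult {ι : Type*} (s : Finset ι) (m l : ι → ℝ) (ζ : ℂ) : ℂ :=
  (ζ ^ 2 - 2 * I * ζ) + (5 / 4) * ∑ i ∈ s, I * (l i) / (ζ - m i + I * l i)

lemma mult_re {ι : Type*} (s : Finset ι) (m l : ι → ℝ) (ζ : ℂ) :
    (mult s m l ζ).re = (ζ.re ^ 2 - ζ.im ^ 2 + 2 * ζ.im)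
      + (5 / 4) * ∑ i ∈ s, (I * (l i) / (ζ - m i + I * l i)).re := by
  unfold mult
  have h1 : ((5 : ℂ) / 4) = ((5 / 4 : ℝ) : ℂ) := by push_cast; ring
  rw [h1, Complex.add_re, Complex.re_ofReal_mul, Complex.re_sum]
  congr 1
  simp [pow_two]

lemma half_disc {ι : Type*} (s : Finset ι) (m l : ι → ℝ) (hl : ∀ i ∈ s, 0 < l i)
    (F : ℂ → ℂ) (hF : Differentiable ℂ F) (B b : ℝ) (hB : 0 ≤ B) (hb : 0 ≤ b)
    (hdisc : ∀ ζ : ℂ, ‖ζ‖ ≤ 1 → ‖F ζ‖ ≤ Real.exp B)
    (hreal : ∀ t : ℝ, |t| ≤ 1 → (∀ i ∈ s, l i / 2 < |t - m i|) → ‖F t‖ ≤ Real.exp b)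
    (ζ : ℂ) (hζ : ‖ζ‖ < 1) (hi : 0 < ζ.im) :
    ‖F ζ‖ ≤ Real.exp (b + B * (ζ.re ^ 2 - ζ.im ^ 2 + 2 * ζ.im)
      + (5 / 4) * B * (∑ i ∈ s, l i) / ζ.im) := by
  set U : Set ℂ := Metric.ball 0 1 ∩ {w : ℂ | 0 < w.im} with hU
  have hUo : IsOpen U := Metric.isOpen_ball.inter (isOpen_lt continuous_const Complex.continuous_im)
  have hUb : Bornology.IsBounded U := Metric.isBounded_ball.subset Set.inter_subset_left
  have hcl : closure U ⊆ {w : ℂ | ‖w‖ ≤ 1 ∧ 0 ≤ w.im} := by
    apply closure_minimal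
    · rintro w ⟨h1, h2⟩
      simp only [Metric.mem_ball, dist_zero_right] at h1
      exact ⟨h1.le, le_of_lt h2⟩
    · exact (isClosed_le continuous_norm continuous_const).inter
        (isClosed_le continuous_const Complex.continuous_im)
  set G : ℂ → ℂ := fun w => F w * Complex.exp (-(B : ℂ) * mult s m l w) with hG
  have hmd : ∀ w : ℂ, 0 ≤ w.im → DifferentiableAt ℂ (mult s m l) w := by
    intro w hw
    unfold mult
    refine DifferentiableAt.add (by fun_prop) (DifferentiableAt.const_mul ?_ _)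
    refine DifferentiableAt.fun_sum fun i his => ?_
    refine DifferentiableAt.div (by fun_prop) (by fun_prop) ?_
    intro h0
    have := congrArg Complex.im h0
    simp at this
    have := hl i his
    linarith
  have hGd : ∀ w : ℂ, 0 ≤ w.im → DifferentiableAt ℂ G w := by
    intro w hw
    exact (hF w).mul (((hmd w hw).const_mul _).cexp)
  have hGn : ∀ w : ℂ, ‖G w‖ = ‖F w‖ * Real.exp (-(B * (mult s m l w).re)) := by
    intro w
    rw [hG]
    simp only [norm_mul, Complex.norm_exp]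
    congr 2
    rw [neg_mul, Complex.neg_re, Complex.re_ofReal_mul]
  have hGdc : DiffContOnCl ℂ G U := by
    refine ⟨fun w hw => (hGd w (le_of_lt hw.2)).differentiableWithinAt, fun w hw => ?_⟩
    exact (hGd w (hcl hw).2).continuousAt.continuousWithinAt
  have hfr : ∀ w ∈ frontier U, ‖G w‖ ≤ Real.exp b := by
    intro w hw
    have hwc := hcl (frontier_subset_closure hw)
    have hwn : w ∉ U := by
      rw [hUo.frontier_eq] at hw
      exact hw.2
    have hre := mult_re s m l w
    have hsum : 0 ≤ ∑ i ∈ s, (I * (l i) / (w - m i + I * l i)).re :=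
      Finset.sum_nonneg fun i hi => kernel_nonneg (hl i hi) hwc.2
    rw [hGn]
    by_cases h1 : ‖w‖ < 1
    · -- real boundary
      have h2 : w.im = 0 := by
        by_contra hne
        apply hwn
        refine ⟨by simpa using h1, lt_of_le_of_ne hwc.2 (Ne.symm hne)⟩
      have hwr : w = ((w.re : ℝ) : ℂ) := by
        apply Complex.ext <;> simp [h2]
      have habs : |w.re| ≤ 1 := (Complex.abs_re_le_norm w).trans h1.le
      by_cases h3 : ∀ i ∈ s, l i / 2 < |w.re - m i|
      · have h4 := hreal w.re habs h3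
        rw [← hwr] at h4
        have h5 : 0 ≤ (mult s m l w).re := by
          rw [hre, h2]
          nlinarith [sq_nonneg w.re]
        calc ‖F w‖ * Real.exp (-(B * (mult s m l w).re)) ≤ Real.exp b * 1 := by
              apply mul_le_mul h4 _ (Real.exp_pos _).le (Real.exp_pos _).le
              rw [Real.exp_le_one_iff]
              nlinarith [mul_nonneg hB h5]
          _ = Real.exp b := mul_one _
      · push Not at h3
        obtain ⟨i, his, hi3⟩ := h3
        have h5 : 1 ≤ (mult s m l w).re := by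
          rw [hre, h2]
          have h6 : 4 / 5 ≤ (I * (l i) / (w - m i + I * l i)).re := by
            rw [hwr]
            exact kernel_ge (hl i his) (by simpa using hi3)
          have h7 : (I * (l i) / (w - m i + I * l i)).re
              ≤ ∑ i ∈ s, (I * (l i) / (w - m i + I * l i)).re :=
            Finset.single_le_sum (f := fun i => (I * (l i) / (w - m i + I * l i)).re)
              (fun j hj => kernel_nonneg (hl j hj) hwc.2) his
          nlinarith [sq_nonneg w.re]
        have h8 := hdisc w hwc.1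
        calc ‖F w‖ * Real.exp (-(B * (mult s m l w).re)) ≤ Real.exp B * Real.exp (-B) := by
              apply mul_le_mul h8 _ (Real.exp_pos _).le (Real.exp_pos _).le
              rw [Real.exp_le_exp]
              nlinarith
          _ = 1 := by rw [← Real.exp_add]; simp
          _ ≤ Real.exp b := Real.one_le_exp hb
    · have h1' : ‖w‖ = 1 := le_antisymm hwc.1 (not_lt.1 h1)
      have h2 : w.re ^ 2 + w.im ^ 2 = 1 := by
        have := Complex.sq_norm w
        rw [h1', Complex.normSq_apply] at this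
        nlinarith
      have h3 : w.im ≤ 1 := (le_abs_self _).trans ((Complex.abs_im_le_norm w).trans hwc.1)
      have h5 : 1 ≤ (mult s m l w).re := by
        rw [hre]
        nlinarith [hwc.2]
      have h8 := hdisc w hwc.1
      calc ‖F w‖ * Real.exp (-(B * (mult s m l w).re)) ≤ Real.exp B * Real.exp (-B) := by
            apply mul_le_mul h8 _ (Real.exp_pos _).le (Real.exp_pos _).le
            rw [Real.exp_le_exp]
            nlinarith
        _ = 1 := by rw [← Real.exp_add]; simp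
        _ ≤ Real.exp b := Real.one_le_exp hb
  have hmain := Complex.norm_le_of_forall_mem_frontier_norm_le hUb hGdc hfr
    (subset_closure (⟨by simpa using hζ, hi⟩ : ζ ∈ U))
  rw [hGn] at hmain
  have hsum : ∑ i ∈ s, (I * (l i) / (ζ - m i + I * l i)).re ≤ (∑ i ∈ s, l i) / ζ.im := by
    rw [Finset.sum_div]
    exact Finset.sum_le_sum fun i his => kernel_le (hl i his) hi
  have hre := mult_re s m l ζ
  have h9 : ‖F ζ‖ ≤ Real.exp b * Real.exp (B * (mult s m l ζ).re) := by
    have : ‖F ζ‖ = (‖F ζ‖ * Real.exp (-(B * (mult s m l ζ).re)))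
        * Real.exp (B * (mult s m l ζ).re) := by
      rw [mul_assoc, ← Real.exp_add]
      simp
    rw [this]
    exact mul_le_mul_of_nonneg_right hmain (Real.exp_pos _).le
  refine h9.trans ?_
  rw [← Real.exp_add, Real.exp_le_exp, hre]
  have : B * ((5 / 4) * ∑ i ∈ s, (I * (l i) / (ζ - m i + I * l i)).re)
      ≤ (5 / 4) * B * (∑ i ∈ s, l i) / ζ.im := by
    have h10 := mul_le_mul_of_nonneg_left hsum (by positivity : (0 : ℝ) ≤ 5 / 4 * B)
    calc B * ((5 / 4) * ∑ i ∈ s, (I * (l i) / (ζ - m i + I * l i)).re)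
        = 5 / 4 * B * ∑ i ∈ s, (I * (l i) / (ζ - m i + I * l i)).re := by ring
      _ ≤ 5 / 4 * B * ((∑ i ∈ s, l i) / ζ.im) := h10
      _ = _ := by ring
  nlinarith

lemma disc_bound {ι : Type*} (s : Finset ι) (m l : ι → ℝ) (hl : ∀ i ∈ s, 0 < l i)
    (F : ℂ → ℂ) (hF : Differentiable ℂ F) (B b : ℝ) (hB : 0 ≤ B) (hb : 0 ≤ b)
    (hdisc : ∀ ζ : ℂ, ‖ζ‖ ≤ 1 → ‖F ζ‖ ≤ Real.exp B)
    (hreal : ∀ t : ℝ, |t| ≤ 1 → (∀ i ∈ s, l i / 2 < |t - m i|) → ‖F t‖ ≤ Real.exp b)
    (ζ : ℂ) (hζ : ‖ζ‖ < 1) (hi : ζ.im ≠ 0) :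
    ‖F ζ‖ ≤ Real.exp (b + B * (ζ.re ^ 2 - ζ.im ^ 2 + 2 * |ζ.im|)
      + (5 / 4) * B * (∑ i ∈ s, l i) / |ζ.im|) := by
  rcases lt_or_gt_of_ne hi with h | h
  · have := half_disc s (fun i => - m i) l hl (fun w => F (-w)) (hF.comp differentiable_neg)
      B b hB hb (fun w hw => hdisc (-w) (by rwa [norm_neg])) (fun t ht h' => by
        have := hreal (-t) (by rwa [abs_neg]) (fun i his => by
          have h2 := h' i his
          rw [show t - -m i = -(-t - m i) by ring, abs_neg] at h2
          exact h2)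
        simpa using this) (-ζ) (by rwa [norm_neg]) (by simpa using h)
    simp only [neg_neg, neg_re, neg_im, even_two, Even.neg_pow] at this
    rw [abs_of_neg h]
    exact this
  · rw [abs_of_pos h]
    exact half_disc s m l hl F hF B b hB hb hdisc hreal ζ hζ h

lemma two_const {ι : Type*} (s : Finset ι) (m l : ι → ℝ) (hl : ∀ i ∈ s, 0 < l i)
    (F : ℂ → ℂ) (hF : Differentiable ℂ F) (B b : ℝ) (hB : 0 ≤ B) (hb : 0 ≤ b)
    (hdisc : ∀ ζ : ℂ, ‖ζ‖ ≤ 1 → ‖F ζ‖ ≤ Real.exp B)
    (hreal : ∀ t : ℝ, |t| ≤ 1 → (∀ i ∈ s, l i / 2 < |t - m i|) → ‖F t‖ ≤ Real.exp b)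
    (hε : ∑ i ∈ s, l i ≤ Real.exp (-30) / 20000)
    (ζ : ℂ) (hζ : ‖ζ‖ ≤ 1 / 6) :
    ‖F ζ‖ ≤ Real.exp (b + 0.46 * B + 1) := by
  have hs0 : 0 ≤ ∑ i ∈ s, l i := Finset.sum_nonneg fun i hi => (hl i hi).le
  have he1 : Real.exp (-30) ≤ 1 := Real.exp_le_one_iff.2 (by norm_num)
  have he0 : 0 < Real.exp (-30) := Real.exp_pos _
  have hre : |ζ.re| ≤ 1 / 6 := (Complex.abs_re_le_norm ζ).trans hζ
  have him : |ζ.im| ≤ 1 / 6 := (Complex.abs_im_le_norm ζ).trans hζ
  by_cases hA : 1 / 30 < |ζ.im|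
  · have hne : ζ.im ≠ 0 := by
      intro h
      rw [h] at hA
      norm_num at hA
    refine (disc_bound s m l hl F hF B b hB hb hdisc hreal ζ (by linarith) hne).trans ?_
    rw [Real.exp_le_exp]
    have h1 : ζ.re ^ 2 ≤ (1 / 6) ^ 2 := sq_le_sq' (by linarith [neg_abs_le ζ.re])
      ((le_abs_self _).trans hre)
    have h2 : 5 / 4 * B * (∑ i ∈ s, l i) / |ζ.im| ≤ 0.01 * B := by
      rw [div_le_iff₀ (by linarith)]
      have h3 : ∑ i ∈ s, l i ≤ 1 / 20000 := hε.trans (by linarith)
      have h4 : 5 / 4 * B * (∑ i ∈ s, l i) ≤ 5 / 4 * B * (1 / 20000) :=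
        mul_le_mul_of_nonneg_left h3 (by positivity)
      have h5 : 0.01 * B * (1 / 30) ≤ 0.01 * B * |ζ.im| :=
        mul_le_mul_of_nonneg_left hA.le (by positivity)
      linarith
    have h6 : B * (ζ.re ^ 2 - ζ.im ^ 2 + 2 * |ζ.im|) ≤ B * 0.37 := by
      apply mul_le_mul_of_nonneg_left _ hB
      nlinarith [sq_nonneg ζ.im]
    linarith
  · push Not at hA
    set x : ℝ := ζ.re with hx
    set K : ℕ := ⌈B / 50⌉₊ with hK
    have hK1 : B / 50 ≤ K := Nat.le_ceil _
    have hK2 : (K : ℝ) < B / 50 + 1 := Nat.ceil_lt_add_one (by positivity)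
    set Q : ℂ → ℂ := fun w => ((w - x) ^ 2 - (1 / 30) ^ 2) / (1 / 30) ^ 2 with hQ
    set G : ℂ → ℂ := fun w => F w * Q w ^ K with hG
    have hGd : Differentiable ℂ G := by
      apply hF.mul
      apply Differentiable.pow
      simp only [hQ]
      fun_prop
    have hU : IsOpen (Metric.ball (x : ℂ) (1 / 30)) := Metric.isOpen_ball
    have hfr : ∀ w ∈ frontier (Metric.ball (x : ℂ) (1 / 30)),
        ‖G w‖ ≤ Real.exp (b + 0.46 * B + 1) := by
      intro w hw
      rw [frontier_ball (x : ℂ) (by norm_num : (1 / 30 : ℝ) ≠ 0)] at hw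
      have hw1 : ‖w - x‖ = 1 / 30 := by simpa [dist_eq_norm] using hw
      have hxn : ‖(x : ℂ)‖ ≤ 1 / 6 := by
        rw [Complex.norm_real]
        exact hre
      have hwn : ‖w‖ ≤ 1 / 5 := by
        calc ‖w‖ = ‖(w - x) + x‖ := by ring_nf
          _ ≤ ‖w - x‖ + ‖(x : ℂ)‖ := norm_add_le _ _
          _ ≤ 1 / 5 := by rw [hw1]; linarith
      have hQw : Q w = 60 * 30 * I * w.im * (w - x) := by
        have h1 : (w.re - x) ^ 2 + w.im ^ 2 = (1 / 30) ^ 2 := by
          have h2 := Complex.sq_norm (w - x)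
          rw [hw1, Complex.normSq_apply] at h2
          simp at h2
          nlinarith
        have h3 : w - x = ((w.re - x : ℝ) : ℂ) + (w.im : ℝ) * I := by
          apply Complex.ext <;> simp
        have h4 : ((1 : ℂ) / 30) ^ 2 = (((w.re - x) ^ 2 + w.im ^ 2 : ℝ) : ℂ) := by
          rw [h1]; push_cast; ring
        rw [hQ]
        simp only
        rw [div_eq_iff (by norm_num), h3]
        have h5 : ((w.re - x : ℝ) : ℂ) ^ 2 + (w.im : ℂ) ^ 2 = (1 / 30) ^ 2 := by
          rw [h4]; push_cast; ring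
        have h6 : (I : ℂ) ^ 2 = -1 := Complex.I_sq
        push_cast at h5 ⊢
        linear_combination h5 + ((w.im : ℂ) ^ 2 - 2 * (w.im : ℂ) ^ 2) * h6
      have hQn : ‖Q w‖ = 60 * |w.im| := by
        rw [hQw]
        simp only [norm_mul, Complex.norm_I, Complex.norm_real, hw1]
        norm_num
        ring
      have hGn : ‖G w‖ = ‖F w‖ * (60 * |w.im|) ^ K := by
        rw [hG]; simp only [norm_mul, norm_pow, hQn]
      have him1 : |w.im| ≤ 1 / 30 := by
        have := Complex.abs_im_le_norm (w - x)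
        rw [hw1] at this
        simpa using this
      rw [hGn]
      by_cases hs : Real.exp (-30) / 60 ≤ |w.im|
      · have hwi : w.im ≠ 0 := by
          intro h
          rw [h, abs_zero] at hs
          linarith
        have h1 := disc_bound s m l hl F hF B b hB hb hdisc hreal w (by linarith) hwi
        have h2 : (60 * |w.im|) ^ K ≤ Real.exp (0.7 * K) := by
          have h3 : 60 * |w.im| ≤ 2 := by linarith
          calc (60 * |w.im|) ^ K ≤ 2 ^ K := pow_le_pow_left₀ (by positivity) h3 K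
            _ = Real.exp (K * Real.log 2) := by
                rw [Real.exp_nat_mul, Real.exp_log (by norm_num)]
            _ ≤ Real.exp (0.7 * K) := by
                rw [Real.exp_le_exp, mul_comm]
                exact mul_le_mul_of_nonneg_right (by linarith [Real.log_two_lt_d9])
                  (Nat.cast_nonneg _)
        refine (mul_le_mul h1 h2 (by positivity) (Real.exp_pos _).le).trans ?_
        rw [← Real.exp_add, Real.exp_le_exp]
        have h4 : 5 / 4 * B * (∑ i ∈ s, l i) / |w.im| ≤ 0.005 * B := by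
          rw [div_le_iff₀ (by linarith [div_pos he0 (by norm_num : (0 : ℝ) < 60)])]
          have h5 : 5 / 4 * B * (∑ i ∈ s, l i) ≤ 5 / 4 * B * (Real.exp (-30) / 20000) :=
            mul_le_mul_of_nonneg_left hε (by positivity)
          have h6 : 0.005 * B * (Real.exp (-30) / 60) ≤ 0.005 * B * |w.im| :=
            mul_le_mul_of_nonneg_left hs (by positivity)
          have h7 : 0 ≤ B * Real.exp (-30) := by positivity
          nlinarith
        have h8 : B * (w.re ^ 2 - w.im ^ 2 + 2 * |w.im|) ≤ B * 0.44 := by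
          apply mul_le_mul_of_nonneg_left _ hB
          have h9 : w.re ^ 2 + w.im ^ 2 ≤ (1 / 5) ^ 2 := by
            have := Complex.sq_norm w
            rw [Complex.normSq_apply] at this
            have h10 : ‖w‖ ^ 2 ≤ (1 / 5) ^ 2 := pow_le_pow_left₀ (norm_nonneg _) hwn 2
            nlinarith
          nlinarith [sq_nonneg w.im]
        linarith
      · push Not at hs
        have h1 := hdisc w (by linarith)
        have h2 : (60 * |w.im|) ^ K ≤ Real.exp (-30 * K) := by
          have h3 : 60 * |w.im| ≤ Real.exp (-30) := by linarith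
          calc (60 * |w.im|) ^ K ≤ Real.exp (-30) ^ K := pow_le_pow_left₀ (by positivity) h3 K
            _ = Real.exp (-30 * K) := by
                rw [← Real.exp_nat_mul]; ring_nf
        refine (mul_le_mul h1 h2 (by positivity) (Real.exp_pos _).le).trans ?_
        rw [← Real.exp_add, Real.exp_le_exp]
        linarith
    have hmem : ζ ∈ closure (Metric.ball (x : ℂ) (1 / 30)) := by
      rw [closure_ball (x : ℂ) (by norm_num : (1 / 30 : ℝ) ≠ 0), Metric.mem_closedBall, dist_eq_norm]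
      have : ζ - x = (ζ.im : ℂ) * I := by
        apply Complex.ext <;> simp [hx]
      rw [this, norm_mul, Complex.norm_I, mul_one, Complex.norm_real]
      exact hA
    have hmain := Complex.norm_le_of_forall_mem_frontier_norm_le Metric.isBounded_ball
      hGd.diffContOnCl hfr hmem
    have hQζ : 1 ≤ ‖Q ζ‖ := by
      have h1 : Q ζ = (((-(900 * ζ.im ^ 2 + 1) : ℝ)) : ℂ) := by
        have h2 : ζ - x = (ζ.im : ℂ) * I := by
          apply Complex.ext <;> simp [hx]
        rw [hQ]
        simp only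
        rw [h2, div_eq_iff (by norm_num)]
        push_cast
        have h6 : (I : ℂ) ^ 2 = -1 := Complex.I_sq
        linear_combination ((ζ.im : ℂ) ^ 2) * h6
      rw [h1, Complex.norm_real, Real.norm_eq_abs, abs_neg]
      rw [abs_of_nonneg (by positivity)]
      nlinarith [sq_nonneg ζ.im]
    calc ‖F ζ‖ = ‖F ζ‖ * 1 := (mul_one _).symm
      _ ≤ ‖F ζ‖ * ‖Q ζ‖ ^ K :=
          mul_le_mul_of_nonneg_left (one_le_pow₀ hQζ) (norm_nonneg _)
      _ = ‖G ζ‖ := by rw [hG]; simp only [norm_mul, norm_pow]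
      _ ≤ _ := hmain

end Pool.Agent.TH229.Kan
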