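import Pool.Agent.TH229.Kan.TC

/-!
# The two-constants lemma, measure form
-/

set_option autoImplicit false

namespace Pool.Agent.TH229.Kan

open Complex Filter Topology MeasureTheory

lemma cover_lemma (K : Set ℝ) (hK : IsCompact K) (ε : ℝ)
    (hε : volume K < ENNReal.ofReal ε) :
    ∃ (s : Finset ℤ) (l : ℝ), 0 < l ∧ (s.card : ℝ) * l ≤ ε ∧
      ∀ t ∈ K, ∃ k ∈ s, |t - ((k : ℝ) + 1 / 2) * l| ≤ l / 2 := by
  obtain ⟨U, hKU, hUo, hUε⟩ := Set.exists_isOpen_lt_of_lt K _ hε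
  obtain ⟨δ, hδ, hδU⟩ := hK.exists_thickening_subset_open hUo hKU
  set l : ℝ := δ / 2 with hl
  have hl0 : 0 < l := by positivity
  obtain ⟨R, hR⟩ := hK.isBounded.subset_closedBall 0
  have hfin : ((fun t : ℝ => ⌊t / l⌋) '' K).Finite := by
    apply (Set.finite_Icc ⌊-R / l⌋ ⌊R / l⌋).subset
    rintro k ⟨t, ht, rfl⟩
    have h1 := hR ht
    rw [Metric.mem_closedBall, dist_zero_right, Real.norm_eq_abs, abs_le] at h1
    exact ⟨Int.floor_le_floor (div_le_div_of_nonneg_right h1.1 hl0.le),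
      Int.floor_le_floor (div_le_div_of_nonneg_right h1.2 hl0.le)⟩
  refine ⟨hfin.toFinset, l, hl0, ?_, ?_⟩
  · have hdisj : Pairwise (Function.onFun Disjoint fun n : ℤ => Set.Ico (n • l) ((n + 1) • l)) :=
      Set.pairwise_disjoint_Ico_zsmul l
    have hsub : (⋃ k ∈ hfin.toFinset, Set.Ico (k • l) ((k + 1) • l)) ⊆ U := by
      intro x hx
      simp only [Set.mem_iUnion, Set.Finite.mem_toFinset] at hx
      obtain ⟨k, ⟨t, ht, rfl⟩, hx1, hx2⟩ := hx
      apply hδU
      rw [Metric.mem_thickening_iff]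
      refine ⟨t, ht, ?_⟩
      simp only [zsmul_eq_mul] at hx1 hx2
      have h1 : (⌊t / l⌋ : ℝ) * l ≤ t := by
        have := Int.floor_le (t / l)
        rwa [le_div_iff₀ hl0] at this
      have h2 : t < ((⌊t / l⌋ : ℝ) + 1) * l := by
        have := Int.lt_floor_add_one (t / l)
        rwa [div_lt_iff₀ hl0] at this
      push_cast at hx2
      rw [Real.dist_eq, abs_lt]
      constructor <;> nlinarith
    have hvol : volume (⋃ k ∈ hfin.toFinset, Set.Ico (k • l) ((k + 1) • l))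
        = ENNReal.ofReal ((hfin.toFinset.card : ℝ) * l) := by
      rw [measure_biUnion_finset (fun i _ j _ hij => hdisj hij) (fun i _ => measurableSet_Ico)]
      have : ∀ k : ℤ, volume (Set.Ico (k • l) ((k + 1) • l)) = ENNReal.ofReal l := by
        intro k
        rw [Real.volume_Ico]
        congr 1
        simp only [zsmul_eq_mul]
        push_cast
        ring
      simp only [this, Finset.sum_const, nsmul_eq_mul]
      rw [ENNReal.ofReal_mul (Nat.cast_nonneg _), ENNReal.ofReal_natCast]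
    have h3 : ENNReal.ofReal ((hfin.toFinset.card : ℝ) * l) < ENNReal.ofReal ε := by
      rw [← hvol]
      exact (measure_mono hsub).trans_lt hUε
    exact (ENNReal.ofReal_lt_ofReal_iff_of_nonneg (by positivity)).1 h3 |>.le
  · intro t ht
    refine ⟨⌊t / l⌋, by simp only [Set.Finite.mem_toFinset]; exact ⟨t, ht, rfl⟩, ?_⟩
    have h1 : (⌊t / l⌋ : ℝ) * l ≤ t := by
      have := Int.floor_le (t / l)
      rwa [le_div_iff₀ hl0] at this
    have h2 : t < ((⌊t / l⌋ : ℝ) + 1) * l := by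
      have := Int.lt_floor_add_one (t / l)
      rwa [div_lt_iff₀ hl0] at this
    rw [abs_le]
    constructor <;> nlinarith

/-- the exceptional measure allowed -/
noncomputable def eps0 : ℝ := Real.exp (-30) / 20000

lemma eps0_pos : 0 < eps0 := by unfold eps0; positivity

lemma eps0_le : eps0 ≤ 1 := by
  unfold eps0
  have : Real.exp (-30) ≤ 1 := Real.exp_le_one_iff.2 (by norm_num)
  linarith

lemma two_const_meas (F : ℂ → ℂ) (hF : Differentiable ℂ F) (B b : ℝ) (hB : 0 ≤ B) (hb : 0 ≤ b)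
    (hdisc : ∀ ζ : ℂ, ‖ζ‖ ≤ 1 → ‖F ζ‖ ≤ Real.exp B)
    (hreal : volume {t : ℝ | t ∈ Set.Icc (-1) 1 ∧ Real.exp b ≤ ‖F t‖} < ENNReal.ofReal eps0)
    (ζ : ℂ) (hζ : ‖ζ‖ ≤ 1 / 6) :
    ‖F ζ‖ ≤ Real.exp (b + 0.46 * B + 1) := by
  have hK : IsCompact {t : ℝ | t ∈ Set.Icc (-1) 1 ∧ Real.exp b ≤ ‖F t‖} := by
    apply isCompact_Icc.inter_right
    exact isClosed_le continuous_const ((hF.continuous.comp Complex.continuous_ofReal).norm)
  obtain ⟨s, l, hl, hsl, hcov⟩ := cover_lemma _ hK eps0 hreal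
  refine two_const s (fun k : ℤ => ((k : ℝ) + 1 / 2) * l) (fun _ => l) (fun _ _ => hl) F hF B b
    hB hb hdisc ?_ ?_ ζ hζ
  · intro t ht h
    by_contra hcon
    push Not at hcon
    obtain ⟨k, hk, hk2⟩ := hcov t ⟨abs_le.1 ht, hcon.le⟩
    exact absurd (h k hk) (not_lt.2 hk2)
  · rw [Finset.sum_const, nsmul_eq_mul]
    exact hsl

end Pool.Agent.TH229.Kan
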