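import Pool.Agent.TH229.Kan.Core

/-!
# Escape and attraction: deterministic lemmas
-/

set_option autoImplicit false

namespace Pool.Agent.TH229.Kan

open Complex Filter Topology MeasureTheory

lemma cr_periodic (L n : ℕ) (x : ℝ) : cr L n (x + 1) = cr L n x := by
  unfold cr
  have : 2 * Real.pi * ((L : ℝ) ^ n * (x + 1))
      = 2 * Real.pi * ((L : ℝ) ^ n * x) + ((L ^ n : ℕ) : ℝ) * (2 * Real.pi) := by
    push_cast; ring
  rw [this, Real.cos_add_nat_mul_two_pi]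

lemma cr_abs_le (L n : ℕ) (x : ℝ) : |cr L n x| ≤ 1 := Real.abs_cos_le_one _

lemma cr_shift (L n k : ℕ) (x : ℝ) : cr L k ((L : ℝ) ^ n * x) = cr L (n + k) x := by
  unfold cr
  rw [pow_add]
  ring_nf

/-- escape-good base points -/
def GE (L : ℕ) (M : ℝ) : Set ℝ := {v | ∀ k : ℕ, 1 / (M * 2 ^ k) ≤ |cr L k v|}

/-- escape radius -/
noncomputable def RE (α : ℂ) (M : ℝ) : ℝ := 1 + 3 * M / ‖α‖

lemma RE_pos {α : ℂ} {M : ℝ} (hα : 0 < ‖α‖) (hM : 0 < M) : 1 < RE α M := by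
  unfold RE
  have : 0 < 3 * M / ‖α‖ := by positivity
  linarith

lemma Phi_succ_real' (L : ℕ) (α z : ℂ) (n : ℕ) (x : ℝ) :
    Phi L α z (n + 1) x = Phi L α z n x * (1 + α * cr L n x * (1 - Phi L α z n x)) := by
  rw [Phi_succ, cc_cr]
  ring

lemma Phi_succ_real'' (L : ℕ) (α z : ℂ) (n : ℕ) (x : ℝ) :
    1 - Phi L α z (n + 1) x = (1 - Phi L α z n x) * (1 - α * cr L n x * Phi L α z n x) := by
  rw [Phi_succ, cc_cr]
  ring

lemma escape {L : ℕ} {α z : ℂ} {M : ℝ} (hα : 0 < ‖α‖) (hM : 0 < M) {v : ℝ} (hv : v ∈ GE L M)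
    (hz : RE α M ≤ ‖z‖) (n : ℕ) : 2 ^ n * RE α M ≤ ‖Phi L α z n v‖ := by
  have hR := RE_pos hα hM
  induction n with
  | zero => simpa [Phi_zero] using hz
  | succ n ih =>
    rw [Phi_succ_real', norm_mul]
    have h1 : 1 / (M * 2 ^ n) ≤ |cr L n v| := hv n
    have h2 : ‖Phi L α z n v‖ - 1 ≤ ‖1 - Phi L α z n v‖ := by
      have := norm_sub_norm_le (Phi L α z n v) 1
      rw [norm_one] at this
      rw [norm_sub_rev]
      exact this
    have h3 : (1 : ℝ) ≤ 2 ^ n := one_le_pow₀ (by norm_num)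
    have h4 : 2 ^ n * (3 * M / ‖α‖) ≤ ‖Phi L α z n v‖ - 1 := by
      have : 2 ^ n * RE α M = 2 ^ n + 2 ^ n * (3 * M / ‖α‖) := by rw [RE]; ring
      linarith
    have h5 : 3 ≤ ‖α * cr L n v * (1 - Phi L α z n v)‖ := by
      rw [norm_mul, norm_mul, Complex.norm_real, Real.norm_eq_abs]
      calc (3 : ℝ) = ‖α‖ * (1 / (M * 2 ^ n)) * (2 ^ n * (3 * M / ‖α‖)) := by field_simp
        _ ≤ ‖α‖ * |cr L n v| * ‖1 - Phi L α z n v‖ := by
            gcongr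
            exact h4.trans h2
    have h6 : 2 ≤ ‖1 + α * cr L n v * (1 - Phi L α z n v)‖ := by
      have := norm_sub_norm_le (α * cr L n v * (1 - Phi L α z n v)) (-1)
      rw [norm_neg, norm_one, sub_neg_eq_add, add_comm _ (1 : ℂ)] at this
      linarith
    calc (2 : ℝ) ^ (n + 1) * RE α M = (2 ^ n * RE α M) * 2 := by ring
      _ ≤ ‖Phi L α z n v‖ * ‖1 + α * cr L n v * (1 - Phi L α z n v)‖ :=
          mul_le_mul ih h6 (by norm_num) (norm_nonneg _)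

/-- products of multipliers -/
noncomputable def Pr (L : ℕ) (α : ℂ) (n : ℕ) (v : ℝ) : ℝ :=
  ∏ k ∈ Finset.range n, ‖1 + α * (cr L k v : ℂ)‖

lemma Pr_succ (L : ℕ) (α : ℂ) (n : ℕ) (v : ℝ) :
    Pr L α (n + 1) v = Pr L α n v * ‖1 + α * (cr L n v : ℂ)‖ := by
  unfold Pr
  rw [Finset.prod_range_succ]

lemma Pr_nonneg (L : ℕ) (α : ℂ) (n : ℕ) (v : ℝ) : 0 ≤ Pr L α n v :=
  Finset.prod_nonneg fun _ _ => norm_nonneg _

/-- attraction-good base points -/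
def GS (L : ℕ) (α : ℂ) (θ C : ℝ) : Set ℝ :=
  {v | ∀ n : ℕ, Pr L α n v ≤ C * θ ^ n ∧ Pr L (-α) n v ≤ C * θ ^ n}

/-- attraction radius -/
noncomputable def rS (α : ℂ) (θ C : ℝ) : ℝ := (1 - ‖α‖) * (1 - θ) / (4 * C)

lemma rS_pos {α : ℂ} {θ C : ℝ} (hα : ‖α‖ < 1) (hθ : θ < 1) (hC : 0 < C) : 0 < rS α θ C := by
  unfold rS
  have h1 : 0 < 1 - ‖α‖ := by linarith
  have h2 : 0 < 1 - θ := by linarith
  positivity

/-- one-dimensional attraction for the recursion `y' = y (1 + β - β y)` -/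
lemma attract_aux {α : ℂ} (hα : ‖α‖ < 1) {θ C : ℝ} (hθ0 : 0 < θ) (hθ : θ < 1) (hC : 0 < C)
    {y : ℕ → ℂ} {c : ℕ → ℝ} (hc : ∀ n, |c n| ≤ 1)
    (hy : ∀ n, y (n + 1) = y n * (1 + α * c n * (1 - y n)))
    (hP : ∀ n, ∏ k ∈ Finset.range n, ‖1 + α * (c k : ℂ)‖ ≤ C * θ ^ n)
    (h0 : ‖y 0‖ ≤ rS α θ C) (n : ℕ) : ‖y n‖ ≤ 2 * C * θ ^ n * ‖y 0‖ := by
  have hδ : 0 < 1 - ‖α‖ := by linarith
  have hθ1 : 0 < 1 - θ := by linarith
  -- stronger induction
  have key : ∀ n, ‖y n‖ ≤ (∏ k ∈ Finset.range n, ‖1 + α * (c k : ℂ)‖) *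
      Real.exp ((∑ k ∈ Finset.range n, θ ^ k) * (2 * C * ‖y 0‖ / (1 - ‖α‖))) * ‖y 0‖ := by
    intro n
    induction n with
    | zero => simp
    | succ n ih =>
      have hgeom : ∑ k ∈ Finset.range n, θ ^ k ≤ 1 / (1 - θ) := by
        rw [← inv_eq_one_div]
        exact (Summable.sum_le_tsum _ (fun i _ => by positivity)
          (summable_geometric_of_lt_one hθ0.le hθ)).trans
          (le_of_eq (tsum_geometric_of_lt_one hθ0.le hθ))
      have hexp : Real.exp ((∑ k ∈ Finset.range n, θ ^ k) * (2 * C * ‖y 0‖ / (1 - ‖α‖))) ≤ 2 := by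
        have h1 : (∑ k ∈ Finset.range n, θ ^ k) * (2 * C * ‖y 0‖ / (1 - ‖α‖)) ≤ 1 / 2 := by
          calc (∑ k ∈ Finset.range n, θ ^ k) * (2 * C * ‖y 0‖ / (1 - ‖α‖))
              ≤ (1 / (1 - θ)) * (2 * C * rS α θ C / (1 - ‖α‖)) := by gcongr
            _ = 1 / 2 := by rw [rS]; field_simp; ring
        calc Real.exp _ ≤ Real.exp (1 / 2) := Real.exp_le_exp.2 h1
          _ ≤ Real.exp (Real.log 2) := by
              rw [Real.exp_le_exp]; linarith [Real.log_two_gt_d9]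
          _ = 2 := Real.exp_log (by norm_num)
      have hyn : ‖y n‖ ≤ 2 * C * ‖y 0‖ * θ ^ n := by
        refine ih.trans ?_
        calc (∏ k ∈ Finset.range n, ‖1 + α * (c k : ℂ)‖) *
            Real.exp ((∑ k ∈ Finset.range n, θ ^ k) * (2 * C * ‖y 0‖ / (1 - ‖α‖))) * ‖y 0‖
            ≤ (C * θ ^ n) * 2 * ‖y 0‖ := by
              gcongr
              exact hP n
          _ = _ := by ring
      have hβ : ‖α * (c n : ℂ)‖ ≤ ‖α‖ := by
        rw [norm_mul, Complex.norm_real, Real.norm_eq_abs]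
        nlinarith [hc n, norm_nonneg α, abs_nonneg (c n)]
      have hlow : 1 - ‖α‖ ≤ ‖1 + α * (c n : ℂ)‖ := by
        have := norm_sub_norm_le (1 : ℂ) (-(α * (c n : ℂ)))
        rw [norm_neg, norm_one, sub_neg_eq_add] at this
        linarith
      have hfac : ‖1 + α * c n * (1 - y n)‖ ≤ ‖1 + α * (c n : ℂ)‖ *
          Real.exp (θ ^ n * (2 * C * ‖y 0‖ / (1 - ‖α‖))) := by
        have h1 : 1 + α * c n * (1 - y n) = (1 + α * c n) - α * c n * y n := by ring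
        rw [h1]
        calc ‖(1 + α * c n) - α * c n * y n‖ ≤ ‖1 + α * (c n : ℂ)‖ + ‖α * c n * y n‖ :=
              norm_sub_le _ _
          _ ≤ ‖1 + α * (c n : ℂ)‖ + 1 * ‖y n‖ := by
              rw [norm_mul (α * (c n : ℂ))]
              gcongr
              linarith
          _ ≤ ‖1 + α * (c n : ℂ)‖ + ‖1 + α * (c n : ℂ)‖ *
              (θ ^ n * (2 * C * ‖y 0‖ / (1 - ‖α‖))) := by
              rw [one_mul]
              apply add_le_add le_rfl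
              calc ‖y n‖ ≤ 2 * C * ‖y 0‖ * θ ^ n := hyn
                _ = (1 - ‖α‖) * (θ ^ n * (2 * C * ‖y 0‖ / (1 - ‖α‖))) := by field_simp
                _ ≤ _ := by gcongr
          _ = ‖1 + α * (c n : ℂ)‖ * (θ ^ n * (2 * C * ‖y 0‖ / (1 - ‖α‖)) + 1) := by ring
          _ ≤ _ := by
              gcongr
              exact Real.add_one_le_exp _
      rw [hy n, norm_mul, Finset.prod_range_succ, Finset.sum_range_succ, add_mul, Real.exp_add]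
      calc ‖y n‖ * ‖1 + α * c n * (1 - y n)‖
          ≤ ((∏ k ∈ Finset.range n, ‖1 + α * (c k : ℂ)‖) *
            Real.exp ((∑ k ∈ Finset.range n, θ ^ k) * (2 * C * ‖y 0‖ / (1 - ‖α‖))) * ‖y 0‖) *
            (‖1 + α * (c n : ℂ)‖ * Real.exp (θ ^ n * (2 * C * ‖y 0‖ / (1 - ‖α‖)))) := by
            gcongr
        _ = _ := by ring
  have hgeom : ∑ k ∈ Finset.range n, θ ^ k ≤ 1 / (1 - θ) := by
    rw [← inv_eq_one_div]
    exact (Summable.sum_le_tsum _ (fun i _ => by positivity)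
      (summable_geometric_of_lt_one hθ0.le hθ)).trans
      (le_of_eq (tsum_geometric_of_lt_one hθ0.le hθ))
  have hexp : Real.exp ((∑ k ∈ Finset.range n, θ ^ k) * (2 * C * ‖y 0‖ / (1 - ‖α‖))) ≤ 2 := by
    have h1 : (∑ k ∈ Finset.range n, θ ^ k) * (2 * C * ‖y 0‖ / (1 - ‖α‖)) ≤ 1 / 2 := by
      calc (∑ k ∈ Finset.range n, θ ^ k) * (2 * C * ‖y 0‖ / (1 - ‖α‖))
          ≤ (1 / (1 - θ)) * (2 * C * rS α θ C / (1 - ‖α‖)) := by gcongr
        _ = 1 / 2 := by rw [rS]; field_simp; ring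
    calc Real.exp _ ≤ Real.exp (1 / 2) := Real.exp_le_exp.2 h1
      _ ≤ Real.exp (Real.log 2) := by
          rw [Real.exp_le_exp]; linarith [Real.log_two_gt_d9]
      _ = 2 := Real.exp_log (by norm_num)
  refine (key n).trans ?_
  calc (∏ k ∈ Finset.range n, ‖1 + α * (c k : ℂ)‖) *
      Real.exp ((∑ k ∈ Finset.range n, θ ^ k) * (2 * C * ‖y 0‖ / (1 - ‖α‖))) * ‖y 0‖
      ≤ (C * θ ^ n) * 2 * ‖y 0‖ := by
        gcongr
        exact hP n
    _ = _ := by ring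

lemma attract_zero {L : ℕ} {α z : ℂ} (hα : ‖α‖ < 1) {θ C : ℝ} (hθ0 : 0 < θ) (hθ : θ < 1)
    (hC : 0 < C) {v : ℝ} (hv : v ∈ GS L α θ C) (hz : ‖z‖ ≤ rS α θ C) (n : ℕ) :
    ‖Phi L α z n v‖ ≤ 2 * C * θ ^ n * ‖z‖ :=
  attract_aux hα hθ0 hθ hC (y := fun n => Phi L α z n v) (c := fun n => cr L n v)
    (fun n => cr_abs_le L n v) (fun n => Phi_succ_real' L α z n v) (fun n => (hv n).1) hz n

lemma attract_one {L : ℕ} {α z : ℂ} (hα : ‖α‖ < 1) {θ C : ℝ} (hθ0 : 0 < θ) (hθ : θ < 1)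
    (hC : 0 < C) {v : ℝ} (hv : v ∈ GS L α θ C) (hz : ‖1 - z‖ ≤ rS α θ C) (n : ℕ) :
    ‖1 - Phi L α z n v‖ ≤ 2 * C * θ ^ n * ‖1 - z‖ := by
  have h1 : ‖-α‖ < 1 := by rwa [norm_neg]
  have h2 : rS (-α) θ C = rS α θ C := by unfold rS; rw [norm_neg]
  refine attract_aux h1 hθ0 hθ hC (y := fun n => 1 - Phi L α z n v) (c := fun n => cr L n v)
    (fun n => cr_abs_le L n v) (fun n => ?_) (fun n => (hv n).2) (by rw [h2]; exact hz) n
  rw [Phi_succ_real'']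
  ring

end Pool.Agent.TH229.Kan
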