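import Pool.Agent.TH229.Kan.WLow

/-!
# The second core theorem: non-real parameter, large `g` infinitely often
-/

set_option autoImplicit false

namespace Pool.Agent.TH229.Kan

open Complex Filter Topology MeasureTheory

/-- the weighted energy at the first good level -/
lemma energy_first {L : ℕ} {α z : ℂ} (hL : 6 ≤ L) (hα : ‖α‖ ≤ 1) {u C ε0 : ℝ} {m j : ℕ}
    (hb : ∀ x0 : ℝ, |x0 - u| ≤ (1 / 2) / (L : ℝ) ^ m →
      ∀ x : ℂ, ‖x - x0‖ ≤ (1 / 2) / (L : ℝ) ^ (m + j) →
      NN (Phi L α z (m + j) x) ≤ Real.exp C) {a b : ℝ} (ha : a = u - 1 / 2 / (L : ℝ) ^ m)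
    (hbb : b = u + 1 / 2 / (L : ℝ) ^ m)
    (hu : ε0 ≤ ‖gg L α z (m + j) u‖) (hε : 0 < ε0) {r : ℝ} (hr : 0 < r) (hr4 : r ≤ 1 / 4)
    (hrε : 16 * Real.exp (2 * C) * r ≤ ε0) :
    α.im ^ 2 / (2 * (2 * (1 + 2 * Real.exp C)) ^ 2) * (ε0 ^ 2 / 4) *
        (r - |Real.sin (4 * Real.pi * r)| / (4 * Real.pi)) / 8 *
        ((1 / (L : ℝ) ^ m) ^ 3 / (L : ℝ) ^ j)
      ≤ TT L α z a b (m + j) +
        ∫ x in a..b, (x - a) * (b - x) * (cr L (m + j) x ^ 2 * (α * gg L α z (m + j) x).im ^ 2) := by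
  have hL6 : (6 : ℝ) ≤ L := by exact_mod_cast hL
  have hL0 : (0 : ℝ) < L := by linarith
  have hL1 : (1 : ℝ) ≤ L := by linarith
  set n := m + j with hn
  set w : ℝ := 1 / (L : ℝ) ^ m with hw
  have hw0 : 0 < w := by positivity
  have hba : b - a = w := by rw [ha, hbb, hw]; ring
  set N : ℝ := (L : ℝ) ^ n with hN
  have hN0 : 0 < N := by positivity
  have hNw : 1 / N ≤ w := by
    rw [hN, hw]
    have : (L : ℝ) ^ m ≤ (L : ℝ) ^ n := pow_le_pow_right₀ hL1 (by omega)
    gcongr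
  have hrN : r / N ≤ w / 4 := by
    calc r / N ≤ (1 / 4) / N := by gcongr
      _ = (1 / N) / 4 := by ring
      _ ≤ w / 4 := by linarith
  have hrN0 : 0 < r / N := by positivity
  have hau : a = u - w / 2 := by rw [ha, hw]; ring
  have hbu : b = u + w / 2 := by rw [hbb, hw]; ring
  have hNexp := hb u (by rw [sub_self, abs_zero]; positivity)
  have hc := cr_cont L n
  have hg : Continuous fun x : ℝ => (α * gg L α z n x).im :=
    Complex.continuous_im.comp (continuous_const.mul (gg_cont L α z n))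
  have hp : Continuous fun x : ℝ => (Phi L α z n x).im :=
    Complex.continuous_im.comp (Phi_real_cont L α z n)
  have hwt : Continuous fun x : ℝ => (x - a) * (b - x) := by fun_prop
  set F : ℝ → ℝ := fun x => (x - a) * (b - x) *
    ((Phi L α z n x).im ^ 2 + cr L n x ^ 2 * (α * gg L α z n x).im ^ 2) with hF
  have hFc : Continuous F := hwt.mul ((hp.pow 2).add ((hc.pow 2).mul (hg.pow 2)))
  have hsum : TT L α z a b n +
        ∫ x in a..b, (x - a) * (b - x) * (cr L n x ^ 2 * (α * gg L α z n x).im ^ 2)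
      = ∫ x in a..b, F x := by
    unfold TT
    rw [← intervalIntegral.integral_add]
    · apply intervalIntegral.integral_congr
      intro x _
      simp only [hF]
      ring
    · exact (hwt.mul (hp.pow 2)).intervalIntegrable _ _
    · exact (hwt.mul ((hc.pow 2).mul (hg.pow 2))).intervalIntegrable _ _
  rw [hsum]
  have hFnn : ∀ x ∈ Set.Icc a b, 0 ≤ F x := by
    intro x hx
    have h1 : 0 ≤ x - a := by linarith [hx.1]
    have h2 : 0 ≤ b - x := by linarith [hx.2]
    simp only [hF]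
    positivity
  set P : ℝ := α.im ^ 2 / (2 * (2 * (1 + 2 * Real.exp C)) ^ 2) with hP
  have hP0 : 0 ≤ P := by positivity
  -- restrict to the short interval
  have hmono : ∫ x in (u - r / N)..(u + r / N), F x ≤ ∫ x in a..b, F x := by
    apply intervalIntegral.integral_mono_interval
    · rw [hau]; linarith
    · linarith
    · rw [hbu]; linarith
    · rw [EventuallyLE, ae_restrict_iff' measurableSet_Ioc]
      filter_upwards with x hx
      exact hFnn x ⟨hx.1.le, hx.2⟩
    · exact hFc.intervalIntegrable _ _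
  refine le_trans ?_ hmono
  have hlow : ∫ x in (u - r / N)..(u + r / N), (w ^ 2 / 8 * P * (ε0 ^ 2 / 4)) *
      Real.cos (2 * Real.pi * (N * x)) ^ 2 ≤ ∫ x in (u - r / N)..(u + r / N), F x := by
    apply intervalIntegral.integral_mono_on (by linarith)
    · exact Continuous.intervalIntegrable (by fun_prop) _ _
    · exact hFc.intervalIntegrable _ _
    · intro x hx
      have hxu : |x - u| ≤ r / N := by
        rw [abs_le]
        constructor <;> linarith [hx.1, hx.2]
      have h1 := low_near (by omega) hNexp hu hr hr4 hrε hxu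
      have hpM : ‖Phi L α z n x‖ ≤ Real.exp C := by
        refine (norm_le_NN _).trans (hNexp x ?_)
        rw [← Complex.ofReal_sub, Complex.norm_real, Real.norm_eq_abs]
        refine hxu.trans ?_
        gcongr
        linarith
      have h2 := gg_sq_le (c := cr L n x) (Real.exp_pos C).le hα hpM (Real.abs_cos_le_one _)
      rw [← hP] at h2
      have h3 : w ^ 2 / 8 ≤ (x - a) * (b - x) := by
        rw [hau, hbu]
        have h4 := abs_le.1 hxu
        have h5 : (x - u) ^ 2 ≤ (w / 4) ^ 2 := by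
          apply sq_le_sq'
          · linarith [h4.1]
          · linarith [h4.2]
        nlinarith
      have h6 : (ε0 / 2) ^ 2 ≤ ‖Phi L α z n x * (1 - Phi L α z n x)‖ ^ 2 :=
        pow_le_pow_left₀ (by positivity) h1 2
      have h7 : P * (cr L n x ^ 2 * (ε0 / 2) ^ 2) ≤ (Phi L α z n x).im ^ 2 +
          cr L n x ^ 2 * (α * gg L α z n x).im ^ 2 := by
        refine le_trans ?_ h2
        gcongr
      have h8 : Real.cos (2 * Real.pi * (N * x)) = cr L n x := rfl
      rw [h8]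
      calc w ^ 2 / 8 * P * (ε0 ^ 2 / 4) * cr L n x ^ 2
          = w ^ 2 / 8 * (P * (cr L n x ^ 2 * (ε0 / 2) ^ 2)) := by ring
        _ ≤ ((x - a) * (b - x)) * ((Phi L α z n x).im ^ 2 +
          cr L n x ^ 2 * (α * gg L α z n x).im ^ 2) := by
            apply mul_le_mul h3 h7 (by positivity)
            have : 0 ≤ w ^ 2 / 8 := by positivity
            linarith
  refine le_trans ?_ hlow
  rw [intervalIntegral.integral_const_mul]
  have h9 := cos_sq_low hN0 r u
  have h10 : P * (ε0 ^ 2 / 4) * (r - |Real.sin (4 * Real.pi * r)| / (4 * Real.pi)) / 8 *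
        (w ^ 3 / (L : ℝ) ^ j)
      = (w ^ 2 / 8 * P * (ε0 ^ 2 / 4)) *
        ((r - |Real.sin (4 * Real.pi * r)| / (4 * Real.pi)) / N) := by
    have : N = (L : ℝ) ^ j / w := by
      rw [hN, hn, pow_add, hw]; field_simp
    rw [this]
    field_simp
  rw [h10]
  exact mul_le_mul_of_nonneg_left h9 (by positivity)

/-- the chain of weighted energies -/
lemma energy_chain {L : ℕ} {α z : ℂ} (hL : 6 ≤ L) (hα : ‖α‖ ≤ 1) {u C : ℝ} (hC : 0 ≤ C) {m k j0 : ℕ}
    (hb : ∀ j ≤ k, ∀ x0 : ℝ, |x0 - u| ≤ (1 / 2) / (L : ℝ) ^ m →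
      ∀ x : ℂ, ‖x - x0‖ ≤ (1 / 2) / (L : ℝ) ^ (m + j) →
      NN (Phi L α z (m + j) x) ≤ Real.exp C) {a b : ℝ} (ha : a = u - 1 / 2 / (L : ℝ) ^ m)
    (hbb : b = u + 1 / 2 / (L : ℝ) ^ m) (i : ℕ) (hi : j0 + i + 1 ≤ k) :
    TT L α z a b (m + j0) +
        (∫ x in a..b, (x - a) * (b - x) * (cr L (m + j0) x ^ 2 * (α * gg L α z (m + j0) x).im ^ 2))
      ≤ TT L α z a b (m + (j0 + i + 1)) +
        240 * Real.exp (K0 C) * (1 / (L : ℝ) ^ m) ^ 3 *
          (2 / (L : ℝ) ^ (2 * j0) - 2 / (L : ℝ) ^ (2 * (j0 + i + 1))) := by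
  have hL6 : (6 : ℝ) ≤ L := by exact_mod_cast hL
  have hL0 : (0 : ℝ) < L := by linarith
  set w : ℝ := 1 / (L : ℝ) ^ m with hw
  have hw0 : 0 < w := by positivity
  have hab : a ≤ b := by
    have : b - a = w := by rw [ha, hbb, hw]; ring
    linarith
  set D : ℝ := 240 * Real.exp (K0 C) * w ^ 3 with hD
  have hD0 : 0 < D := by positivity
  have hstep : ∀ l ≤ k, |2 * (∫ x in a..b, (x - a) * (b - x) *
        (cr L (m + l) x * ((Phi L α z (m + l) x).im * (α * gg L α z (m + l) x).im)))|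
        ≤ D / (L : ℝ) ^ (2 * l) := by
    intro l hl
    have h1 := wcross (l := l) hL hα hC (fun j hj => hb j (hj.trans hl)) ha hbb
    rw [abs_mul, abs_two]
    rw [← hw] at h1
    calc _ ≤ 2 * (120 * Real.exp (K0 C) * w ^ 3 / (L : ℝ) ^ (2 * l)) := by gcongr
      _ = _ := by rw [hD]; ring
  have hQ : ∀ n : ℕ, 0 ≤ ∫ x in a..b, (x - a) * (b - x) *
      (cr L n x ^ 2 * (α * gg L α z n x).im ^ 2) := by
    intro n
    apply intervalIntegral.integral_nonneg hab
    intro x hx
    have h1 : 0 ≤ x - a := by linarith [hx.1]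
    have h2 : 0 ≤ b - x := by linarith [hx.2]
    positivity
  have hgeo : ∀ l : ℕ, 1 / (L : ℝ) ^ (2 * l) + 2 / (L : ℝ) ^ (2 * (l + 1)) ≤ 2 / (L : ℝ) ^ (2 * l) := by
    intro l
    have h1 : (L : ℝ) ^ (2 * (l + 1)) = (L : ℝ) ^ (2 * l) * (L : ℝ) ^ 2 := by
      rw [← pow_add]; ring_nf
    rw [h1]
    have h2 : (36 : ℝ) ≤ (L : ℝ) ^ 2 := by nlinarith
    have h3 : (0 : ℝ) < (L : ℝ) ^ (2 * l) := by positivity
    have h4 : 2 / ((L : ℝ) ^ (2 * l) * (L : ℝ) ^ 2) ≤ 1 / (L : ℝ) ^ (2 * l) := by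
      rw [div_le_div_iff₀ (by positivity) h3]
      nlinarith
    have h5 : 2 / (L : ℝ) ^ (2 * l) = 1 / (L : ℝ) ^ (2 * l) + 1 / (L : ℝ) ^ (2 * l) := by ring
    linarith
  induction i with
  | zero =>
    have h1 := energy_im L α z (m + j0) a b
    have h2 := abs_le.1 (hstep j0 (by omega))
    have h3 := hgeo j0
    simp only [add_zero]
    rw [← add_assoc]
    rw [h1]
    have h4 : D / (L : ℝ) ^ (2 * j0) ≤
        D * (2 / (L : ℝ) ^ (2 * j0) - 2 / (L : ℝ) ^ (2 * (j0 + 1))) := by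
      rw [div_eq_mul_one_div]
      exact mul_le_mul_of_nonneg_left (by linarith) hD0.le
    linarith [h2.1]
  | succ i ih =>
    have h0 := ih (by omega)
    have h1 := energy_im L α z (m + (j0 + i + 1)) a b
    have h2 := abs_le.1 (hstep (j0 + i + 1) (by omega))
    have h3 := hgeo (j0 + i + 1)
    have h5 := hQ (m + (j0 + i + 1))
    have h6 : m + (j0 + (i + 1) + 1) = m + (j0 + i + 1) + 1 := by ring
    have h7 : j0 + (i + 1) + 1 = j0 + i + 1 + 1 := by ring
    rw [h6, h7, h1]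
    have h4 : D / (L : ℝ) ^ (2 * (j0 + i + 1)) ≤
        D * (2 / (L : ℝ) ^ (2 * (j0 + i + 1)) - 2 / (L : ℝ) ^ (2 * (j0 + i + 1 + 1))) := by
      rw [div_eq_mul_one_div]
      exact mul_le_mul_of_nonneg_left (by linarith) hD0.le
    have h8 : D * (2 / (L : ℝ) ^ (2 * j0) - 2 / (L : ℝ) ^ (2 * (j0 + i + 1 + 1)))
        = D * (2 / (L : ℝ) ^ (2 * j0) - 2 / (L : ℝ) ^ (2 * (j0 + i + 1)))
          + D * (2 / (L : ℝ) ^ (2 * (j0 + i + 1)) - 2 / (L : ℝ) ^ (2 * (j0 + i + 1 + 1))) := by ring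
    rw [h8]
    linarith [h2.1]

/-- the weighted energy is small when `c g` is small -/
lemma energy_last {L : ℕ} {α z : ℂ} (hL : 6 ≤ L) {u C : ℝ} {m i : ℕ}
    (hb : ∀ x0 : ℝ, |x0 - u| ≤ (1 / 2) / (L : ℝ) ^ m →
      ∀ x : ℂ, ‖x - x0‖ ≤ (1 / 2) / (L : ℝ) ^ (m + i) →
      NN (Phi L α z (m + i) x) ≤ Real.exp C) {a b : ℝ} (ha : a = u - 1 / 2 / (L : ℝ) ^ m)
    (hbb : b = u + 1 / 2 / (L : ℝ) ^ m) {η τ : ℝ} (hτ : 0 < τ)
    (hη : ∫ x in a..b, cr L (m + i) x ^ 2 * ‖gg L α z (m + i) x‖ ^ 2 ≤ (1 / (L : ℝ) ^ m) * η) :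
    TT L α z a b (m + i) ≤ (1 / (L : ℝ) ^ m) ^ 3 * (η / τ ^ 2 + 4 * Real.exp (4 * C) * τ) := by
  have hL6 : (6 : ℝ) ≤ L := by exact_mod_cast hL
  have hL0 : (0 : ℝ) < L := by linarith
  set n := m + i with hn
  set w : ℝ := 1 / (L : ℝ) ^ m with hw
  have hw0 : 0 < w := by positivity
  have hba : b - a = w := by rw [ha, hbb, hw]; ring
  have hab : a ≤ b := by linarith
  have hau : a = u - w / 2 := by rw [ha, hw]; ring
  have hbu : b = u + w / 2 := by rw [hbb, hw]; ring
  have hc := cr_cont L n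
  have hgc := gg_cont L α z n
  have hp : Continuous fun x : ℝ => (Phi L α z n x).im :=
    Complex.continuous_im.comp (Phi_real_cont L α z n)
  set B : Set ℝ := {y : ℝ | |Real.cos (2 * Real.pi * y)| < τ} with hB
  have hBm : MeasurableSet B := by
    apply IsOpen.measurableSet
    apply isOpen_lt _ continuous_const
    fun_prop
  have hBp : ∀ x, x + 1 ∈ B ↔ x ∈ B := fun y => by
    change |Real.cos (2 * Real.pi * (y + 1))| < _ ↔ |Real.cos (2 * Real.pi * y)| < _
    rw [mul_add, mul_one, Real.cos_add_two_pi]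
  have hBv := volume_periodic_scale hBm hBp a ((L : ℝ) ^ n) (by positivity) (L ^ i)
  have hlen : ((L ^ i : ℕ) : ℝ) / (L : ℝ) ^ n = w := by
    rw [hn, pow_add, hw]; push_cast; field_simp
  rw [hlen] at hBv
  set S : Set ℝ := {x : ℝ | (L : ℝ) ^ n * x ∈ B} with hS
  have hSm : MeasurableSet S := (measurable_const_mul _) hBm
  have hind : IntervalIntegrable (S.indicator fun _ : ℝ => (1 : ℝ)) volume a b := by
    refine (intervalIntegrable_const (c := (1 : ℝ))).mono_fun
      (measurable_const.indicator hSm).aestronglyMeasurable ?_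
    filter_upwards with x
    by_cases hx : x ∈ S
    · rw [Set.indicator_of_mem hx]
    · rw [Set.indicator_of_notMem hx]; simp
  have hindv : ∫ x in a..b, (S.indicator fun _ : ℝ => (1 : ℝ)) x ≤ w * τ := by
    rw [intervalIntegral.integral_of_le hab, integral_indicator hSm, setIntegral_const,
      smul_eq_mul, mul_one, Measure.real, Measure.restrict_apply hSm]
    apply ENNReal.toReal_le_of_le_ofReal (by positivity)
    have h1 : volume (S ∩ Set.Ioc a b) ≤
        volume {x | x ∈ Set.Icc a (a + w) ∧ (L : ℝ) ^ n * x ∈ B} := by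
      apply measure_mono
      rintro x ⟨hx1, hx2⟩
      exact ⟨⟨hx2.1.le, by linarith [hx2.2]⟩, hx1⟩
    refine h1.trans ?_
    rw [hBv, ENNReal.ofReal_mul hw0.le]
    gcongr
    exact cos_meas hτ
  have hpt : ∀ x ∈ Set.Icc a b, (x - a) * (b - x) * (Phi L α z n x).im ^ 2 ≤
      w ^ 2 * (1 / τ ^ 2 * (cr L n x ^ 2 * ‖gg L α z n x‖ ^ 2) +
        4 * Real.exp (4 * C) * (S.indicator fun _ : ℝ => (1 : ℝ)) x) := by
    intro x hx
    have h1 : 0 ≤ x - a := by linarith [hx.1]
    have h2 : 0 ≤ b - x := by linarith [hx.2]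
    have h3 : (x - a) * (b - x) ≤ w ^ 2 / 4 := by
      have : b - x = w - (x - a) := by linarith
      rw [this]
      nlinarith [sq_nonneg (x - a - w / 2)]
    have h4 : (Phi L α z n x).im ^ 2 ≤ 4 * ‖gg L α z n x‖ ^ 2 := by
      have h5 := im_le_gg (Phi L α z n x)
      have h6 : |(Phi L α z n x).im| ^ 2 ≤ (2 * ‖Phi L α z n x * (1 - Phi L α z n x)‖) ^ 2 :=
        pow_le_pow_left₀ (abs_nonneg _) h5 2
      rw [sq_abs] at h6
      unfold gg
      linarith
    have h7 : ‖gg L α z n x‖ ^ 2 ≤ 1 / τ ^ 2 * (cr L n x ^ 2 * ‖gg L α z n x‖ ^ 2) +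
        4 * Real.exp (4 * C) * (S.indicator fun _ : ℝ => (1 : ℝ)) x := by
      by_cases hxS : x ∈ S
      · rw [Set.indicator_of_mem hxS]
        have h8 : ‖gg L α z n x‖ ≤ 2 * Real.exp (2 * C) := by
          have h9 := hb x (by
            rw [abs_le]
            constructor <;> linarith [hx.1, hx.2]) (x : ℂ) (by
              rw [sub_self, norm_zero]; positivity)
          have h10 := norm_le_NN (Phi L α z n x)
          have h11 := one_sub_NN (Phi L α z n x)
          have h12 : Real.exp (2 * C) = Real.exp C * Real.exp C := by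
            rw [← Real.exp_add]; ring_nf
          unfold gg
          rw [norm_mul]
          have hE := Real.exp_pos C
          calc ‖Phi L α z n x‖ * ‖1 - Phi L α z n x‖ ≤ Real.exp C * (2 * Real.exp C) := by
                gcongr
                · exact h10.trans h9
                · exact h11.trans (by linarith)
            _ = _ := by rw [h12]; ring
        have h13 : ‖gg L α z n x‖ ^ 2 ≤ (2 * Real.exp (2 * C)) ^ 2 :=
          pow_le_pow_left₀ (norm_nonneg _) h8 2
        have h14 : (2 * Real.exp (2 * C)) ^ 2 = 4 * Real.exp (4 * C) := by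
          rw [mul_pow, ← Real.exp_nat_mul]
          norm_num
          ring_nf
        have h15 : 0 ≤ 1 / τ ^ 2 * (cr L n x ^ 2 * ‖gg L α z n x‖ ^ 2) := by positivity
        linarith
      · rw [Set.indicator_of_notMem hxS, mul_zero, add_zero]
        have h8 : τ ≤ |cr L n x| := by
          by_contra hcon
          push Not at hcon
          exact hxS hcon
        have h9 : τ ^ 2 ≤ cr L n x ^ 2 := by
          rw [← sq_abs (cr L n x)]
          exact pow_le_pow_left₀ hτ.le h8 2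
        rw [one_div_mul_eq_div, le_div_iff₀ (by positivity), mul_comm]
        gcongr
    calc (x - a) * (b - x) * (Phi L α z n x).im ^ 2
        ≤ (w ^ 2 / 4) * (4 * ‖gg L α z n x‖ ^ 2) := by
          apply mul_le_mul h3 h4 (by positivity) (by positivity)
      _ = w ^ 2 * ‖gg L α z n x‖ ^ 2 := by ring
      _ ≤ _ := by gcongr
  have i1 : IntervalIntegrable (fun x : ℝ => 1 / τ ^ 2 * (cr L n x ^ 2 * ‖gg L α z n x‖ ^ 2))
      volume a b :=
    (continuous_const.mul ((hc.pow 2).mul (hgc.norm.pow 2))).intervalIntegrable _ _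
  have hmono : TT L α z a b n ≤ ∫ x in a..b, w ^ 2 * (1 / τ ^ 2 *
      (cr L n x ^ 2 * ‖gg L α z n x‖ ^ 2) +
        4 * Real.exp (4 * C) * (S.indicator fun _ : ℝ => (1 : ℝ)) x) := by
    unfold TT
    apply intervalIntegral.integral_mono_on hab
    · exact Continuous.intervalIntegrable (by fun_prop) _ _
    · exact (i1.add (hind.const_mul _)).const_mul _
    · exact hpt
  refine hmono.trans ?_
  rw [intervalIntegral.integral_const_mul, intervalIntegral.integral_add i1 (hind.const_mul _),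
    intervalIntegral.integral_const_mul, intervalIntegral.integral_const_mul]
  calc w ^ 2 * (1 / τ ^ 2 * (∫ x in a..b, cr L n x ^ 2 * ‖gg L α z n x‖ ^ 2) +
        4 * Real.exp (4 * C) * ∫ x in a..b, (S.indicator fun _ : ℝ => (1 : ℝ)) x)
      ≤ w ^ 2 * (1 / τ ^ 2 * (w * η) + 4 * Real.exp (4 * C) * (w * τ)) := by gcongr
    _ = _ := by ring

end Pool.Agent.TH229.Kan
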