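import Pool.Agent.TH229.Kan.Energy

/-!
# Uniform strip bounds and weighted decorrelation
-/

set_option autoImplicit false

namespace Pool.Agent.TH229.Kan

open Complex Filter Topology MeasureTheory

/-- constant of the uniform strip bound -/
noncomputable def K0 (C : ℝ) : ℝ :=
  3 * (C + Real.log 3) + 4 * (3 * (C + Real.log 3)) ^ 2 / (Real.pi / 8)

lemma K0_spec {C : ℝ} (hC : 0 ≤ C) {L : ℕ} (hL : 6 ≤ L) (q : ℕ) :
    3 * (2 ^ (q + 1) * (C + Real.log 3)) ≤ K0 C + Real.pi / 8 * (L : ℝ) ^ q := by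
  have hlog : 0 ≤ Real.log 3 := Real.log_nonneg (by norm_num)
  set a : ℝ := 3 * (C + Real.log 3) with ha
  have ha0 : 0 ≤ a := by positivity
  have hpi := Real.pi_pos
  set b : ℝ := Real.pi / 8 with hb
  have hb0 : 0 < b := by positivity
  have h1 : (2 : ℝ) ^ q * 3 ^ q ≤ (L : ℝ) ^ q := by
    rw [← mul_pow]
    apply pow_le_pow_left₀ (by norm_num)
    have : (6 : ℝ) ≤ L := by exact_mod_cast hL
    linarith
  have h2 : (1 : ℝ) ≤ 2 ^ q := one_le_pow₀ (by norm_num)
  have h3 : (2 : ℝ) ^ q ≤ 3 ^ q := pow_le_pow_left₀ (by norm_num) (by norm_num) q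
  have hK : K0 C = a + 4 * a ^ 2 / b := rfl
  have h4 : 3 * (2 ^ (q + 1) * (C + Real.log 3)) = a * (2 * 2 ^ q) := by rw [ha]; ring
  rw [h4, hK]
  have h5 : 0 ≤ 4 * a ^ 2 / b := by positivity
  rcases le_or_gt (2 * a) (b * 3 ^ q) with h | h
  · have h6 : 2 * a * 2 ^ q ≤ b * 3 ^ q * 2 ^ q := by gcongr
    have h7 : b * (2 ^ q * 3 ^ q) ≤ b * (L : ℝ) ^ q := by gcongr
    nlinarith
  · have h6 : (3 : ℝ) ^ q < 2 * a / b := by
      rw [lt_div_iff₀ hb0]; linarith
    have h7 : a * (2 * 2 ^ q) ≤ a * (2 * (2 * a / b)) := by gcongr; linarith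
    have h8 : a * (2 * (2 * a / b)) = 4 * a ^ 2 / b := by ring
    have h9 : 0 ≤ b * (L : ℝ) ^ q := by positivity
    linarith

lemma strip_unif {L : ℕ} {α z : ℂ} (hL : 6 ≤ L) (hα : ‖α‖ ≤ 1) {u C : ℝ} (hC : 0 ≤ C) {m l : ℕ}
    (hb : ∀ j ≤ l, ∀ x0 : ℝ, |x0 - u| ≤ (1 / 2) / (L : ℝ) ^ m →
      ∀ x : ℂ, ‖x - x0‖ ≤ (1 / 2) / (L : ℝ) ^ (m + j) →
      NN (Phi L α z (m + j) x) ≤ Real.exp C)
    {x : ℂ} (hx1 : |x.re - u| ≤ (1 / 2) / (L : ℝ) ^ m) (hx2 : |x.im| ≤ (1 / 2) / (L : ℝ) ^ m) :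
    ∃ E : ℝ, NN (Phi L α z (m + l) x) ≤ Real.exp E ∧
      NN (Phi L α z (m + l) (starRingEnd ℂ x)) ≤ Real.exp E ∧
      3 * E ≤ K0 C + 7 * Real.pi / 4 * ((L : ℝ) ^ (m + l) * |x.im|) := by
  have hL6 : (6 : ℝ) ≤ L := by exact_mod_cast hL
  have hL0 : (0 : ℝ) < L := by linarith
  have hL2 : (0 : ℝ) < (L : ℝ) - 2 := by linarith
  have hpi := Real.pi_pos
  have hτ : 2 * Real.pi / ((L : ℝ) - 2) ≤ Real.pi / 2 := by
    rw [div_le_div_iff₀ hL2 (by norm_num)]
    nlinarith
  set Y : ℝ := (L : ℝ) ^ (m + l) * |x.im| with hY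
  have hY0 : 0 ≤ Y := by positivity
  have hYl : Y ≤ 1 / 2 * (L : ℝ) ^ l := by
    rw [hY]
    calc (L : ℝ) ^ (m + l) * |x.im| ≤ (L : ℝ) ^ (m + l) * ((1 / 2) / (L : ℝ) ^ m) := by gcongr
      _ = 1 / 2 * (L : ℝ) ^ l := by rw [pow_add]; field_simp
  have hex : ∃ q, Y ≤ 1 / 2 * (L : ℝ) ^ q := ⟨l, hYl⟩
  classical
  set q := Nat.find hex with hq
  have hqs : Y ≤ 1 / 2 * (L : ℝ) ^ q := Nat.find_spec hex
  have hql : q ≤ l := Nat.find_min' hex hYl
  have hyq : |x.im| ≤ (1 / 2) * (L : ℝ) ^ q / (L : ℝ) ^ (m + l) := by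
    rw [le_div_iff₀ (by positivity)]
    calc |x.im| * (L : ℝ) ^ (m + l) = Y := by rw [hY]; ring
      _ ≤ _ := hqs
  have h1 := strip_bound hL hα hql (hb (l - q) (by omega)) hx1 hyq
  have h2 := strip_bound (x := starRingEnd ℂ x) hL hα hql (hb (l - q) (by omega))
    (by simpa using hx1) (by rw [Complex.conj_im, abs_neg]; exact hyq)
  have him : |(starRingEnd ℂ x).im| = |x.im| := by simp
  rw [him] at h2
  refine ⟨_, h1, h2, ?_⟩
  have hgoal : 3 * (2 ^ q * (C + Real.log 3)) ≤ K0 C + Real.pi / 4 * Y := by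
    rcases Nat.eq_zero_or_pos q with h0 | h0
    · rw [h0]
      have hlog : 0 ≤ Real.log 3 := Real.log_nonneg (by norm_num)
      have h5 : 0 ≤ 4 * (3 * (C + Real.log 3)) ^ 2 / (Real.pi / 8) := by positivity
      have h6 : 0 ≤ Real.pi / 4 * Y := by positivity
      unfold K0
      linarith
    · obtain ⟨p, hp⟩ : ∃ p, q = p + 1 := ⟨q - 1, by omega⟩
      have h3 := Nat.find_min hex (m := p) (by omega)
      push Not at h3
      have h4 := K0_spec hC hL p
      rw [hp]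
      nlinarith
  have h7 : 2 * Real.pi / ((L : ℝ) - 2) * (L : ℝ) ^ (m + l) * |x.im| ≤ Real.pi / 2 * Y := by
    rw [hY]
    calc 2 * Real.pi / ((L : ℝ) - 2) * (L : ℝ) ^ (m + l) * |x.im|
        ≤ Real.pi / 2 * (L : ℝ) ^ (m + l) * |x.im| := by gcongr
      _ = _ := by ring
  linarith

/-- the weighted contour shift -/
lemma wcross_abstract {A : ℂ → ℂ} (hA : Differentiable ℂ A) {a b ω K ν : ℝ} (hab : a < b)
    (hν : 0 < ν) (hK : 0 ≤ K)
    (hbd : ∀ x ∈ Set.Icc a b, ∀ y ∈ Set.Icc 0 ((b - a) / 2),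
      ‖Complex.exp (I * ω * ((x : ℂ) + y * I)) * A ((x : ℂ) + y * I)‖ ≤ K * Real.exp (-(ν * y))) :
    ‖∫ x in a..b, Complex.exp (I * ω * x) * (((x : ℂ) - a) * (b - x)) * A x‖
      ≤ 9 / 4 * (b - a) ^ 3 * K * Real.exp (-(ν * ((b - a) / 2))) + 12 * (b - a) * K / ν ^ 2 := by
  set w : ℝ := b - a with hw
  have hw0 : 0 < w := sub_pos.2 hab
  set h : ℝ := w / 2 with hh
  have hh0 : 0 < h := by positivity
  set f : ℂ → ℂ := fun s => Complex.exp (I * ω * s) * ((s - a) * (b - s)) * A s with hf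
  have hfd : Differentiable ℂ f := by
    apply Differentiable.mul _ hA
    fun_prop
  have hrect := Complex.integral_boundary_rect_eq_zero_of_differentiableOn f (a : ℂ)
    ((b : ℂ) + h * I) hfd.differentiableOn
  simp only [Complex.ofReal_re, Complex.ofReal_im, Complex.add_re, Complex.mul_re, Complex.I_re,
    Complex.I_im, Complex.add_im, Complex.mul_im, mul_zero, mul_one, zero_add, add_zero,
    sub_self, Complex.ofReal_zero, zero_mul, smul_eq_mul] at hrect
  have hnf : ∀ s : ℂ, ‖f s‖ = ‖s - a‖ * ‖b - s‖ * ‖Complex.exp (I * ω * s) * A s‖ := by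
    intro s
    simp only [hf, norm_mul]
    ring
  have h1 : ‖∫ x in a..b, f ((x : ℂ) + h * I)‖
      ≤ (9 / 4 * w ^ 2 * (K * Real.exp (-(ν * h)))) * |b - a| := by
    apply intervalIntegral.norm_integral_le_of_norm_le_const
    intro x hx
    rw [Set.uIoc_of_le hab.le] at hx
    rw [hnf]
    have e1 : ‖((x : ℂ) + h * I) - a‖ ≤ 3 / 2 * w := by
      have : ((x : ℂ) + h * I) - a = ((x - a : ℝ) : ℂ) + (h : ℂ) * I := by push_cast; ring
      rw [this]
      refine (norm_add_le _ _).trans ?_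
      rw [norm_mul, Complex.norm_I, mul_one, Complex.norm_real, Complex.norm_real,
        Real.norm_eq_abs, Real.norm_eq_abs, abs_of_pos hh0, abs_of_pos (by linarith [hx.1])]
      linarith [hx.2]
    have e2 : ‖(b : ℂ) - ((x : ℂ) + h * I)‖ ≤ 3 / 2 * w := by
      have : (b : ℂ) - ((x : ℂ) + h * I) = ((b - x : ℝ) : ℂ) - (h : ℂ) * I := by push_cast; ring
      rw [this]
      refine (norm_sub_le _ _).trans ?_
      rw [norm_mul, Complex.norm_I, mul_one, Complex.norm_real, Complex.norm_real,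
        Real.norm_eq_abs, Real.norm_eq_abs, abs_of_pos hh0, abs_of_nonneg (by linarith [hx.2])]
      linarith [hx.1]
    have e3 := hbd x ⟨hx.1.le, hx.2⟩ h ⟨hh0.le, le_rfl⟩
    calc ‖((x : ℂ) + h * I) - a‖ * ‖(b : ℂ) - ((x : ℂ) + h * I)‖ *
          ‖Complex.exp (I * ω * ((x : ℂ) + h * I)) * A ((x : ℂ) + h * I)‖
        ≤ (3 / 2 * w) * (3 / 2 * w) * (K * Real.exp (-(ν * h))) := by gcongr
      _ = _ := by ring
  have hint : ∫ y in (0 : ℝ)..h, Real.exp (-(ν / 2) * y) ≤ 2 / ν := by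
    have hd : ∀ y ∈ Set.uIcc 0 h, HasDerivAt (fun y : ℝ => -(2 / ν) * Real.exp (-(ν / 2) * y))
        (Real.exp (-(ν / 2) * y)) y := by
      intro y _
      have h2 : HasDerivAt (fun y : ℝ => -(ν / 2) * y) (-(ν / 2)) y := by
        simpa using (hasDerivAt_id y).const_mul (-(ν / 2))
      have h3 := (h2.exp).const_mul (-(2 / ν))
      have h5 : -(2 / ν) * (Real.exp (-(ν / 2) * y) * -(ν / 2)) = Real.exp (-(ν / 2) * y) := by
        field_simp
      rw [h5] at h3
      exact h3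
    rw [intervalIntegral.integral_eq_sub_of_hasDerivAt hd
      (Continuous.intervalIntegrable (by fun_prop) _ _)]
    simp only [mul_zero, Real.exp_zero, mul_one]
    have : 0 < 2 / ν * Real.exp (-(ν / 2) * h) := by positivity
    linarith
  have hside : ∀ c : ℝ, (c = a ∨ c = b) →
      ‖∫ y in (0 : ℝ)..h, f ((c : ℂ) + y * I)‖ ≤ 6 * w * K / ν ^ 2 := by
    intro c hc
    have hgi : IntervalIntegrable (fun y : ℝ => 3 / 2 * w * K * (2 / ν) *
        Real.exp (-(ν / 2) * y)) volume 0 h := Continuous.intervalIntegrable (by fun_prop) _ _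
    have h4 := intervalIntegral.norm_integral_le_of_norm_le hh0.le
      (f := fun y : ℝ => f ((c : ℂ) + y * I))
      (g := fun y : ℝ => 3 / 2 * w * K * (2 / ν) * Real.exp (-(ν / 2) * y)) (by
        filter_upwards with y hy
        have hy1 : 0 ≤ y := hy.1.le
        have hy2 : y ≤ h := hy.2
        rw [hnf]
        have hP : ‖((c : ℂ) + y * I) - a‖ * ‖(b : ℂ) - ((c : ℂ) + y * I)‖ ≤ y * (3 / 2 * w) := by
          rcases hc with rfl | rfl
          · have e1 : ((c : ℂ) + y * I) - c = (y : ℂ) * I := by ring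
            have e2 : (b : ℂ) - ((c : ℂ) + y * I) = ((b - c : ℝ) : ℂ) - (y : ℂ) * I := by
              push_cast; ring
            rw [e1, e2, norm_mul, Complex.norm_I, mul_one, Complex.norm_real, Real.norm_eq_abs,
              abs_of_nonneg hy1]
            apply mul_le_mul_of_nonneg_left _ hy1
            refine (norm_sub_le _ _).trans ?_
            rw [norm_mul, Complex.norm_I, mul_one, Complex.norm_real, Complex.norm_real,
              Real.norm_eq_abs, Real.norm_eq_abs, abs_of_nonneg hy1, abs_of_pos (by linarith)]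
            linarith
          · have e1 : (c : ℂ) - ((c : ℂ) + y * I) = -((y : ℂ) * I) := by ring
            have e2 : ((c : ℂ) + y * I) - (a : ℂ) = ((c - a : ℝ) : ℂ) + (y : ℂ) * I := by
              push_cast; ring
            rw [e1, e2, norm_neg, norm_mul (y : ℂ) I, Complex.norm_I, mul_one,
              Complex.norm_real y, Real.norm_eq_abs, abs_of_nonneg hy1, mul_comm]
            apply mul_le_mul_of_nonneg_left _ hy1
            refine (norm_add_le _ _).trans ?_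
            rw [norm_mul, Complex.norm_I, mul_one, Complex.norm_real, Complex.norm_real,
              Real.norm_eq_abs, Real.norm_eq_abs, abs_of_nonneg hy1, abs_of_pos (by linarith)]
            linarith
        have hcm : c ∈ Set.Icc a b := by
          rcases hc with rfl | rfl
          · exact ⟨le_rfl, hab.le⟩
          · exact ⟨hab.le, le_rfl⟩
        have e3 := hbd c hcm y ⟨hy1, hy2⟩
        have e4 : y ≤ 2 / ν * Real.exp (ν / 2 * y) := by
          have := Real.add_one_le_exp (ν / 2 * y)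
          have h5 : y = 2 / ν * (ν / 2 * y) := by field_simp
          calc y = 2 / ν * (ν / 2 * y) := h5
            _ ≤ 2 / ν * Real.exp (ν / 2 * y) := by
                gcongr
                linarith
        have e5 : Real.exp (ν / 2 * y) * Real.exp (-(ν * y)) = Real.exp (-(ν / 2) * y) := by
          rw [← Real.exp_add]; ring_nf
        calc ‖((c : ℂ) + y * I) - a‖ * ‖(b : ℂ) - ((c : ℂ) + y * I)‖ *
              ‖Complex.exp (I * ω * ((c : ℂ) + y * I)) * A ((c : ℂ) + y * I)‖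
            ≤ (y * (3 / 2 * w)) * (K * Real.exp (-(ν * y))) := by gcongr
          _ ≤ ((2 / ν * Real.exp (ν / 2 * y)) * (3 / 2 * w)) * (K * Real.exp (-(ν * y))) := by
              gcongr
          _ = 3 / 2 * w * K * (2 / ν) * (Real.exp (ν / 2 * y) * Real.exp (-(ν * y))) := by ring
          _ = _ := by rw [e5]) hgi
    refine h4.trans ?_
    rw [intervalIntegral.integral_const_mul]
    calc 3 / 2 * w * K * (2 / ν) * ∫ y in (0 : ℝ)..h, Real.exp (-(ν / 2) * y)
        ≤ 3 / 2 * w * K * (2 / ν) * (2 / ν) := by gcongr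
      _ = 6 * w * K / ν ^ 2 := by field_simp; ring
  have ha := hside a (Or.inl rfl)
  have hb := hside b (Or.inr rfl)
  have heq : ∫ x in a..b, f x = (∫ x in a..b, f ((x : ℂ) + h * I))
      - I * (∫ y in (0 : ℝ)..h, f ((b : ℂ) + y * I)) + I * (∫ y in (0 : ℝ)..h, f ((a : ℂ) + y * I)) := by
    linear_combination hrect
  change ‖∫ x in a..b, f x‖ ≤ _
  rw [heq]
  rw [← hw, abs_of_pos hw0] at h1
  calc ‖(∫ x in a..b, f ((x : ℂ) + h * I))
      - I * (∫ y in (0 : ℝ)..h, f ((b : ℂ) + y * I)) + I * (∫ y in (0 : ℝ)..h, f ((a : ℂ) + y * I))‖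
      ≤ ‖∫ x in a..b, f ((x : ℂ) + h * I)‖ + ‖I * (∫ y in (0 : ℝ)..h, f ((b : ℂ) + y * I))‖
        + ‖I * (∫ y in (0 : ℝ)..h, f ((a : ℂ) + y * I))‖ :=
        (norm_add_le _ _).trans (add_le_add_left (norm_sub_le _ _) _)
    _ ≤ (9 / 4 * w ^ 2 * (K * Real.exp (-(ν * h)))) * w + 6 * w * K / ν ^ 2 + 6 * w * K / ν ^ 2 := by
        rw [norm_mul, norm_mul, Complex.norm_I, one_mul, one_mul]
        exact add_le_add (add_le_add h1 hb) ha
    _ = _ := by ring

end Pool.Agent.TH229.Kan
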