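import Pool.Agent.TH229.Kan.WCross

/-!
# The weighted energy of the imaginary part
-/

set_option autoImplicit false

namespace Pool.Agent.TH229.Kan

open Complex Filter Topology MeasureTheory

/-- entire extension of `-4 Im Φ Im (α g)` -/
noncomputable def BB (L : ℕ) (α z : ℂ) (n : ℕ) (x : ℂ) : ℂ :=
  (Phi L α z n x - PhiS L α z n x) *
    (α * (Phi L α z n x * (1 - Phi L α z n x)) -
      starRingEnd ℂ α * (PhiS L α z n x * (1 - PhiS L α z n x)))

lemma BB_diff (L : ℕ) (α z : ℂ) (n : ℕ) : Differentiable ℂ (BB L α z n) := by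
  have h1 := Phi_diff L α z n
  have h2 : Differentiable ℂ (PhiS L α z n) := Phi_diff L (starRingEnd ℂ α) (starRingEnd ℂ z) n
  exact (h1.sub h2).mul (((h1.mul ((differentiable_const 1).sub h1)).const_mul α).sub
    ((h2.mul ((differentiable_const 1).sub h2)).const_mul _))

lemma one_sub_NN (w : ℂ) : ‖1 - w‖ ≤ 2 * NN w := by
  have h1 := one_le_NN w
  have h2 := norm_le_NN w
  calc ‖1 - w‖ ≤ ‖(1 : ℂ)‖ + ‖w‖ := norm_sub_le _ _
    _ ≤ 2 * NN w := by rw [norm_one]; linarith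

lemma BB_bound {L : ℕ} {α z : ℂ} (hα : ‖α‖ ≤ 1) {n : ℕ} {x : ℂ} {E : ℝ}
    (h1 : NN (Phi L α z n x) ≤ Real.exp E)
    (h2 : NN (Phi L α z n (starRingEnd ℂ x)) ≤ Real.exp E) :
    ‖BB L α z n x‖ ≤ 8 * Real.exp (3 * E) := by
  have h2' : NN (PhiS L α z n x) ≤ Real.exp E := by rw [PhiS_eq, NN_conj]; exact h2
  set p := Phi L α z n x with hp
  set s := PhiS L α z n x with hs
  have e1 : ‖p‖ ≤ Real.exp E := (norm_le_NN _).trans h1
  have e2 : ‖s‖ ≤ Real.exp E := (norm_le_NN _).trans h2'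
  have e3 : ‖1 - p‖ ≤ 2 * Real.exp E := (one_sub_NN p).trans (by linarith)
  have e4 : ‖1 - s‖ ≤ 2 * Real.exp E := (one_sub_NN s).trans (by linarith)
  have h7 : Real.exp (3 * E) = Real.exp E * Real.exp E * Real.exp E := by
    rw [← Real.exp_add, ← Real.exp_add]; ring_nf
  have hE := Real.exp_pos E
  have e5 : ‖α * (p * (1 - p))‖ ≤ 1 * (Real.exp E * (2 * Real.exp E)) := by
    rw [norm_mul, norm_mul]
    gcongr
  have e6 : ‖starRingEnd ℂ α * (s * (1 - s))‖ ≤ 1 * (Real.exp E * (2 * Real.exp E)) := by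
    rw [norm_mul, norm_mul, RCLike.norm_conj]
    gcongr
  have e7 : ‖p - s‖ ≤ 2 * Real.exp E := (norm_sub_le _ _).trans (by linarith)
  have e8 : ‖α * (p * (1 - p)) - starRingEnd ℂ α * (s * (1 - s))‖ ≤ 4 * (Real.exp E * Real.exp E) :=
    (norm_sub_le _ _).trans (by linarith)
  unfold BB
  rw [norm_mul, ← hp, ← hs, h7]
  calc ‖p - s‖ * ‖α * (p * (1 - p)) - starRingEnd ℂ α * (s * (1 - s))‖
      ≤ (2 * Real.exp E) * (4 * (Real.exp E * Real.exp E)) := by gcongr
    _ = _ := by ring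

lemma BB_real (L : ℕ) (α z : ℂ) (n : ℕ) (x : ℝ) :
    BB L α z n x = ((-4 * ((Phi L α z n x).im * (α * gg L α z n x).im) : ℝ) : ℂ) := by
  have h1 : PhiS L α z n x = starRingEnd ℂ (Phi L α z n x) := by
    rw [PhiS_eq, Complex.conj_ofReal]
  unfold BB gg
  rw [h1]
  set p := Phi L α z n x
  have h2 : α * (p * (1 - p)) - starRingEnd ℂ α * (starRingEnd ℂ p * (1 - starRingEnd ℂ p))
      = (α * (p * (1 - p))) - starRingEnd ℂ (α * (p * (1 - p))) := by
    simp only [map_mul, map_sub, map_one]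
  rw [h2, Complex.sub_conj, Complex.sub_conj]
  push_cast
  ring_nf
  rw [Complex.I_sq]
  ring

/-- the weighted energy -/
noncomputable def TT (L : ℕ) (α z : ℂ) (a b : ℝ) (n : ℕ) : ℝ :=
  ∫ x in a..b, (x - a) * (b - x) * (Phi L α z n x).im ^ 2

lemma energy_im (L : ℕ) (α z : ℂ) (n : ℕ) (a b : ℝ) :
    TT L α z a b (n + 1) = TT L α z a b n
      + 2 * (∫ x in a..b, (x - a) * (b - x) *
        (cr L n x * ((Phi L α z n x).im * (α * gg L α z n x).im)))
      + ∫ x in a..b, (x - a) * (b - x) * (cr L n x ^ 2 * (α * gg L α z n x).im ^ 2) := by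
  have hc := cr_cont L n
  have hg : Continuous fun x : ℝ => (α * gg L α z n x).im :=
    Complex.continuous_im.comp (continuous_const.mul (gg_cont L α z n))
  have hp : Continuous fun x : ℝ => (Phi L α z n x).im :=
    Complex.continuous_im.comp (Phi_real_cont L α z n)
  have hw : Continuous fun x : ℝ => (x - a) * (b - x) := by fun_prop
  have i1 : IntervalIntegrable (fun x : ℝ => (x - a) * (b - x) * (Phi L α z n x).im ^ 2)
      volume a b := (hw.mul (hp.pow 2)).intervalIntegrable _ _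
  have i2 : IntervalIntegrable (fun x : ℝ => 2 * ((x - a) * (b - x) *
      (cr L n x * ((Phi L α z n x).im * (α * gg L α z n x).im)))) volume a b :=
    (continuous_const.mul (hw.mul (hc.mul (hp.mul hg)))).intervalIntegrable _ _
  have i3 : IntervalIntegrable (fun x : ℝ => (x - a) * (b - x) *
      (cr L n x ^ 2 * (α * gg L α z n x).im ^ 2)) volume a b :=
    (hw.mul ((hc.pow 2).mul (hg.pow 2))).intervalIntegrable _ _
  unfold TT
  rw [← intervalIntegral.integral_const_mul, ← intervalIntegral.integral_add i1 i2,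
    ← intervalIntegral.integral_add (i1.add i2) i3]
  apply intervalIntegral.integral_congr
  intro x _
  simp only []
  rw [Phi_succ_real]
  have : (Phi L α z n x + α * cr L n x * gg L α z n x).im
      = (Phi L α z n x).im + cr L n x * (α * gg L α z n x).im := by
    rw [Complex.add_im]
    congr 1
    have h1 : α * (cr L n x : ℂ) * gg L α z n x = (cr L n x : ℂ) * (α * gg L α z n x) := by ring
    rw [h1, Complex.im_ofReal_mul]
  rw [this]
  ring

lemma wcross {L : ℕ} {α z : ℂ} (hL : 6 ≤ L) (hα : ‖α‖ ≤ 1) {u C : ℝ} (hC : 0 ≤ C) {m l : ℕ}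
    (hb : ∀ j ≤ l, ∀ x0 : ℝ, |x0 - u| ≤ (1 / 2) / (L : ℝ) ^ m →
      ∀ x : ℂ, ‖x - x0‖ ≤ (1 / 2) / (L : ℝ) ^ (m + j) →
      NN (Phi L α z (m + j) x) ≤ Real.exp C) {a b : ℝ} (ha : a = u - 1 / 2 / (L : ℝ) ^ m)
    (hbb : b = u + 1 / 2 / (L : ℝ) ^ m) :
    |∫ x in a..b, (x - a) * (b - x) *
        (cr L (m + l) x * ((Phi L α z (m + l) x).im * (α * gg L α z (m + l) x).im))|
      ≤ 120 * Real.exp (K0 C) * (1 / (L : ℝ) ^ m) ^ 3 / (L : ℝ) ^ (2 * l) := by
  have hL6 : (6 : ℝ) ≤ L := by exact_mod_cast hL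
  have hL0 : (0 : ℝ) < L := by linarith
  have hpi := Real.pi_pos
  set n := m + l with hn
  set w : ℝ := 1 / (L : ℝ) ^ m with hw
  have hw0 : 0 < w := by positivity
  have hba : b - a = w := by rw [ha, hbb, hw]; ring
  have hab : a < b := by linarith
  set ν : ℝ := Real.pi / 4 * (L : ℝ) ^ n with hν
  have hν0 : 0 < ν := by positivity
  have hmain := wcross_abstract (BB_diff L α z n) (ω := 2 * Real.pi * (L : ℝ) ^ n)
    (K := 8 * Real.exp (K0 C)) hab hν0 (by positivity) (by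
      intro x hx y hy
      rw [hba] at hy
      have h1 : ((x : ℂ) + y * I).re = x := by simp
      have h2 : ((x : ℂ) + y * I).im = y := by simp
      have hy0 := hy.1
      obtain ⟨E, hE1, hE2, hE3⟩ := strip_unif (l := l) (x := (x : ℂ) + y * I) hL hα hC hb
        (by
          rw [h1, abs_le]
          have := hx.1
          have := hx.2
          constructor <;> linarith)
        (by
          rw [h2, abs_of_nonneg hy.1]
          refine hy.2.trans (le_of_eq ?_)
          rw [hw]; ring)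
      rw [h2, abs_of_nonneg hy.1, ← hn] at hE3
      have hB := BB_bound hα hE1 hE2
      rw [norm_mul, Complex.norm_exp]
      have h3 : (I * ((2 * Real.pi * (L : ℝ) ^ n : ℝ) : ℂ) * ((x : ℂ) + y * I)).re
          = -(2 * Real.pi * (L : ℝ) ^ n * y) := by
        generalize 2 * Real.pi * (L : ℝ) ^ n = r
        have h4 : I * (r : ℂ) * ((x : ℂ) + y * I) = ((-(r * y) : ℝ) : ℂ) + ((r * x : ℝ) : ℂ) * I := by
          push_cast
          ring_nf
          rw [Complex.I_sq]
          ring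
        rw [h4]
        simp
      rw [h3]
      calc Real.exp (-(2 * Real.pi * (L : ℝ) ^ n * y)) * ‖BB L α z n ((x : ℂ) + y * I)‖
          ≤ Real.exp (-(2 * Real.pi * (L : ℝ) ^ n * y)) * (8 * Real.exp (3 * E)) := by gcongr
        _ = 8 * Real.exp (3 * E - 2 * Real.pi * (L : ℝ) ^ n * y) := by
            rw [mul_left_comm, ← Real.exp_add]
            congr 2
            ring
        _ ≤ 8 * Real.exp (K0 C - ν * y) := by
            gcongr 8 * Real.exp ?_
            rw [hν]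
            nlinarith
        _ = 8 * Real.exp (K0 C) * Real.exp (-(ν * y)) := by
            rw [sub_eq_add_neg, Real.exp_add]
            ring)
  rw [hba] at hmain
  -- rewrite the real integral
  have hcont : Continuous fun x : ℝ => Complex.exp (I * ((2 * Real.pi * (L : ℝ) ^ n : ℝ) : ℂ) * x)
      * (((x : ℂ) - a) * (b - x)) * BB L α z n x := by
    have h1 : Continuous fun x : ℝ => BB L α z n x :=
      (BB_diff L α z n).continuous.comp Complex.continuous_ofReal
    have h2 : Continuous fun x : ℝ =>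
        Complex.exp (I * ((2 * Real.pi * (L : ℝ) ^ n : ℝ) : ℂ) * x) * (((x : ℂ) - a) * (b - x)) := by
      fun_prop
    exact h2.mul h1
  have hre : ∀ x : ℝ, (x - a) * (b - x) *
        (cr L n x * ((Phi L α z n x).im * (α * gg L α z n x).im))
      = -(1 / 4) * (Complex.exp (I * ((2 * Real.pi * (L : ℝ) ^ n : ℝ) : ℂ) * x)
      * (((x : ℂ) - a) * (b - x)) * BB L α z n x).re := by
    intro x
    rw [BB_real]
    have h1 : (Complex.exp (I * ((2 * Real.pi * (L : ℝ) ^ n : ℝ) : ℂ) * x)).re = cr L n x := by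
      have h2 : I * ((2 * Real.pi * (L : ℝ) ^ n : ℝ) : ℂ) * x
          = ((2 * Real.pi * ((L : ℝ) ^ n * x) : ℝ) : ℂ) * I := by
        push_cast; ring
      rw [h2, Complex.exp_ofReal_mul_I_re, cr]
    have h3 : Complex.exp (I * ((2 * Real.pi * (L : ℝ) ^ n : ℝ) : ℂ) * x)
      * (((x : ℂ) - a) * (b - x)) * ((-4 * ((Phi L α z n x).im * (α * gg L α z n x).im) : ℝ) : ℂ)
      = Complex.exp (I * ((2 * Real.pi * (L : ℝ) ^ n : ℝ) : ℂ) * x) *
        (((x - a) * (b - x) * (-4 * ((Phi L α z n x).im * (α * gg L α z n x).im)) : ℝ) : ℂ) := by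
      push_cast; ring
    rw [h3, Complex.re_mul_ofReal, h1]
    ring
  simp_rw [hre]
  rw [intervalIntegral.integral_const_mul]
  have h2 := Complex.reCLM.intervalIntegral_comp_comm (hcont.intervalIntegrable (μ := volume) a b)
  simp only [Complex.reCLM_apply] at h2
  rw [h2, abs_mul]
  have h3 := (Complex.abs_re_le_norm (∫ x in a..b,
    Complex.exp (I * ((2 * Real.pi * (L : ℝ) ^ n : ℝ) : ℂ) * x)
      * (((x : ℂ) - a) * (b - x)) * BB L α z n x)).trans hmain
  -- numeric estimate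
  have hLl : (0 : ℝ) < (L : ℝ) ^ l := by positivity
  have hνw : ν * w = Real.pi / 4 * (L : ℝ) ^ l := by
    rw [hν, hw, hn, pow_add]; field_simp
  have hpi2 : 9.6 ≤ Real.pi ^ 2 := by
    have := Real.pi_gt_d2
    nlinarith
  have hexp : Real.exp (-(ν * (w / 2))) ≤ 128 / (Real.pi ^ 2 * (L : ℝ) ^ (2 * l)) := by
    set t := ν * (w / 2) with ht
    have ht' : t = Real.pi / 8 * (L : ℝ) ^ l := by rw [ht]; linarith
    have ht0 : 0 < t := by rw [ht']; positivity
    have h4 : t ^ 2 / 2 ≤ Real.exp t := by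
      have := Real.quadratic_le_exp_of_nonneg ht0.le
      linarith
    have h5 : 128 / (Real.pi ^ 2 * (L : ℝ) ^ (2 * l)) = 2 / t ^ 2 := by
      rw [ht', mul_comm 2 l, pow_mul]
      field_simp
      ring
    rw [h5, Real.exp_neg, inv_eq_one_div, div_le_div_iff₀ (Real.exp_pos t) (by positivity)]
    linarith
  have hν2 : 12 * w * (8 * Real.exp (K0 C)) / ν ^ 2
      = 12 * 8 * 16 * Real.exp (K0 C) * w ^ 3 / (Real.pi ^ 2 * (L : ℝ) ^ (2 * l)) := by
    have h6 : ν = Real.pi / 4 * (L : ℝ) ^ l / w := by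
      rw [← hνw]; field_simp
    rw [h6, mul_comm 2 l, pow_mul]
    field_simp
    ring
  rw [hν2] at h3
  have h7 : 9 / 4 * w ^ 3 * (8 * Real.exp (K0 C)) * Real.exp (-(ν * (w / 2)))
      ≤ 9 / 4 * w ^ 3 * (8 * Real.exp (K0 C)) * (128 / (Real.pi ^ 2 * (L : ℝ) ^ (2 * l))) := by
    gcongr
  have h8 : 9 / 4 * w ^ 3 * (8 * Real.exp (K0 C)) * (128 / (Real.pi ^ 2 * (L : ℝ) ^ (2 * l)))
      + 12 * 8 * 16 * Real.exp (K0 C) * w ^ 3 / (Real.pi ^ 2 * (L : ℝ) ^ (2 * l))
      = 3840 / Real.pi ^ 2 * (Real.exp (K0 C) * w ^ 3 / (L : ℝ) ^ (2 * l)) := by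
    field_simp
    ring
  have h9 : 3840 / Real.pi ^ 2 ≤ 400 := by
    rw [div_le_iff₀ (by positivity)]
    linarith
  have h10 : 3840 / Real.pi ^ 2 * (Real.exp (K0 C) * w ^ 3 / (L : ℝ) ^ (2 * l))
      ≤ 400 * (Real.exp (K0 C) * w ^ 3 / (L : ℝ) ^ (2 * l)) := by gcongr
  have h11 : 0 ≤ Real.exp (K0 C) * w ^ 3 / (L : ℝ) ^ (2 * l) := by positivity
  have h12 : |(-(1 / 4) : ℝ)| = 1 / 4 := by norm_num
  rw [h12]
  have h13 : 120 * Real.exp (K0 C) * w ^ 3 / (L : ℝ) ^ (2 * l)
      = 120 * (Real.exp (K0 C) * w ^ 3 / (L : ℝ) ^ (2 * l)) := by ring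
  rw [h13]
  linarith

end Pool.Agent.TH229.Kan
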