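import Pool.Agent.TH229.Kan.WMain
import Pool.Agent.TH229.Kan.Local

/-!
# Repelling exponents
-/

set_option autoImplicit false

namespace Pool.Agent.TH229.Kan

open Complex Filter Topology MeasureTheory

lemma ae_zero {F : ℂ → ℂ} (hF : Differentiable ℂ F) {x0 : ℂ} (h : F x0 ≠ 0) :
    ∀ᵐ u : ℝ, F u ≠ 0 := by
  have hA : AnalyticOnNhd ℂ F Set.univ := hF.differentiableOn.analyticOnNhd isOpen_univ
  have h1 := hA.preimage_zero_mem_codiscrete h
  set S : Set ℂ := {w | F w = 0} with hS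
  have h2 : F ⁻¹' {0}ᶜ = Sᶜ := by ext w; simp [hS]
  rw [h2] at h1
  have h3 : IsDiscrete (S ∩ Set.univ) := isDiscrete_of_codiscreteWithin h1
  rw [Set.inter_univ] at h3
  have h4 : S.Countable := by
    have : DiscreteTopology S := h3.to_subtype
    exact countable_of_Lindelof_of_discrete (X := S)
  have h5 : ((fun u : ℝ => (u : ℂ)) ⁻¹' S).Countable :=
    h4.preimage_of_injOn Complex.ofReal_injective.injOn
  have h6 := h5.measure_zero (volume : Measure ℝ)
  rw [ae_iff]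
  refine measure_mono_null ?_ h6
  intro u hu
  have hu' : ¬ (F (u : ℂ) ≠ 0) := hu
  exact not_not.1 hu'

lemma exists_ne_mul {F G : ℂ → ℂ} (hF : Differentiable ℂ F) (hG : Differentiable ℂ G)
    (h1 : ∃ x, F x ≠ 0) (h2 : ∃ x, G x ≠ 0) : ∃ x, F x * G x ≠ 0 := by
  obtain ⟨x1, hx1⟩ := h1
  obtain ⟨x2, hx2⟩ := h2
  obtain ⟨u, hu1, hu2⟩ := ((ae_zero hF hx1).and (ae_zero hG hx2)).exists
  exact ⟨u, mul_ne_zero hu1 hu2⟩

lemma cc_quarter : cc (1 / 4) = 0 := by
  have : (1 / 4 : ℂ) = ((1 / 4 : ℝ) : ℂ) := by push_cast; rfl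
  rw [this, cc_real]
  have h : 2 * Real.pi * (1 / 4) = Real.pi / 2 := by ring
  rw [h, Real.cos_pi_div_two]
  simp

lemma Phi_ne {L : ℕ} (hL : 0 < L) {α z : ℂ} (h0 : z ≠ 0) (h1 : z ≠ 1) (n : ℕ) :
    (∃ x, Phi L α z n x ≠ 0) ∧ (∃ x, 1 - Phi L α z n x ≠ 0) := by
  have hL0 : (L : ℂ) ≠ 0 := by exact_mod_cast hL.ne'
  induction n with
  | zero => exact ⟨⟨0, h0⟩, ⟨0, sub_ne_zero.2 h1.symm⟩⟩
  | succ n ih =>
    have hd := Phi_diff L α z n
    have hc : Differentiable ℂ fun x : ℂ => cc ((L : ℂ) ^ n * x) :=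
      cc_diff.comp (differentiable_id.const_mul _)
    have hq : cc ((L : ℂ) ^ n * ((1 / 4) / (L : ℂ) ^ n)) = 0 := by
      rw [mul_div_cancel₀ _ (pow_ne_zero n hL0), cc_quarter]
    constructor
    · have hG : Differentiable ℂ fun x : ℂ => 1 + α * cc ((L : ℂ) ^ n * x) *
          (1 - Phi L α z n x) :=
        (((hc.const_mul α).mul ((differentiable_const 1).sub hd)).const_add 1)
      obtain ⟨x, hx⟩ := exists_ne_mul hd hG
        ih.1 ⟨(1 / 4) / (L : ℂ) ^ n, by simp only [hq]; simp⟩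
      refine ⟨x, ?_⟩
      rw [Phi_succ]
      intro h
      apply hx
      rw [← h]
      ring
    · have hF : Differentiable ℂ fun x : ℂ => 1 - Phi L α z n x := (differentiable_const 1).sub hd
      have hG : Differentiable ℂ fun x : ℂ => 1 - α * cc ((L : ℂ) ^ n * x) * Phi L α z n x :=
        (((hc.const_mul α).mul hd).const_sub 1)
      obtain ⟨x, hx⟩ := exists_ne_mul hF hG
        ih.2 ⟨(1 / 4) / (L : ℂ) ^ n, by simp only [hq]; simp⟩
      refine ⟨x, ?_⟩
      rw [Phi_succ]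
      intro h
      apply hx
      rw [← h]
      ring

lemma ae_Phi_ne {L : ℕ} (hL : 0 < L) {α z : ℂ} (h0 : z ≠ 0) (h1 : z ≠ 1) :
    ∀ᵐ u : ℝ, ∀ n, Phi L α z n u ≠ 0 ∧ 1 - Phi L α z n u ≠ 0 := by
  rw [ae_all_iff]
  intro n
  obtain ⟨⟨x, hx⟩, ⟨y, hy⟩⟩ := Phi_ne (α := α) hL h0 h1 n
  exact (ae_zero (Phi_diff L α z n) hx).and
    (ae_zero ((differentiable_const 1).sub (Phi_diff L α z n)) hy)

/-- Almost every product of multipliers grows. -/
lemma ae_prod_lower {L : ℕ} (hL : 1 < L) {α : ℂ} (hα : ‖α‖ < 1) {κ : ℝ}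
    (hκ : κ < ∫ u in (0 : ℝ)..1, Real.log ‖1 + α * ((Real.cos (2 * Real.pi * u) : ℝ) : ℂ)‖) :
    ∀ᵐ v : ℝ, ∃ C : ℝ, 0 < C ∧ ∀ n : ℕ, Real.exp κ ^ n ≤ C * Pr L α n v := by
  obtain ⟨B, hB⟩ := lf_bound hα
  have : IsProbabilityMeasure (volume : Measure UnitAddCircle) := ⟨UnitAddCircle.measure_univ⟩
  have hT := AddCircle.ergodic_nsmul (T := 1) hL
  set lam := ∫ u in (0 : ℝ)..1, Real.log ‖1 + α * ((Real.cos (2 * Real.pi * u) : ℝ) : ℂ)‖ with hlam
  have hint : ∫ y : UnitAddCircle, lf α y = lam := by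
    rw [← UnitAddCircle.intervalIntegral_preimage 0, zero_add, hlam]
    simp_rw [lf_coe]
  have hif : Integrable (lf α) (volume : Measure UnitAddCircle) := by
    refine Integrable.mono' (integrable_const B) lf_meas.aestronglyMeasurable ?_
    filter_upwards with y
    exact hB y
  have hlamB : |lam| ≤ B := by
    rw [← hint]
    have := norm_integral_le_of_norm_le_const (μ := (volume : Measure UnitAddCircle)) (f := lf α)
      (C := B) (Filter.Eventually.of_forall hB)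
    simpa using this
  have hup := H165R3.BPE.upper hT.toMeasurePreserving (fun y => -lf α y) lf_meas.neg B
    (fun y => by rw [abs_neg]; exact hB y) (fun _ => -lam)
    measurable_const (fun _ => rfl) (fun _ => by rw [abs_neg]; exact hlamB) (by
      intro A hA hAT
      have h0 := hT.toPreErgodic.aeconst_set hA hAT
      rw [eventuallyConst_set'] at h0
      rcases h0 with h | h
      · rw [setIntegral_congr_set h, setIntegral_congr_set h]
        simp
      · rw [setIntegral_congr_set h, setIntegral_congr_set h]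
        simp [integral_neg, hint]) (lam - κ) (by linarith)
  have h1 := ae_real_of_circle hup
  filter_upwards [h1] with v hv
  obtain ⟨n0, hn0⟩ := eventually_atTop.1 hv
  have hlow : ∀ n : ℕ, 0 < ‖1 + α * (cr L n v : ℂ)‖ := by
    intro n
    have := mult_lower (α := α) (cr L n v) (Real.abs_cos_le_one _)
    linarith
  have hPrpos : ∀ n : ℕ, 0 < Pr L α n v := fun n => Finset.prod_pos fun k _ => hlow k
  have hPr : ∀ n : ℕ, Pr L α n v = Real.exp (∑ k ∈ Finset.range n,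
      lf α ((fun y : UnitAddCircle => L • y)^[k] (v : UnitAddCircle))) := by
    intro n
    rw [Real.exp_sum]
    unfold Pr
    apply Finset.prod_congr rfl
    intro k _
    rw [iter_coe, lf_coe, Real.exp_log]
    · rfl
    · exact hlow k
  set C0 : ℝ := ∑ n ∈ Finset.range (n0 + 1), Real.exp κ ^ n / Pr L α n v with hC0
  have hC0n : 0 ≤ C0 := Finset.sum_nonneg fun n _ => div_nonneg (by positivity) (hPrpos n).le
  refine ⟨C0 + 1, by linarith, fun n => ?_⟩
  by_cases hn : n ≤ n0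
  · have h3 : Real.exp κ ^ n / Pr L α n v ≤ C0 :=
      Finset.single_le_sum (f := fun n => Real.exp κ ^ n / Pr L α n v)
        (fun i _ => div_nonneg (by positivity) (hPrpos i).le) (Finset.mem_range.2 (by omega))
    rw [div_le_iff₀ (hPrpos n)] at h3
    have := hPrpos n
    nlinarith
  · push Not at hn
    have h3 := hn0 n hn.le
    have hn' : (0 : ℝ) < n := by
      have : 0 < n := by omega
      exact_mod_cast this
    rw [inv_mul_le_iff₀ hn', Finset.sum_neg_distrib] at h3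
    have h4 : Real.exp κ ^ n ≤ Pr L α n v := by
      rw [hPr n, ← Real.exp_nat_mul, Real.exp_le_exp]
      linarith
    have := hPrpos n
    nlinarith

/-- no orbit stays near a repelling point -/
lemma repel_aux {α : ℂ} (hα : ‖α‖ < 1) {κ C ρ : ℝ} (hκ : 0 < κ) (hC : 0 < C)
    {y : ℕ → ℂ} {c : ℕ → ℝ} (hc : ∀ n, |c n| ≤ 1)
    (hy : ∀ n, y (n + 1) = y n * (1 + α * c n * (1 - y n)))
    (hP : ∀ n, Real.exp κ ^ n ≤ C * ∏ k ∈ Finset.range n, ‖1 + α * (c k : ℂ)‖) {m0 : ℕ}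
    (hy0 : y m0 ≠ 0) (hsmall : ∀ n ≥ m0, ‖y n‖ ≤ ρ)
    (hρ : ρ ≤ (1 - ‖α‖) * (1 - Real.exp (-(κ / 2)))) : False := by
  have hδ : 0 < 1 - ‖α‖ := by linarith
  set s := Real.exp (-(κ / 2)) with hs
  have hs0 : 0 < s := Real.exp_pos _
  set Q : ℕ → ℝ := fun n => ∏ k ∈ Finset.range n, ‖1 + α * (c k : ℂ)‖ with hQ
  have hlow : ∀ n, 1 - ‖α‖ ≤ ‖1 + α * (c n : ℂ)‖ := fun n => mult_lower (c n) (hc n)
  have hQpos : ∀ n, 0 < Q n := fun n => Finset.prod_pos fun k _ => hδ.trans_le (hlow k)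
  have hstep : ∀ n ≥ m0, ‖y n‖ * (s * ‖1 + α * (c n : ℂ)‖) ≤ ‖y (n + 1)‖ := by
    intro n hn
    rw [hy n, norm_mul]
    apply mul_le_mul_of_nonneg_left _ (norm_nonneg _)
    have h1 : 1 + α * c n * (1 - y n) = (1 + α * c n) - α * c n * y n := by ring
    rw [h1]
    have h2 := norm_sub_norm_le (1 + α * (c n : ℂ)) (α * c n * y n)
    have h3 : ‖α * c n * y n‖ ≤ ρ := by
      rw [norm_mul, norm_mul, Complex.norm_real, Real.norm_eq_abs]
      have h4 := hsmall n hn
      calc ‖α‖ * |c n| * ‖y n‖ ≤ 1 * 1 * ρ := by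
            gcongr
            exact hc n
        _ = ρ := by ring
    have h5 : (1 - ‖α‖) * (1 - s) ≤ ‖1 + α * (c n : ℂ)‖ * (1 - s) := by
      apply mul_le_mul_of_nonneg_right (hlow n)
      have : s ≤ 1 := Real.exp_le_one_iff.2 (by linarith)
      linarith
    linarith
  have key : ∀ i : ℕ, ‖y m0‖ * (s ^ i * Q (m0 + i)) ≤ ‖y (m0 + i)‖ * Q m0 := by
    intro i
    induction i with
    | zero => simp
    | succ i ih =>
      have h1 := hstep (m0 + i) (by omega)
      have h2 : Q (m0 + (i + 1)) = Q (m0 + i) * ‖1 + α * (c (m0 + i) : ℂ)‖ := by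
        simp only [hQ]
        rw [← add_assoc, Finset.prod_range_succ]
      have hf : 0 ≤ s * ‖1 + α * (c (m0 + i) : ℂ)‖ := by positivity
      calc ‖y m0‖ * (s ^ (i + 1) * Q (m0 + (i + 1)))
          = (‖y m0‖ * (s ^ i * Q (m0 + i))) * (s * ‖1 + α * (c (m0 + i) : ℂ)‖) := by
            rw [h2, pow_succ]; ring
        _ ≤ (‖y (m0 + i)‖ * Q m0) * (s * ‖1 + α * (c (m0 + i) : ℂ)‖) := by gcongr
        _ = (‖y (m0 + i)‖ * (s * ‖1 + α * (c (m0 + i) : ℂ)‖)) * Q m0 := by ring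
        _ ≤ ‖y (m0 + i + 1)‖ * Q m0 := mul_le_mul_of_nonneg_right h1 (hQpos m0).le
  have hbig : ∀ i : ℕ, ‖y m0‖ / C * Real.exp (κ / 2) ^ i ≤ ρ * Q m0 := by
    intro i
    have h1 := key i
    have h2 := hP (m0 + i)
    have h3 := hsmall (m0 + i) (by omega)
    have h4 : Real.exp κ ^ (m0 + i) / C ≤ Q (m0 + i) := by
      rw [div_le_iff₀ hC, mul_comm]; exact h2
    have h5 : Real.exp κ ^ i ≤ Real.exp κ ^ (m0 + i) :=
      pow_le_pow_right₀ (Real.one_le_exp hκ.le) (by omega)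
    have h6 : s ^ i * Real.exp κ ^ i = Real.exp (κ / 2) ^ i := by
      rw [← mul_pow, hs, ← Real.exp_add]
      congr 2
      ring
    calc ‖y m0‖ / C * Real.exp (κ / 2) ^ i = ‖y m0‖ * (s ^ i * (Real.exp κ ^ i / C)) := by
          rw [← h6]; ring
      _ ≤ ‖y m0‖ * (s ^ i * (Real.exp κ ^ (m0 + i) / C)) := by gcongr
      _ ≤ ‖y m0‖ * (s ^ i * Q (m0 + i)) := by gcongr
      _ ≤ ‖y (m0 + i)‖ * Q m0 := h1
      _ ≤ ρ * Q m0 := mul_le_mul_of_nonneg_right h3 (hQpos m0).le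
  have hpos : 0 < ‖y m0‖ / C := div_pos (norm_pos_iff.2 hy0) hC
  have hlim : Tendsto (fun i : ℕ => ‖y m0‖ / C * Real.exp (κ / 2) ^ i) atTop atTop :=
    (tendsto_pow_atTop_atTop_of_one_lt (Real.one_lt_exp_iff.2 (by linarith))).const_mul_atTop hpos
  obtain ⟨i, hi⟩ := (hlim.eventually_gt_atTop (ρ * Q m0)).exists
  exact absurd (hbig i) (not_le.2 hi)

/-- `g` is infinitely often not small -/
lemma ae_freq {L : ℕ} (hL : 1 < L) {α z : ℂ} (hα : ‖α‖ < 1) (hz0 : z ≠ 0) (hz1 : z ≠ 1)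
    (h0 : 0 < ∫ u in (0 : ℝ)..1, Real.log ‖1 + α * ((Real.cos (2 * Real.pi * u) : ℝ) : ℂ)‖)
    (h1 : 0 < ∫ u in (0 : ℝ)..1, Real.log ‖1 - α * ((Real.cos (2 * Real.pi * u) : ℝ) : ℂ)‖) :
    ∃ ε0 : ℝ, 0 < ε0 ∧ ∀ᵐ u : ℝ, ∃ᶠ n : ℕ in atTop, ε0 ≤ ‖gg L α z n u‖ := by
  set l0 := ∫ u in (0 : ℝ)..1, Real.log ‖1 + α * ((Real.cos (2 * Real.pi * u) : ℝ) : ℂ)‖
  set l1 := ∫ u in (0 : ℝ)..1, Real.log ‖1 - α * ((Real.cos (2 * Real.pi * u) : ℝ) : ℂ)‖ with hl1
  set κ := min l0 l1 / 2 with hκ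
  have hmin : 0 < min l0 l1 := lt_min h0 h1
  have hκ0 : 0 < κ := by rw [hκ]; linarith
  have hκ1 : κ < l0 := by
    have := min_le_left l0 l1
    rw [hκ]; linarith
  have hκ2 : κ < l1 := by
    have := min_le_right l0 l1
    rw [hκ]; linarith
  have hδ : 0 < 1 - ‖α‖ := by linarith
  have hs : 0 < 1 - Real.exp (-(κ / 2)) := by
    have : Real.exp (-(κ / 2)) < 1 := Real.exp_lt_one_iff.2 (by linarith)
    linarith
  set ρ := min (1 / 8) ((1 - ‖α‖) * (1 - Real.exp (-(κ / 2)))) with hρ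
  have hρ0 : 0 < ρ := by positivity
  have hρ8 : ρ ≤ 1 / 8 := min_le_left _ _
  have hρ2 : ρ ≤ (1 - ‖α‖) * (1 - Real.exp (-(κ / 2))) := min_le_right _ _
  refine ⟨ρ / 2, by positivity, ?_⟩
  have a1 := ae_prod_lower hL hα hκ1
  have a2 := ae_prod_lower (α := -α) hL (by rwa [norm_neg]) (κ := κ) (by
    simp_rw [neg_mul, ← sub_eq_add_neg]
    exact hκ2)
  filter_upwards [a1, a2, ae_Phi_ne (α := α) (by omega : 0 < L) hz0 hz1] with u ⟨C1, hC1, hu1⟩
    ⟨C2, hC2, hu2⟩ hne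
  intro hcon
  have hcon' : ∀ᶠ n in atTop, ‖gg L α z n u‖ < ρ / 2 := by
    filter_upwards [hcon] with n hn
    exact not_le.1 hn
  obtain ⟨m0, hm0⟩ := eventually_atTop.1 hcon'
  -- near 0 or near 1
  have hdich : ∀ n ≥ m0, ‖Phi L α z n u‖ ≤ ρ ∨ ‖1 - Phi L α z n u‖ ≤ ρ := by
    intro n hn
    have h3 := hm0 n hn
    unfold gg at h3
    rw [norm_mul] at h3
    set p := Phi L α z n u
    have h4 : 1 ≤ ‖p‖ + ‖1 - p‖ := by
      have := norm_add_le p (1 - p)
      rwa [add_sub_cancel, norm_one] at this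
    by_contra hcon2
    push Not at hcon2
    obtain ⟨h5, h6⟩ := hcon2
    rcases le_total (1 / 2) ‖p‖ with h | h
    · have : 1 / 2 * ρ ≤ ‖p‖ * ‖1 - p‖ := mul_le_mul h h6.le hρ0.le (norm_nonneg _)
      linarith
    · have h7 : 1 / 2 ≤ ‖1 - p‖ := by linarith
      have : ρ * (1 / 2) ≤ ‖p‖ * ‖1 - p‖ := mul_le_mul h5.le h7 (by norm_num) (norm_nonneg _)
      linarith
  have hjump : ∀ n ≥ m0, ‖Phi L α z (n + 1) u - Phi L α z n u‖ ≤ ρ / 2 := by
    intro n hn
    rw [Phi_succ_real, add_sub_cancel_left, norm_mul, norm_mul, Complex.norm_real,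
      Real.norm_eq_abs]
    have h3 := (hm0 n hn).le
    calc ‖α‖ * |cr L n u| * ‖gg L α z n u‖ ≤ 1 * 1 * (ρ / 2) := by
          gcongr
          exact cr_abs_le L n u
      _ = ρ / 2 := by ring
  rcases hdich m0 le_rfl with h | h
  · have hstay : ∀ n ≥ m0, ‖Phi L α z n u‖ ≤ ρ := by
      intro n hn
      induction n, hn using Nat.le_induction with
      | base => exact h
      | succ n hn ih =>
        rcases hdich (n + 1) (by omega) with h3 | h3
        · exact h3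
        · exfalso
          have h4 := hjump n hn
          have h5 : (1 : ℂ) = (1 - Phi L α z (n + 1) u) + (Phi L α z (n + 1) u - Phi L α z n u)
            + Phi L α z n u := by ring
          have h6 : (1 : ℝ) ≤ ρ + ρ / 2 + ρ := by
            calc (1 : ℝ) = ‖(1 : ℂ)‖ := norm_one.symm
              _ = ‖(1 - Phi L α z (n + 1) u) + (Phi L α z (n + 1) u - Phi L α z n u)
                  + Phi L α z n u‖ := by rw [← h5]
              _ ≤ _ := (norm_add_le _ _).trans (add_le_add ((norm_add_le _ _).trans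
                  (add_le_add h3 h4)) ih)
          linarith
    exact repel_aux hα hκ0 hC1 (y := fun n => Phi L α z n u) (c := fun n => cr L n u)
      (fun n => cr_abs_le L n u) (fun n => Phi_succ_real' L α z n u) hu1 (hne m0).1 hstay hρ2
  · have hstay : ∀ n ≥ m0, ‖1 - Phi L α z n u‖ ≤ ρ := by
      intro n hn
      induction n, hn using Nat.le_induction with
      | base => exact h
      | succ n hn ih =>
        rcases hdich (n + 1) (by omega) with h3 | h3
        · exfalso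
          have h4 := hjump n hn
          have h5 : (1 : ℂ) = Phi L α z (n + 1) u - (Phi L α z (n + 1) u - Phi L α z n u)
            + (1 - Phi L α z n u) := by ring
          have h6 : (1 : ℝ) ≤ ρ + ρ / 2 + ρ := by
            calc (1 : ℝ) = ‖(1 : ℂ)‖ := norm_one.symm
              _ = ‖Phi L α z (n + 1) u - (Phi L α z (n + 1) u - Phi L α z n u)
                  + (1 - Phi L α z n u)‖ := by rw [← h5]
              _ ≤ _ := (norm_add_le _ _).trans (add_le_add ((norm_sub_le _ _).trans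
                  (add_le_add h3 h4)) ih)
          linarith
        · exact h3
    have hα' : ‖-α‖ < 1 := by rwa [norm_neg]
    refine repel_aux hα' hκ0 hC2 (y := fun n => 1 - Phi L α z n u) (c := fun n => cr L n u)
      (fun n => cr_abs_le L n u) (fun n => ?_) hu2 (hne m0).2 hstay (by rwa [norm_neg])
    rw [Phi_succ_real'']
    ring

end Pool.Agent.TH229.Kan
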