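import Pool.Agent.TH229.Kan.WErgo

/-!
# Positive exponent: almost every fibre sends a given point to infinity
-/

set_option autoImplicit false

namespace Pool.Agent.TH229.Kan

open Complex Filter Topology MeasureTheory

/-- escape to infinity -/
def Esc (L : ℕ) (α z : ℂ) (u : ℝ) : Prop :=
  Tendsto (fun n => ‖Phi L α z n u‖) atTop atTop

lemma Esc_shift {L : ℕ} {α z : ℂ} {u : ℝ} (n : ℕ)
    (h : Esc L α (Phi L α z n u) ((L : ℝ) ^ n * u)) : Esc L α z u := by
  unfold Esc at *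
  rw [← tendsto_add_atTop_iff_nat n]
  have e : ∀ k, Phi L α z (k + n) u = Phi L α (Phi L α z n u) k (((L : ℝ) ^ n * u : ℝ) : ℂ) := by
    intro k
    rw [add_comm, Phi_add_real]
  simp_rw [e]
  exact h

lemma Esc_measurable (L : ℕ) (α : ℂ) : MeasurableSet {p : ℂ × ℝ | Esc L α p.1 p.2} := by
  have hm : ∀ n : ℕ, Measurable fun p : ℂ × ℝ => ‖Phi L α p.1 n p.2‖ :=
    fun n => (Phi_joint_cont L α n).norm.measurable
  exact measurableSet_tendsto _ hm

lemma im_ne_zero {α : ℂ} (hα : ‖α‖ < 1)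
    (h0 : 0 < ∫ u in (0 : ℝ)..1, Real.log ‖1 + α * ((Real.cos (2 * Real.pi * u) : ℝ) : ℂ)‖) :
    α.im ≠ 0 := by
  intro him
  have hpi := Real.pi_pos
  have hα' : α = (α.re : ℂ) := by apply Complex.ext <;> simp [him]
  have hre : |α.re| < 1 := (Complex.abs_re_le_norm α).trans_lt hα
  have hle : ∀ u : ℝ, Real.log ‖1 + α * ((Real.cos (2 * Real.pi * u) : ℝ) : ℂ)‖
      ≤ α.re * Real.cos (2 * Real.pi * u) := by
    intro u
    have h1 : 1 + α * ((Real.cos (2 * Real.pi * u) : ℝ) : ℂ)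
        = ((1 + α.re * Real.cos (2 * Real.pi * u) : ℝ) : ℂ) := by
      rw [hα']; push_cast; simp
    have h2 : |α.re * Real.cos (2 * Real.pi * u)| < 1 := by
      rw [abs_mul]
      have := Real.abs_cos_le_one (2 * Real.pi * u)
      nlinarith [abs_nonneg α.re, abs_nonneg (Real.cos (2 * Real.pi * u))]
    have h3 := abs_lt.1 h2
    rw [h1, Complex.norm_real, Real.norm_eq_abs, abs_of_pos (by linarith [h3.1])]
    have := Real.log_le_sub_one_of_pos (x := 1 + α.re * Real.cos (2 * Real.pi * u))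
      (by linarith [h3.1])
    linarith
  have hc1 : Continuous fun u : ℝ =>
      Real.log ‖1 + α * ((Real.cos (2 * Real.pi * u) : ℝ) : ℂ)‖ := by
    apply Continuous.log
    · fun_prop
    · intro u
      have := mult_lower (α := α) (Real.cos (2 * Real.pi * u)) (Real.abs_cos_le_one _)
      have h4 : 0 < 1 - ‖α‖ := by linarith
      linarith
  have hc2 : Continuous fun u : ℝ => α.re * Real.cos (2 * Real.pi * u) := by fun_prop
  have hmono := intervalIntegral.integral_mono_on (μ := volume) (zero_le_one' ℝ)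
    (hc1.intervalIntegrable _ _) (hc2.intervalIntegrable _ _) (fun u _ => hle u)
  have hzero : ∫ u in (0 : ℝ)..1, α.re * Real.cos (2 * Real.pi * u) = 0 := by
    rw [intervalIntegral.integral_const_mul]
    have h5 := intervalIntegral.integral_comp_mul_left (a := (0 : ℝ)) (b := 1)
      (fun x => Real.cos x) (c := 2 * Real.pi) (by positivity)
    rw [h5, integral_cos]
    simp
  linarith

theorem ae_esc {L : ℕ} (hL : 6 ≤ L) {α z : ℂ} (hα0 : 0 < ‖α‖) (hα : ‖α‖ < 1)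
    (hz0 : z ≠ 0) (hz1 : z ≠ 1)
    (h0 : 0 < ∫ u in (0 : ℝ)..1, Real.log ‖1 + α * ((Real.cos (2 * Real.pi * u) : ℝ) : ℂ)‖)
    (h1 : 0 < ∫ u in (0 : ℝ)..1, Real.log ‖1 - α * ((Real.cos (2 * Real.pi * u) : ℝ) : ℂ)‖) :
    ∀ᵐ u : ℝ, Esc L α z u := by
  obtain ⟨ε0, hε0, hfreq⟩ := ae_freq (L := L) (by omega) hα hz0 hz1 h0 h1
  have he := eps0_pos
  set M : ℝ := 8 / eps0 with hM
  have hM0 : 0 < M := by positivity
  set Nb : Set ℝ := {u | ¬ Esc L α z u} with hNb
  have hNbm : MeasurableSet Nb := by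
    have h4 : MeasurableSet {u : ℝ | Esc L α z u} := by
      have h5 : Measurable fun u : ℝ => ((z, u) : ℂ × ℝ) := by fun_prop
      exact h5 (Esc_measurable L α)
    exact h4.compl
  exact core2 (L := L) (α := α) (z := z) hL hα.le (im_ne_zero hα h0) hNbm
    (G := GE L M) (GE_closed L M).measurableSet (GE_periodic L M)
    ((GE_compl (by omega) hM0).trans (by
      apply ENNReal.ofReal_le_ofReal
      rw [hM]
      apply le_of_eq
      field_simp
      norm_num))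
    (R := RE α M) (by linarith [RE_pos hα0 hM0])
    (fun n x hx hG => by
      by_contra hcon
      push Not at hcon
      apply hx
      apply Esc_shift n
      apply tendsto_atTop_mono (fun k => escape hα0 hM0 hG hcon.le k)
      have hR := RE_pos hα0 hM0
      exact (tendsto_pow_atTop_atTop_of_one_lt (by norm_num)).atTop_mul_const (by linarith))
    hε0 (by filter_upwards [hfreq] with u hu _; exact hu)

lemma ae_GE_freq {L : ℕ} (hL : 0 < L) :
    ∀ᵐ u : ℝ, ∃ i : ℕ, ∃ᶠ n : ℕ in atTop, (L : ℝ) ^ n * u ∈ GE L ((i : ℝ) + 1) := by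
  apply ae_frequently hL (K := fun i : ℕ => GE L ((i : ℝ) + 1))
  · intro i
    exact (GE_closed _ _).measurableSet
  · intro i x
    exact GE_periodic _ _ x
  · intro i j hij
    have : (i : ℝ) + 1 ≤ (j : ℝ) + 1 := by
      have : (i : ℝ) ≤ j := by exact_mod_cast hij
      linarith
    exact GE_mono (by positivity) this
  · exact ae_GE hL

/-- uniform Cauchy property near an escaping point -/
lemma esc_cauchy {L : ℕ} {α z : ℂ} (hα0 : 0 < ‖α‖) {i : ℕ} {u : ℝ}
    (hu : ∃ᶠ n : ℕ in atTop, (L : ℝ) ^ n * u ∈ GE L ((i : ℝ) + 1)) (h : Esc L α z u) :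
    ∃ U : Set ℂ, IsOpen U ∧ z ∈ U ∧ ∀ ε : ℝ, 0 < ε → ∃ N, ∀ m ≥ N, ∀ n ≥ N, ∀ w ∈ U,
      dd (Phi L α w m u) (Phi L α w n u) < ε := by
  have hC : (0 : ℝ) < (i : ℝ) + 1 := by positivity
  obtain ⟨n, hn1, h1⟩ :=
    (hu.and_eventually (h.eventually_gt_atTop (RE α ((i : ℝ) + 1)))).exists
  refine ⟨{w | RE α ((i : ℝ) + 1) < ‖Phi L α w n u‖},
      isOpen_lt continuous_const (Phi_cont_z L α n u).norm, h1, fun ε hε => ?_⟩
  have hR := RE_pos hα0 hC
  have hlim : Tendsto (fun k : ℕ => (2 : ℝ) ^ k) atTop atTop :=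
    tendsto_pow_atTop_atTop_of_one_lt (by norm_num)
  obtain ⟨k0, hk0⟩ := (hlim.eventually_gt_atTop (4 / ε)).exists_forall_of_atTop
  have hb : ∀ m ≥ n + k0, ∀ w, RE α ((i : ℝ) + 1) < ‖Phi L α w n u‖ →
      2 ^ k0 ≤ ‖Phi L α w m u‖ := by
    intro m hm w hw
    obtain ⟨k, rfl⟩ := Nat.exists_eq_add_of_le (show n ≤ m by omega)
    rw [Phi_add_real]
    have h2 := escape hα0 hC hn1 hw.le k
    have h3 : (2 : ℝ) ^ k0 ≤ 2 ^ k := pow_le_pow_right₀ (by norm_num) (by omega)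
    have h4 : (0 : ℝ) < 2 ^ k := by positivity
    nlinarith
  refine ⟨n + k0, fun m hm m' hm' w hw => ?_⟩
  have h4 := dd_le_inv (by positivity : (0 : ℝ) < 2 ^ k0) (hb m hm w hw) (hb m' hm' w hw)
  refine h4.trans_lt ?_
  have h5 := hk0 k0 le_rfl
  rw [div_lt_iff₀ hε] at h5
  rw [div_lt_iff₀ (by positivity)]
  linarith

lemma ae_fubini {P : ℂ → ℝ → Prop} (hm : MeasurableSet {p : ℂ × ℝ | P p.1 p.2})
    (h : ∀ᵐ z : ℂ, ∀ᵐ u : ℝ, P z u) : ∀ᵐ u : ℝ, volume {z : ℂ | ¬ P z u} = 0 := by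
  have hm' : MeasurableSet {p : ℂ × ℝ | ¬ P p.1 p.2} := hm.compl
  have h2 : (volume.prod volume : Measure (ℂ × ℝ)) {p : ℂ × ℝ | ¬ P p.1 p.2} = 0 := by
    rw [Measure.measure_prod_null hm']
    filter_upwards [h] with z hz
    exact hz
  rw [Measure.prod_apply_symm hm', lintegral_eq_zero_iff (measurable_measure_prodMk_right hm')] at h2
  exact h2

/-- the exponents at the two fixed points agree -/
lemma exponents_eq (α : ℂ) :
    ∫ u in (0 : ℝ)..1, Real.log ‖1 - α * ((Real.cos (2 * Real.pi * u) : ℝ) : ℂ)‖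
      = ∫ u in (0 : ℝ)..1, Real.log ‖1 + α * ((Real.cos (2 * Real.pi * u) : ℝ) : ℂ)‖ := by
  set f : ℝ → ℝ := fun u => Real.log ‖1 + α * ((Real.cos (2 * Real.pi * u) : ℝ) : ℂ)‖ with hf
  have hp : Function.Periodic f 1 := by
    intro u
    simp only [hf]
    rw [mul_add, mul_one, Real.cos_add_two_pi]
  have h1 : ∀ u : ℝ, Real.log ‖1 - α * ((Real.cos (2 * Real.pi * u) : ℝ) : ℂ)‖ = f (u + 1 / 2) := by
    intro u
    simp only [hf]
    have : Real.cos (2 * Real.pi * (u + 1 / 2)) = -Real.cos (2 * Real.pi * u) := by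
      rw [← Real.cos_add_pi]; congr 1; ring
    rw [this]
    push_cast
    rw [mul_neg, ← sub_eq_add_neg]
  simp_rw [h1]
  rw [intervalIntegral.integral_comp_add_right]
  have h2 := hp.intervalIntegral_add_eq (1 / 2) 0
  have h3 : (0 : ℝ) + 1 / 2 = 1 / 2 := by norm_num
  have h4 : (1 : ℝ) + 1 / 2 = 1 / 2 + 1 := by norm_num
  rw [h3, h4, h2, zero_add]

end Pool.Agent.TH229.Kan
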