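import Pool.Agent.TH229.Kan.WEnergy
import Pool.Agent.TH229.Kan.Ergo

/-!
# Lower and upper bounds for the weighted energy
-/

set_option autoImplicit false

namespace Pool.Agent.TH229.Kan

open Complex Filter Topology MeasureTheory

lemma im_le_gg (p : ℂ) : |p.im| ≤ 2 * ‖p * (1 - p)‖ := by
  have h1 := Complex.abs_im_le_norm p
  have h2 : |p.im| ≤ ‖1 - p‖ := by
    have := Complex.abs_im_le_norm (1 - p)
    simpa using this
  have h3 : 1 ≤ ‖p‖ + ‖1 - p‖ := by
    have := norm_add_le p (1 - p)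
    rwa [add_sub_cancel, norm_one] at this
  rw [norm_mul]
  have h0 := abs_nonneg p.im
  rcases le_total (1 / 2) ‖p‖ with h | h
  · have : 1 / 2 * |p.im| ≤ ‖p‖ * ‖1 - p‖ := mul_le_mul h h2 h0 (norm_nonneg _)
    linarith
  · have h4 : 1 / 2 ≤ ‖1 - p‖ := by linarith
    have : |p.im| * (1 / 2) ≤ ‖p‖ * ‖1 - p‖ := mul_le_mul h1 h4 (by norm_num) (norm_nonneg _)
    linarith

lemma gg_le_im {α p : ℂ} {M : ℝ} (hα : ‖α‖ ≤ 1) (hp : ‖p‖ ≤ M) :
    |α.im| * ‖p * (1 - p)‖ ≤ |(α * (p * (1 - p))).im| + 2 * (1 + 2 * M) * |p.im| := by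
  set g := p * (1 - p) with hg
  have h1 : g.im = p.im * (1 - 2 * p.re) := by
    rw [hg, Complex.mul_im]
    simp only [Complex.sub_re, Complex.one_re, Complex.sub_im, Complex.one_im]
    ring
  have h2 : |g.im| ≤ (1 + 2 * M) * |p.im| := by
    rw [h1, abs_mul, mul_comm]
    apply mul_le_mul_of_nonneg_right _ (abs_nonneg _)
    have h3 := Complex.abs_re_le_norm p
    calc |1 - 2 * p.re| ≤ |(1 : ℝ)| + |2 * p.re| := abs_sub _ _
      _ = 1 + 2 * |p.re| := by rw [abs_one, abs_mul, abs_two]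
      _ ≤ 1 + 2 * M := by linarith
  have h3 : (α * g).im = α.re * g.im + α.im * g.re := Complex.mul_im _ _
  have h4 : |α.im| * |g.re| ≤ |(α * g).im| + |g.im| := by
    have h5 : α.im * g.re = (α * g).im - α.re * g.im := by rw [h3]; ring
    rw [← abs_mul, h5]
    refine (abs_sub _ _).trans ?_
    rw [abs_mul]
    have h6 : |α.re| ≤ 1 := (Complex.abs_re_le_norm α).trans hα
    have h7 : |α.re| * |g.im| ≤ 1 * |g.im| := mul_le_mul_of_nonneg_right h6 (abs_nonneg _)
    linarith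
  have h8 : ‖g‖ ≤ |g.re| + |g.im| := Complex.norm_le_abs_re_add_abs_im g
  have h9 : |α.im| ≤ 1 := (Complex.abs_im_le_norm α).trans hα
  have h10 : |α.im| * |g.im| ≤ 1 * |g.im| := mul_le_mul_of_nonneg_right h9 (abs_nonneg _)
  have h11 : |α.im| * ‖g‖ ≤ |α.im| * (|g.re| + |g.im|) :=
    mul_le_mul_of_nonneg_left h8 (abs_nonneg _)
  linarith

lemma gg_sq_le {α p : ℂ} {M c : ℝ} (hM : 0 ≤ M) (hα : ‖α‖ ≤ 1) (hp : ‖p‖ ≤ M) (hc : |c| ≤ 1) :
    α.im ^ 2 / (2 * (2 * (1 + 2 * M)) ^ 2) * (c ^ 2 * ‖p * (1 - p)‖ ^ 2)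
      ≤ p.im ^ 2 + c ^ 2 * (α * (p * (1 - p))).im ^ 2 := by
  have h1 := gg_le_im hα hp
  set D := 2 * (1 + 2 * M) with hD
  have hD1 : 1 ≤ D := by rw [hD]; linarith
  set G := ‖p * (1 - p)‖
  set X := |(α * (p * (1 - p))).im| with hX
  set Y := |p.im| with hY
  have hG : 0 ≤ G := norm_nonneg _
  have hX0 : 0 ≤ X := abs_nonneg _
  have hY0 : 0 ≤ Y := abs_nonneg _
  have hX2 : (α * (p * (1 - p))).im ^ 2 = X ^ 2 := (sq_abs _).symm
  have hY2 : p.im ^ 2 = Y ^ 2 := (sq_abs _).symm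
  have hA2 : α.im ^ 2 = |α.im| ^ 2 := (sq_abs _).symm
  rw [hX2, hY2, hA2]
  have hc2 : c ^ 2 ≤ 1 := by
    rw [← sq_abs]
    nlinarith [abs_nonneg c]
  have hc0 : 0 ≤ c ^ 2 := sq_nonneg c
  have h2 : (|α.im| * G) ^ 2 ≤ 2 * X ^ 2 + 2 * D ^ 2 * Y ^ 2 := by
    have h3 : (|α.im| * G) ^ 2 ≤ (X + D * Y) ^ 2 :=
      pow_le_pow_left₀ (by positivity) h1 2
    nlinarith [sq_nonneg (X - D * Y)]
  have h3 : |α.im| ^ 2 / (2 * D ^ 2) * (c ^ 2 * G ^ 2)
      = (c ^ 2 * (|α.im| * G) ^ 2) / (2 * D ^ 2) := by ring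
  rw [h3, div_le_iff₀ (by positivity)]
  have h4 : c ^ 2 * (|α.im| * G) ^ 2 ≤ c ^ 2 * (2 * X ^ 2 + 2 * D ^ 2 * Y ^ 2) :=
    mul_le_mul_of_nonneg_left h2 hc0
  have h5 : c ^ 2 * (2 * D ^ 2 * Y ^ 2) ≤ 1 * (2 * D ^ 2 * Y ^ 2) :=
    mul_le_mul_of_nonneg_right hc2 (by positivity)
  have h6 : 1 * (c ^ 2 * X ^ 2) ≤ D ^ 2 * (c ^ 2 * X ^ 2) := by
    apply mul_le_mul_of_nonneg_right _ (by positivity)
    nlinarith
  nlinarith

/-- integral of the squared cosine over a short interval -/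
lemma cos_sq_low {N : ℝ} (hN : 0 < N) (r u : ℝ) :
    (r - |Real.sin (4 * Real.pi * r)| / (4 * Real.pi)) / N
      ≤ ∫ x in (u - r / N)..(u + r / N), Real.cos (2 * Real.pi * (N * x)) ^ 2 := by
  have hpi := Real.pi_pos
  have h1 : ∫ x in (u - r / N)..(u + r / N), Real.cos (2 * Real.pi * (N * x)) ^ 2
      = (2 * Real.pi * N)⁻¹ * ∫ x in (2 * Real.pi * N * (u - r / N))..(2 * Real.pi * N * (u + r / N)),
        Real.cos x ^ 2 := by
    have := intervalIntegral.integral_comp_mul_left (a := u - r / N) (b := u + r / N)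
      (fun x => Real.cos x ^ 2) (c := 2 * Real.pi * N) (by positivity)
    rw [smul_eq_mul] at this
    rw [← this]
    apply intervalIntegral.integral_congr
    intro x _
    simp only []
    congr 2
    ring
  rw [h1, integral_cos_sq]
  set A := 2 * Real.pi * N * (u - r / N) with hA
  set B := 2 * Real.pi * N * (u + r / N) with hB
  have hBA : B - A = 4 * Real.pi * r := by rw [hA, hB]; field_simp; ring
  have h2 : Real.cos B * Real.sin B - Real.cos A * Real.sin A
      = Real.cos (A + B) * Real.sin (B - A) := by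
    rw [Real.cos_add, Real.sin_sub]
    have e1 := Real.sin_sq_add_cos_sq A
    have e2 := Real.sin_sq_add_cos_sq B
    have e3 : Real.cos A ^ 2 = 1 - Real.sin A ^ 2 := by linarith
    have e4 : Real.cos B ^ 2 = 1 - Real.sin B ^ 2 := by linarith
    have : (Real.cos A * Real.cos B - Real.sin A * Real.sin B) *
        (Real.sin B * Real.cos A - Real.cos B * Real.sin A)
        = Real.cos A ^ 2 * (Real.cos B * Real.sin B) - Real.cos B ^ 2 * (Real.sin A * Real.cos A)
          - Real.sin B ^ 2 * (Real.sin A * Real.cos A) + Real.sin A ^ 2 * (Real.sin B * Real.cos B) := by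
      ring
    rw [this, e3, e4]
    ring
  have h3 : -|Real.sin (4 * Real.pi * r)| ≤ Real.cos (A + B) * Real.sin (B - A) := by
    rw [hBA]
    have h4 : |Real.cos (A + B) * Real.sin (4 * Real.pi * r)| ≤ |Real.sin (4 * Real.pi * r)| := by
      rw [abs_mul]
      have := mul_le_mul_of_nonneg_right (Real.abs_cos_le_one (A + B))
        (abs_nonneg (Real.sin (4 * Real.pi * r)))
      linarith
    linarith [neg_abs_le (Real.cos (A + B) * Real.sin (4 * Real.pi * r))]
  have h5 : (r - |Real.sin (4 * Real.pi * r)| / (4 * Real.pi)) / N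
      = (2 * Real.pi * N)⁻¹ * ((-|Real.sin (4 * Real.pi * r)| + 4 * Real.pi * r) / 2) := by
    field_simp
    ring
  rw [h5]
  apply mul_le_mul_of_nonneg_left _ (by positivity)
  have h6 : Real.cos B * Real.sin B - Real.cos A * Real.sin A + B - A
      = Real.cos (A + B) * Real.sin (B - A) + 4 * Real.pi * r := by
    rw [← h2, ← hBA]; ring
  rw [h6]
  linarith

lemma kap_pos {r : ℝ} (hr : 0 < r) : 0 < r - |Real.sin (4 * Real.pi * r)| / (4 * Real.pi) := by
  have hpi := Real.pi_pos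
  have h1 : |Real.sin (4 * Real.pi * r)| < 4 * Real.pi * r := by
    have h2 : 0 < 4 * Real.pi * r := by positivity
    have h3 := Real.abs_sin_lt_abs (x := 4 * Real.pi * r) h2.ne'
    rwa [abs_of_pos h2] at h3
  rw [sub_pos, div_lt_iff₀ (by positivity)]
  linarith

/-- the lower bound near a point with large `g` -/
lemma low_near {L : ℕ} {α z : ℂ} (hL : 0 < L) {u C ε0 : ℝ} {n : ℕ}
    (hb : ∀ x : ℂ, ‖x - u‖ ≤ (1 / 2) / (L : ℝ) ^ n → NN (Phi L α z n x) ≤ Real.exp C)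
    (hu : ε0 ≤ ‖gg L α z n u‖) {r : ℝ} (hr : 0 < r) (hr4 : r ≤ 1 / 4)
    (hrε : 16 * Real.exp (2 * C) * r ≤ ε0) {x : ℝ} (hx : |x - u| ≤ r / (L : ℝ) ^ n) :
    ε0 / 2 ≤ ‖gg L α z n x‖ := by
  have hL0 : (0 : ℝ) < L := by exact_mod_cast hL
  set N : ℝ := (L : ℝ) ^ n with hN
  have hN0 : 0 < N := by positivity
  set G : ℂ → ℂ := fun x => Phi L α z n x * (1 - Phi L α z n x) with hG
  have hGd : Differentiable ℂ G :=
    (Phi_diff L α z n).mul ((differentiable_const 1).sub (Phi_diff L α z n))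
  have hGb : ∀ x : ℂ, ‖x - u‖ ≤ (1 / 2) / N → ‖G x‖ ≤ 2 * Real.exp (2 * C) := by
    intro x hx
    have h1 := hb x hx
    have h2 := norm_le_NN (Phi L α z n x)
    have h3 := one_sub_NN (Phi L α z n x)
    have h4 : Real.exp (2 * C) = Real.exp C * Real.exp C := by rw [← Real.exp_add]; ring_nf
    rw [hG]
    simp only [norm_mul]
    have hE := Real.exp_pos C
    calc ‖Phi L α z n x‖ * ‖1 - Phi L α z n x‖ ≤ Real.exp C * (2 * Real.exp C) := by
          gcongr
          · exact h2.trans h1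
          · exact h3.trans (by linarith)
      _ = _ := by rw [h4]; ring
  have hder : ∀ y ∈ Metric.closedBall (u : ℂ) (1 / 4 / N), ‖deriv G y‖ ≤ 8 * Real.exp (2 * C) * N := by
    intro y hy
    rw [mem_closedBall_iff_norm] at hy
    have h1 := Complex.norm_deriv_le_of_forall_mem_sphere_norm_le (f := G) (c := y)
      (R := 1 / 4 / N) (C := 2 * Real.exp (2 * C)) (by positivity) hGd.diffContOnCl (by
        intro w hw
        rw [mem_sphere_iff_norm] at hw
        apply hGb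
        calc ‖w - u‖ = ‖(w - y) + (y - u)‖ := by ring_nf
          _ ≤ ‖w - y‖ + ‖y - u‖ := norm_add_le _ _
          _ ≤ 1 / 4 / N + 1 / 4 / N := by linarith
          _ = 1 / 2 / N := by ring)
    refine h1.trans (le_of_eq ?_)
    field_simp
    ring
  have hxm : (x : ℂ) ∈ Metric.closedBall (u : ℂ) (1 / 4 / N) := by
    rw [mem_closedBall_iff_norm, ← Complex.ofReal_sub, Complex.norm_real, Real.norm_eq_abs]
    refine hx.trans ?_
    gcongr
  have hum : (u : ℂ) ∈ Metric.closedBall (u : ℂ) (1 / 4 / N) :=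
    Metric.mem_closedBall_self (by positivity)
  have h2 := (convex_closedBall (u : ℂ) (1 / 4 / N)).norm_image_sub_le_of_norm_deriv_le
    (fun y _ => hGd y) hder hum hxm
  rw [← Complex.ofReal_sub, Complex.norm_real, Real.norm_eq_abs] at h2
  have h3 : 8 * Real.exp (2 * C) * N * |x - u| ≤ ε0 / 2 := by
    calc 8 * Real.exp (2 * C) * N * |x - u| ≤ 8 * Real.exp (2 * C) * N * (r / N) := by gcongr
      _ = 8 * Real.exp (2 * C) * r := by field_simp
      _ ≤ ε0 / 2 := by linarith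
  have h4 : ‖G u‖ ≤ ‖G x‖ + ‖G x - G u‖ := by
    have := norm_sub_le (G x) (G x - G u)
    rwa [sub_sub_cancel] at this
  have h5 : gg L α z n u = G u := rfl
  have h6 : gg L α z n x = G x := rfl
  rw [h5] at hu
  rw [h6]
  linarith

end Pool.Agent.TH229.Kan
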