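import Pool.Agent.TH229.Kan.WCore

/-!
# The second core theorem
-/

set_option autoImplicit false

namespace Pool.Agent.TH229.Kan

open Complex Filter Topology MeasureTheory

lemma density_point' {L : ℕ} (hL : 6 ≤ L) {Nb : Set ℝ} (hNb : MeasurableSet Nb)
    (hv : volume Nb ≠ 0) {P : ℝ → Prop} (hP : ∀ᵐ u : ℝ, u ∈ Nb → P u) :
    ∃ u : ℝ, P u ∧ ∀ ε > 0, ∃ n0 : ℕ, ∀ n ≥ n0,
      volume (Nbᶜ ∩ Set.Icc (u - 1 / (L : ℝ) ^ n) (u + 1 / (L : ℝ) ^ n))
        ≤ ENNReal.ofReal (ε * (1 / (L : ℝ) ^ n)) := by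
  have hL1 : (1 : ℝ) < L := by
    have : (6 : ℝ) ≤ L := by exact_mod_cast hL
    linarith
  have hd := Besicovitch.ae_tendsto_measure_inter_div_of_measurableSet (volume : Measure ℝ)
    hNb.compl
  obtain ⟨u, huN, hu, huP⟩ : ∃ u ∈ Nb, Tendsto (fun r : ℝ => volume (Nbᶜ ∩ Metric.closedBall u r) /
      volume (Metric.closedBall u r)) (𝓝[>] 0) (𝓝 (Nbᶜ.indicator 1 u)) ∧ (u ∈ Nb → P u) := by
    by_contra hcon
    push Not at hcon
    apply hv
    refine measure_mono_null (fun u hu => ?_) (hd.and hP)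
    intro h
    exact (hcon u hu h.1).2 (h.2 (hcon u hu h.1).1)
  rw [Set.indicator_of_notMem (by simpa using huN)] at hu
  refine ⟨u, huP huN, fun ε hε => ?_⟩
  have hseq : Tendsto (fun n : ℕ => 1 / (L : ℝ) ^ n) atTop (𝓝[>] 0) := by
    rw [tendsto_nhdsWithin_iff]
    constructor
    · exact tendsto_const_nhds.div_atTop (tendsto_pow_atTop_atTop_of_one_lt hL1)
    · filter_upwards with n
      have : (0 : ℝ) < 1 / (L : ℝ) ^ n := by positivity
      exact this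
  have h1 := (hu.comp hseq).eventually (ge_mem_nhds
    (show (0 : ENNReal) < ENNReal.ofReal (ε / 2) from ENNReal.ofReal_pos.2 (by positivity)))
  obtain ⟨n0, hn0⟩ := h1.exists_forall_of_atTop
  refine ⟨n0, fun n hn => ?_⟩
  have h2 := hn0 n hn
  simp only [Function.comp_apply] at h2
  have hr : (0 : ℝ) < 1 / (L : ℝ) ^ n := by positivity
  rw [Real.closedBall_eq_Icc, Real.volume_Icc] at h2
  have h3 : u + 1 / (L : ℝ) ^ n - (u - 1 / (L : ℝ) ^ n) = 2 * (1 / (L : ℝ) ^ n) := by ring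
  rw [h3] at h2
  rw [ENNReal.div_le_iff (by
    rw [← pos_iff_ne_zero, ENNReal.ofReal_pos]; positivity) ENNReal.ofReal_ne_top] at h2
  refine h2.trans (le_of_eq ?_)
  rw [← ENNReal.ofReal_mul (by positivity)]
  congr 1
  ring

/-- some level has small energy increment -/
lemma exists_small {L : ℕ} {α z : ℂ} (hL : 6 ≤ L) (hα : ‖α‖ ≤ 1) (hα0 : α ≠ 0) {u C : ℝ}
    {m k q j1 N : ℕ} (hk : k = j1 + N) (hj1q : q ≤ j1)
    (hb : ∀ j ≤ k, ∀ x0 : ℝ, |x0 - u| ≤ (1 / 2) / (L : ℝ) ^ m →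
      ∀ x : ℂ, ‖x - x0‖ ≤ (1 / 2) / (L : ℝ) ^ (m + j) →
      NN (Phi L α z (m + j) x) ≤ Real.exp C) {a b : ℝ} (ha : a = u - 1 / 2 / (L : ℝ) ^ m)
    (hbb : b = u + 1 / 2 / (L : ℝ) ^ m) {η : ℝ} (hη : 0 < η)
    (hq : D1 L q C ≤ ‖α‖ * η / 8) (hj1 : ∀ j ≥ j1, D2 L q C / (L : ℝ) ^ j ≤ ‖α‖ * η / 8)
    (hN : Real.exp (2 * C) / (‖α‖ ^ 2 * η / 2) < N) :
    ∃ i, j1 ≤ i ∧ i < k ∧ ∫ x in a..b, cr L (m + i) x ^ 2 * ‖gg L α z (m + i) x‖ ^ 2
      ≤ (1 / (L : ℝ) ^ m) * η := by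
  by_contra hcon
  push Not at hcon
  have hL6 : (6 : ℝ) ≤ L := by exact_mod_cast hL
  have hL0 : (0 : ℝ) < L := by linarith
  have hα' : 0 < ‖α‖ := norm_pos_iff.2 hα0
  set w : ℝ := 1 / (L : ℝ) ^ m with hw
  have hw0 : 0 < w := by positivity
  have hba : b - a = w := by rw [ha, hbb, hw]; ring
  set κ : ℝ := ‖α‖ ^ 2 * η / 2 with hκ
  have hκ0 : 0 < κ := by positivity
  set J : ℕ → ℝ := fun i => ∫ x in a..b, ‖Phi L α z (m + i) (x : ℝ)‖ ^ 2 with hJ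
  have hstep : ∀ i, j1 ≤ i → i < k → J i + w * κ ≤ J (i + 1) := by
    intro i hi1 hi2
    have h1 := energy_step L α z (m + i) a b
    have h2 := cross_total (q := q) (j := i) hL hα (hj1q.trans hi1) (u := u) (C := C) (m := m)
      (fun x0 hx0 x hx => hb (i - q) (by omega) x0 hx0 x hx)
    have h3 := hcon i hi1 hi2
    rw [← ha, ← hbb] at h2
    rw [← hw] at h2
    set X := ∫ x in a..b, (cr L (m + i) x : ℂ) * gg L α z (m + i) x *
      starRingEnd ℂ (Phi L α z (m + i) x) with hX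
    have h4 : -(‖α‖ * ‖X‖) ≤ (α * X).re := by
      have := Complex.abs_re_le_norm (α * X)
      rw [norm_mul] at this
      exact (abs_le.1 this).1
    have h5 : D1 L q C + D2 L q C / (L : ℝ) ^ i ≤ ‖α‖ * η / 4 := by
      have := hj1 i hi1
      linarith
    have h6 : ‖X‖ ≤ w * (‖α‖ * η / 4) := h2.trans (by gcongr)
    have h7 : ‖α‖ * ‖X‖ ≤ ‖α‖ * (w * (‖α‖ * η / 4)) := by gcongr
    have h10 : ‖α‖ ^ 2 * (w * η) ≤
        ‖α‖ ^ 2 * ∫ x in a..b, cr L (m + i) x ^ 2 * ‖gg L α z (m + i) x‖ ^ 2 := by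
      gcongr
    have h11 : J (i + 1) = ∫ x in a..b, ‖Phi L α z (m + i + 1) (x : ℝ)‖ ^ 2 := by
      simp only [hJ, add_assoc]
    rw [h11, h1]
    have h12 : J i = ∫ x in a..b, ‖Phi L α z (m + i) (x : ℝ)‖ ^ 2 := rfl
    rw [← h12]
    rw [hκ]
    nlinarith
  have hJ0 : ∀ i, 0 ≤ J i := by
    intro i
    apply intervalIntegral.integral_nonneg
    · linarith
    · intro x _
      positivity
  have hsum : ∀ i, i ≤ N → (i : ℝ) * (w * κ) ≤ J (j1 + i) := by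
    intro i
    induction i with
    | zero => intro _; simpa using hJ0 j1
    | succ i ih =>
      intro hi
      have h1 := ih (by omega)
      have h2 := hstep (j1 + i) (by omega) (by omega)
      push_cast
      rw [← add_assoc]
      linarith
  have hup : J k ≤ w * Real.exp (2 * C) := by
    have h1 : ∀ x ∈ Set.Icc a b, ‖Phi L α z (m + k) (x : ℝ)‖ ^ 2 ≤ Real.exp (2 * C) := by
      intro x hx
      have h2 := hb k le_rfl x (by
        rw [abs_le]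
        rw [ha, hbb] at hx
        constructor <;> linarith [hx.1, hx.2]) (x : ℂ) (by
        rw [sub_self, norm_zero]; positivity)
      have h3 : ‖Phi L α z (m + k) (x : ℝ)‖ ≤ Real.exp C := (norm_le_NN _).trans h2
      calc ‖Phi L α z (m + k) (x : ℝ)‖ ^ 2 ≤ Real.exp C ^ 2 :=
            pow_le_pow_left₀ (norm_nonneg _) h3 2
        _ = Real.exp (2 * C) := by rw [← Real.exp_nat_mul]; norm_num
    have h4 : J k ≤ ∫ _ in a..b, Real.exp (2 * C) := by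
      apply intervalIntegral.integral_mono_on (by linarith)
      · exact (((Phi_real_cont L α z (m + k)).norm).pow 2).intervalIntegrable _ _
      · exact intervalIntegrable_const
      · exact h1
    rw [intervalIntegral.integral_const, hba, smul_eq_mul] at h4
    exact h4
  have hfin := hsum N le_rfl
  rw [div_lt_iff₀ hκ0] at hN
  rw [← hk] at hfin
  have : (N : ℝ) * (w * κ) ≤ w * Real.exp (2 * C) := hfin.trans hup
  have h20 : w * Real.exp (2 * C) < w * (N * κ) := mul_lt_mul_of_pos_left hN hw0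
  linarith

theorem core2 {L : ℕ} {α z : ℂ} (hL : 6 ≤ L) (hα : ‖α‖ ≤ 1) (him : α.im ≠ 0) {Nb : Set ℝ}
    (hNb : MeasurableSet Nb)
    {G : Set ℝ} (hGm : MeasurableSet G) (hGp : ∀ x, x + 1 ∈ G ↔ x ∈ G)
    (hG : volume (Gᶜ ∩ Set.Ioc 0 1) ≤ ENNReal.ofReal (eps0 / 4)) {R : ℝ} (hR : 0 ≤ R)
    (hbd : ∀ n : ℕ, ∀ x ∈ Nb, (L : ℝ) ^ n * x ∈ G → ‖Phi L α z n (x : ℝ)‖ ≤ R)
    {ε0 : ℝ} (hε0 : 0 < ε0)
    (hfreq : ∀ᵐ u : ℝ, u ∈ Nb → ∃ᶠ n : ℕ in atTop, ε0 ≤ ‖gg L α z n u‖) :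
    volume Nb = 0 := by
  by_contra hv
  have hL6 : (6 : ℝ) ≤ L := by exact_mod_cast hL
  have hL0 : (0 : ℝ) < L := by linarith
  have hL1 : (1 : ℝ) < L := by linarith
  have hα0 : α ≠ 0 := by
    rintro rfl
    simp at him
  have hα' : 0 < ‖α‖ := norm_pos_iff.2 hα0
  obtain ⟨u, hufreq, hu⟩ := density_point' hL hNb hv hfreq
  have he0 := eps0_pos
  obtain ⟨n0, hn0⟩ := hu (eps0 / 4) (by positivity)
  obtain ⟨n1, hn1⟩ := phase1 hL hα hGm hGp hG hR hbd hn0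
  have hCM := CM_pos hR
  set C : ℝ := CM R + 1 with hC
  have hC0 : 0 ≤ C := by linarith
  -- the constants
  obtain ⟨r, hr, hr4, hrε⟩ : ∃ r : ℝ, 0 < r ∧ r ≤ 1 / 4 ∧ 16 * Real.exp (2 * C) * r ≤ ε0 := by
    refine ⟨min (1 / 4) (ε0 / (16 * Real.exp (2 * C))), by positivity, min_le_left _ _, ?_⟩
    have := min_le_right (1 / 4) (ε0 / (16 * Real.exp (2 * C)))
    rw [le_div_iff₀ (by positivity)] at this
    linarith
  have hkap := kap_pos hr
  set κ : ℝ := α.im ^ 2 / (2 * (2 * (1 + 2 * Real.exp C)) ^ 2) * (ε0 ^ 2 / 4) *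
        (r - |Real.sin (4 * Real.pi * r)| / (4 * Real.pi)) / 8 with hκ
  have hκ0 : 0 < κ := by
    have h1 : 0 < α.im ^ 2 := by positivity
    positivity
  -- level `j0`
  obtain ⟨j0, hj0⟩ : ∃ j0 : ℕ, 480 * Real.exp (K0 C) / (L : ℝ) ^ j0 ≤ κ / 4 := by
    have hlim : Tendsto (fun j : ℕ => 480 * Real.exp (K0 C) / (L : ℝ) ^ j) atTop (𝓝 0) :=
      tendsto_const_nhds.div_atTop (tendsto_pow_atTop_atTop_of_one_lt hL1)
    exact (hlim.eventually (ge_mem_nhds (by positivity : 0 < κ / 4))).exists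
  set δ : ℝ := κ / (L : ℝ) ^ j0 with hδ
  have hδ0 : 0 < δ := by positivity
  set τ : ℝ := δ / (16 * Real.exp (4 * C)) with hτ
  have hτ0 : 0 < τ := by positivity
  set η : ℝ := τ ^ 2 * δ / 4 with hη
  have hη0 : 0 < η := by positivity
  obtain ⟨q, hq⟩ := exists_q hL C (δ := ‖α‖ * η / 8) (by positivity)
  obtain ⟨j1', hj1q', hj1'⟩ := exists_j hL q C (δ := ‖α‖ * η / 8) (by positivity)
  set j1 : ℕ := j1' + j0 + 1 with hj1def
  have hj1q : q ≤ j1 := by omega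
  have hj1 : ∀ j ≥ j1, D2 L q C / (L : ℝ) ^ j ≤ ‖α‖ * η / 8 := fun j hj => hj1' j (by omega)
  obtain ⟨N, hN⟩ := exists_nat_gt (Real.exp (2 * C) / (‖α‖ ^ 2 * η / 2))
  set k : ℕ := j1 + N with hk
  obtain ⟨m0, hm0⟩ := hu (eps0 / 8 * (1 / (L : ℝ) ^ k)) (by positivity)
  obtain ⟨n, hn, hnu⟩ := (hufreq.and_eventually (eventually_ge_atTop (max n1 m0 + j0))).exists
  obtain ⟨m, rfl⟩ : ∃ m, n = m + j0 := ⟨n - j0, by omega⟩
  have hm1 : n1 ≤ m := by
    have := le_max_left n1 m0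
    omega
  have hm2 : m0 ≤ m := by
    have := le_max_right n1 m0
    omega
  have hNm := hm0 m hm2
  have hb := phase2 (k := k) hL hα hGm hGp hG hR hbd (hn1 m hm1) (hNm.trans (by
    apply ENNReal.ofReal_le_ofReal
    apply le_of_eq
    rw [show (L : ℝ) ^ (m + k) = (L : ℝ) ^ m * (L : ℝ) ^ k from pow_add _ _ _]
    generalize (L : ℝ) ^ k = y
    field_simp))
  rw [← hC] at hb
  set a := u - 1 / 2 / (L : ℝ) ^ m with ha
  set b := u + 1 / 2 / (L : ℝ) ^ m with hbb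
  obtain ⟨i, hi1, hi2, hi3⟩ := exists_small hL hα hα0 hk hj1q hb ha hbb hη0 hq hj1 hN
  have hfirst := energy_first hL hα (hb j0 (by omega)) ha hbb hn hε0 hr hr4 hrε
  have hlast := energy_last hL (hb i (by omega)) ha hbb hτ0 hi3
  obtain ⟨i', hi'⟩ : ∃ i', i = j0 + i' + 1 := ⟨i - j0 - 1, by omega⟩
  have hchain := energy_chain (k := k) (j0 := j0) hL hα hC0 hb ha hbb i' (by omega)
  rw [← hi'] at hchain
  rw [← hκ] at hfirst
  set w : ℝ := 1 / (L : ℝ) ^ m with hw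
  have hw0 : 0 < w := by positivity
  have e1 : κ * (w ^ 3 / (L : ℝ) ^ j0) = w ^ 3 * δ := by rw [hδ]; ring
  rw [e1] at hfirst
  have e2 : η / τ ^ 2 + 4 * Real.exp (4 * C) * τ = δ / 2 := by
    have h1 : η / τ ^ 2 = δ / 4 := by rw [hη]; field_simp
    have h2 : 4 * Real.exp (4 * C) * τ = δ / 4 := by rw [hτ]; field_simp; norm_num
    rw [h1, h2]; ring
  rw [e2] at hlast
  have e3 : 240 * Real.exp (K0 C) * w ^ 3 *
      (2 / (L : ℝ) ^ (2 * j0) - 2 / (L : ℝ) ^ (2 * i)) ≤ w ^ 3 * (δ / 4) := by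
    have h1 : 0 ≤ 2 / (L : ℝ) ^ (2 * i) := by positivity
    have h2 : 240 * Real.exp (K0 C) * w ^ 3 *
      (2 / (L : ℝ) ^ (2 * j0) - 2 / (L : ℝ) ^ (2 * i)) ≤
      240 * Real.exp (K0 C) * w ^ 3 * (2 / (L : ℝ) ^ (2 * j0)) := by
      apply mul_le_mul_of_nonneg_left _ (by positivity)
      linarith
    refine h2.trans ?_
    have h3 : 240 * Real.exp (K0 C) * w ^ 3 * (2 / (L : ℝ) ^ (2 * j0))
        = w ^ 3 * ((480 * Real.exp (K0 C) / (L : ℝ) ^ j0) / (L : ℝ) ^ j0) := by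
      rw [mul_comm 2 j0, pow_mul]
      field_simp
      norm_num
    rw [h3]
    have h4 : δ / 4 = (κ / 4) / (L : ℝ) ^ j0 := by rw [hδ]; ring
    rw [h4]
    gcongr
  have hw3 : 0 < w ^ 3 * δ := by positivity
  nlinarith

end Pool.Agent.TH229.Kan
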